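import Pool.Agent.MUF.Trace

/-!
# MUF: the centre of the matrix ultraproduct is trivial

MP_a83bb2_an (helper13).
-/

set_option autoImplicit false

open Filter Topology
open scoped Matrix Matrix.Norms.L2Operator

noncomputable section

namespace Pool.Agent.MUF

/-- a cut which contains half of the weight -/
theorem exists_cut (n : ℕ) (c : Fin n → Fin n → ℝ) :
    ∃ f : Fin n → Bool, (1 / 2) * ∑ i, ∑ j, (if i = j then 0 else c i j)
      ≤ ∑ i, ∑ j, (if f i = f j then 0 else c i j) := by
  obtain ⟨f, -, hf⟩ := Finset.exists_le_of_sum_le (s := (Finset.univ : Finset (Fin n → Bool)))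
    (f := fun _ : Fin n → Bool => (1 / 2) * ∑ i, ∑ j, (if i = j then 0 else c i j))
    (g := fun f : Fin n → Bool => ∑ i, ∑ j, (if f i = f j then 0 else c i j))
    Finset.univ_nonempty (by
      have hL : ∑ _f : Fin n → Bool, (1 / 2) * ∑ i, ∑ j, (if i = j then 0 else c i j)
          = ∑ i, ∑ j, ∑ _f : Fin n → Bool, (1 / 2) * (if i = j then 0 else c i j) := by
        simp only [Finset.mul_sum]
        rw [Finset.sum_comm]
        refine Finset.sum_congr rfl fun i _ => ?_
        rw [Finset.sum_comm]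
      have hR : ∑ f : Fin n → Bool, ∑ i, ∑ j, (if f i = f j then 0 else c i j)
          = ∑ i, ∑ j, ∑ f : Fin n → Bool, (if f i = f j then 0 else c i j) := by
        rw [Finset.sum_comm]
        refine Finset.sum_congr rfl fun i _ => ?_
        rw [Finset.sum_comm]
      rw [hL, hR]
      refine Finset.sum_le_sum fun i _ => Finset.sum_le_sum fun j _ => ?_
      by_cases hij : i = j
      · subst hij
        simp
      · have key : ∀ f : Fin n → Bool, Function.update (Function.update f i (!f i)) i
            (!(Function.update f i (!f i)) i) = f := by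
          intro f
          rw [Function.update_self, Function.update_idem, Bool.not_not, Function.update_eq_self]
        have h1 : ∑ f : Fin n → Bool, (if f i = f j then (0 : ℝ) else c i j)
            = ∑ f : Fin n → Bool, (if f i = f j then c i j else 0) := by
          rw [← Equiv.sum_comp (Function.Involutive.toPerm
            (fun f : Fin n → Bool => Function.update f i (!f i)) key)]
          refine Finset.sum_congr rfl fun f _ => ?_
          show (if (Function.update f i (!f i)) i = (Function.update f i (!f i)) j then (0 : ℝ)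
            else c i j) = _
          rw [Function.update_self, Function.update_of_ne (Ne.symm hij)]
          cases f i <;> cases f j <;> simp
        have h2 : ∑ f : Fin n → Bool, (if f i = f j then (0 : ℝ) else c i j)
            + ∑ f : Fin n → Bool, (if f i = f j then c i j else 0)
            = ∑ f : Fin n → Bool, c i j := by
          rw [← Finset.sum_add_distrib]
          refine Finset.sum_congr rfl fun f _ => ?_
          split_ifs <;> simp
        rw [← h1] at h2
        rw [if_neg hij, ← Finset.mul_sum, ← h2]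
        linarith)
  exact ⟨f, hf⟩

/-- a shift which moves the values of a function apart -/
theorem exists_shift (n : ℕ) [NeZero n] (a : Fin n → ℂ) :
    ∃ k : Fin n, 2 * ∑ i, ‖a i - (∑ j, a j) / n‖ ^ 2 ≤ ∑ i, ‖a i - a (i + k)‖ ^ 2 := by
  set μ : ℂ := (∑ j, a j) / n with hμ
  have hn : (n : ℂ) ≠ 0 := by exact_mod_cast NeZero.ne n
  obtain ⟨k, -, hk⟩ := Finset.exists_le_of_sum_le (s := (Finset.univ : Finset (Fin n)))
    (f := fun _ => 2 * ∑ i, ‖a i - μ‖ ^ 2)
    (g := fun k => ∑ i, ‖a i - a (i + k)‖ ^ 2) Finset.univ_nonempty (by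
      rw [Finset.sum_comm]
      have h1 : ∀ i, ∑ k, ‖a i - a (i + k)‖ ^ 2 = ∑ j, ‖a i - a j‖ ^ 2 := by
        intro i
        exact Equiv.sum_comp (Equiv.addLeft i) fun j => ‖a i - a j‖ ^ 2
      rw [Finset.sum_congr rfl fun i _ => h1 i]
      have h2 : ∀ i j, ‖a i - a j‖ ^ 2 = ‖a i - μ‖ ^ 2 + ‖a j - μ‖ ^ 2
          - 2 * ((a i - μ) * star (a j - μ)).re := by
        intro i j
        have h3 : a i - a j = (a i - μ) - (a j - μ) := by ring
        rw [h3, Complex.sq_norm, Complex.sq_norm, Complex.sq_norm, Complex.normSq_sub]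
        rfl
      have h0 : ∑ j, (a j - μ) = 0 := by
        rw [Finset.sum_sub_distrib, Finset.sum_const, Finset.card_univ, Fintype.card_fin,
          nsmul_eq_mul, hμ, mul_div_cancel₀ _ hn, sub_self]
      have h4 : ∑ i, ∑ j, ((a i - μ) * star (a j - μ)).re = 0 := by
        have h5 : ∀ i, ∑ j, ((a i - μ) * star (a j - μ)).re = 0 := by
          intro i
          rw [← Complex.re_sum, ← Finset.mul_sum, ← star_sum, h0, star_zero, mul_zero,
            Complex.zero_re]
        exact Finset.sum_eq_zero fun i _ => h5 i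
      rw [Finset.sum_congr rfl fun i _ => Finset.sum_congr rfl fun j _ => h2 i j]
      simp only [Finset.sum_sub_distrib, Finset.sum_add_distrib, ← Finset.mul_sum]
      rw [h4]
      simp only [Finset.sum_const, Finset.card_univ, Fintype.card_fin, nsmul_eq_mul,
        ← Finset.mul_sum]
      linarith)
  exact ⟨k, hk⟩

theorem exists_off {n : ℕ} (x : Matrix (Fin n) (Fin n) ℂ) :
    ∃ w : Matrix (Fin n) (Fin n) ℂ, ‖w‖ ≤ 1 ∧
      nsq (x - Matrix.diagonal fun i => x i i) ≤ 2 * nsq (x * w - w * x) := by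
  obtain ⟨f, hf⟩ := exists_cut n fun i j => ‖x i j‖ ^ 2
  refine ⟨Matrix.diagonal fun i => if f i then 1 else 0, ?_, ?_⟩
  · rw [Matrix.l2_opNorm_diagonal]
    refine (pi_norm_le_iff_of_nonneg zero_le_one).2 fun i => ?_
    split_ifs <;> simp
  · have h1 : nsq (x - Matrix.diagonal fun i => x i i)
        = (∑ i, ∑ j, (if i = j then 0 else ‖x i j‖ ^ 2)) / n := by
      rw [nsq_eq]
      congr 1
      refine Finset.sum_congr rfl fun i _ => Finset.sum_congr rfl fun j _ => ?_
      rw [Matrix.sub_apply, Matrix.diagonal_apply]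
      split_ifs with h
      · subst h
        simp
      · rw [sub_zero]
    have h2 : nsq (x * (Matrix.diagonal fun i => if f i then (1 : ℂ) else 0)
          - (Matrix.diagonal fun i => if f i then (1 : ℂ) else 0) * x)
        = (∑ i, ∑ j, (if f i = f j then 0 else ‖x i j‖ ^ 2)) / n := by
      rw [nsq_eq]
      congr 1
      refine Finset.sum_congr rfl fun i _ => Finset.sum_congr rfl fun j _ => ?_
      rw [Matrix.sub_apply, Matrix.mul_diagonal, Matrix.diagonal_mul]
      cases f i <;> cases f j <;> simp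
    rw [h1, h2, ← mul_div_assoc]
    refine div_le_div_of_nonneg_right ?_ (Nat.cast_nonneg n)
    linarith

theorem exists_diag {n : ℕ} (x : Matrix (Fin n) (Fin n) ℂ) :
    ∃ w : Matrix (Fin n) (Fin n) ℂ, ‖w‖ ≤ 1 ∧
      nsq ((Matrix.diagonal fun i => x i i) - ntr x • (1 : Matrix (Fin n) (Fin n) ℂ))
        ≤ nsq (x * w - w * x) := by
  rcases Nat.eq_zero_or_pos n with h0 | h0
  · subst h0
    exact ⟨0, by simp, by simp [nsq]⟩
  have : NeZero n := ⟨h0.ne'⟩
  obtain ⟨k, hk⟩ := exists_shift n fun i => x i i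
  refine ⟨(Equiv.addRight k).permMatrix ℂ, Matrix.permMatrix_l2_opNorm_le _, ?_⟩
  have h1 : nsq ((Matrix.diagonal fun i => x i i) - ntr x • (1 : Matrix (Fin n) (Fin n) ℂ))
      = (∑ i, ‖x i i - (∑ j, x j j) / n‖ ^ 2) / n := by
    rw [nsq_eq]
    congr 1
    refine Finset.sum_congr rfl fun i _ => ?_
    rw [Finset.sum_eq_single i]
    · rw [Matrix.sub_apply, Matrix.diagonal_apply_eq, Matrix.smul_apply, Matrix.one_apply_eq,
        smul_eq_mul, mul_one]
      rfl
    · intro j _ hj
      rw [Matrix.sub_apply, Matrix.diagonal_apply_ne _ hj.symm, Matrix.smul_apply,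
        Matrix.one_apply_ne hj.symm]
      simp
    · intro h
      exact absurd (Finset.mem_univ i) h
  have h2 : (∑ i, ‖x i i - x (i + k) (i + k)‖ ^ 2) / n
      ≤ nsq (x * (Equiv.addRight k).permMatrix ℂ - (Equiv.addRight k).permMatrix ℂ * x) := by
    rw [nsq_eq]
    refine div_le_div_of_nonneg_right ?_ (Nat.cast_nonneg n)
    refine Finset.sum_le_sum fun i _ => ?_
    have h3 : ‖x i i - x (i + k) (i + k)‖ ^ 2
        = ‖(x * (Equiv.addRight k).permMatrix ℂ - (Equiv.addRight k).permMatrix ℂ * x)
          i (i + k)‖ ^ 2 := by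
      congr 2
      rw [Matrix.sub_apply]
      congr 1
      · rw [Matrix.mul_apply, Finset.sum_eq_single i]
        · simp [Equiv.Perm.permMatrix, PEquiv.toMatrix_apply]
        · intro j _ hj
          have h4 : j + k ≠ i + k := fun h => hj (add_right_cancel h)
          simp [Equiv.Perm.permMatrix, PEquiv.toMatrix_apply, h4]
        · intro h
          exact absurd (Finset.mem_univ i) h
      · rw [Matrix.mul_apply, Finset.sum_eq_single (i + k)]
        · simp [Equiv.Perm.permMatrix, PEquiv.toMatrix_apply]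
        · intro j _ hj
          simp [Equiv.Perm.permMatrix, PEquiv.toMatrix_apply, hj.symm]
        · intro h
          exact absurd (Finset.mem_univ _) h
    rw [h3]
    exact Finset.single_le_sum (f := fun j => ‖(x * (Equiv.addRight k).permMatrix ℂ
      - (Equiv.addRight k).permMatrix ℂ * x) i j‖ ^ 2) (fun j _ => by positivity)
      (Finset.mem_univ _)
  rw [h1]
  refine le_trans ?_ h2
  refine div_le_div_of_nonneg_right ?_ (Nat.cast_nonneg n)
  have h3 : 0 ≤ ∑ i, ‖x i i - (∑ j, x j j) / n‖ ^ 2 := Finset.sum_nonneg fun i _ => by positivity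
  linarith

variable {U : Ultrafilter ℕ}

/-- a bounded sequence, given by its members -/
def mkB (w : ∀ n : ℕ, Matrix (Fin n) (Fin n) ℂ) (C : ℝ) (h : ∀ n, ‖w n‖ ≤ C) : Bdd := ⟨w, C, h⟩

theorem centre (z : MU U) (hz : ∀ y, z * y = y * z) : ∃ c : ℂ, z = algebraMap ℂ (MU U) c := by
  obtain ⟨x, rfl⟩ := cl_surj U z
  choose w hw1 hw2 using fun n => exists_off (x.1 n)
  choose v hv1 hv2 using fun n => exists_diag (x.1 n)
  have comm : ∀ a : Bdd, Tendsto (fun n => nsq (x.1 n * a.1 n - a.1 n * x.1 n)) U (𝓝 0) := by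
    intro a
    have h1 := hz (cl U a)
    rw [← map_mul, ← map_mul, cl_eq] at h1
    exact h1
  have h1 := comm (mkB w 1 hw1)
  have h2 := comm (mkB v 1 hv1)
  have h3 := (h1.const_mul 4).add (h2.const_mul 2)
  rw [mul_zero, mul_zero, add_zero] at h3
  have h4 : Tendsto (fun n => nsq (x.1 n - ntr (x.1 n) • (1 : Matrix (Fin n) (Fin n) ℂ))) U
      (𝓝 0) := by
    refine squeeze_zero (fun n => nsq_nonneg _) (fun n => ?_) h3
    have h5 : x.1 n - ntr (x.1 n) • (1 : Matrix (Fin n) (Fin n) ℂ)
        = (x.1 n - Matrix.diagonal fun i => x.1 n i i)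
          + ((Matrix.diagonal fun i => x.1 n i i)
            - ntr (x.1 n) • (1 : Matrix (Fin n) (Fin n) ℂ)) := by abel
    rw [h5]
    have h6 := nsq_add_le (x.1 n - Matrix.diagonal fun i => x.1 n i i)
      ((Matrix.diagonal fun i => x.1 n i i) - ntr (x.1 n) • (1 : Matrix (Fin n) (Fin n) ℂ))
    have h7 := hw2 n
    have h8 := hv2 n
    show _ ≤ 4 * nsq (x.1 n * w n - w n * x.1 n) + 2 * nsq (x.1 n * v n - v n * x.1 n)
    linarith
  have h5 : Tendsto (fun n => ‖ntr (x.1 n) - tau U (cl U x)‖ ^ 2) U (𝓝 0) := by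
    have h6 := (tendsto_tau (U := U) x).sub_const (tau U (cl U x))
    rw [sub_self] at h6
    have h7 := h6.norm.pow 2
    rw [norm_zero, zero_pow two_ne_zero] at h7
    exact h7
  refine ⟨tau U (cl U x), ?_⟩
  rw [Algebra.algebraMap_eq_smul_one, ← map_one (cl U), ← map_smul, cl_eq]
  have h6 := (h4.const_mul 2).add (h5.const_mul 2)
  rw [mul_zero, add_zero] at h6
  refine squeeze_zero (fun n => nsq_nonneg _) (fun n => ?_) h6
  have h7 : x.1 n - (tau U (cl U x) • (1 : Bdd)).1 n
      = (x.1 n - ntr (x.1 n) • (1 : Matrix (Fin n) (Fin n) ℂ))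
        + (ntr (x.1 n) - tau U (cl U x)) • (1 : Matrix (Fin n) (Fin n) ℂ) := by
    rw [sub_smul]
    show x.1 n - tau U (cl U x) • (1 : Matrix (Fin n) (Fin n) ℂ) = _
    abel
  rw [h7]
  refine (nsq_add_le _ _).trans (add_le_add le_rfl ?_)
  rw [nsq_smul]
  exact mul_le_mul_of_nonneg_left (mul_le_of_le_one_right (by positivity) nsq_one_le) zero_le_two

end Pool.Agent.MUF
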