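import Pool.Agent.MUF.Local

/-!
# MUF: projections in the relative commutant

MP_a83bb2_an (helper13).
-/

set_option autoImplicit false

noncomputable section

namespace Pool.Agent.MUF

open Polynomial

variable {A : Type} [Ring A] [StarRing A] [Algebra ℂ A] [StarModule ℂ A]
variable {τ : A →ₗ[ℂ] ℂ} {N : StarSubalgebra ℂ A} {E : A →ₗ[ℂ] A} {ι : Type} [Fintype ι]
  {m : ι → A} {d : ℝ}

/-- an orthonormal family in the relative commutant has at most `d` members -/
theorem IsFinIndex.card_le (h : IsState τ) (h1 : τ 1 = 1) (hI : IsFinIndex τ N E m d) {n : ℕ}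
    (x : Fin n → A) (hx : ∀ i, ∀ y ∈ N, y * x i = x i * y)
    (ho : ∀ i j, τ (star (x i) * x j) = if i = j then 1 else 0) : (n : ℝ) ≤ d := by
  have hxs : ∀ i, ∀ y ∈ N, y * star (x i) = star (x i) * y := by
    intro i y hy
    have h2 := congrArg star (hx i (star y) (star_mem hy))
    rw [star_mul, star_mul, star_star] at h2
    exact h2.symm
  have hE : ∀ i j, E (star (x i) * x j) = if i = j then 1 else 0 := by
    intro i j
    rw [hI.E_scalar h1 (p := star (x i) * x j), ho]
    · split_ifs
      · rw [map_one]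
      · rw [map_zero]
    · intro y hy
      rw [← mul_assoc, hxs i y hy, mul_assoc, hx j y hy, mul_assoc]
  set v : ι → A := fun j => m j - ∑ i, x i * E (star (x i) * m j) with hv
  have hsv : ∀ j, star (v j) = star (m j) - ∑ i, E (star (m j) * x i) * star (x i) := by
    intro j
    simp only [hv]
    rw [star_sub, star_sum]
    congr 1
    refine Finset.sum_congr rfl fun i _ => ?_
    rw [star_mul, ← hI.star_E h, star_mul, star_star]
  have e1 : ∀ i, ∑ j, E (star (x i) * m j) * star (m j) = star (x i) := by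
    intro i
    have h2 := congrArg star (hI.basis (x i))
    rw [star_sum] at h2
    refine Eq.trans ?_ h2
    refine Finset.sum_congr rfl fun j _ => ?_
    rw [star_mul, ← hI.star_E h, star_mul, star_star]
  have e2 : ∀ i l, ∑ j, E (star (x i) * m j) * E (star (m j) * x l) = if i = l then 1 else 0 := by
    intro i l
    rw [← hE, ← hI.basis (x l), Finset.mul_sum, map_sum]
    conv_lhs => rw [hI.basis (x l)]
    refine Finset.sum_congr rfl fun j _ => ?_
    rw [← mul_assoc, hI.right _ (hI.range _)]
  have e3 : ∑ j, v j * star (v j) = algebraMap ℂ A d - ∑ i, x i * star (x i) := by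
    have h2 : ∀ j, v j * star (v j) = m j * star (m j)
        - ∑ i, m j * E (star (m j) * x i) * star (x i)
        - (∑ i, x i * (E (star (x i) * m j) * star (m j))
          - ∑ i, ∑ l, x i * (E (star (x i) * m j) * E (star (m j) * x l)) * star (x l)) := by
      intro j
      rw [hsv]
      simp only [hv]
      rw [sub_mul, mul_sub, mul_sub, Finset.mul_sum, Finset.sum_mul, Finset.sum_mul]
      simp only [Finset.mul_sum, mul_assoc]
    rw [Finset.sum_congr rfl fun j _ => h2 j]
    rw [Finset.sum_sub_distrib, Finset.sum_sub_distrib, Finset.sum_sub_distrib, hI.index]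
    have h3 : ∑ j, ∑ i, m j * E (star (m j) * x i) * star (x i) = ∑ i, x i * star (x i) := by
      rw [Finset.sum_comm]
      refine Finset.sum_congr rfl fun i _ => ?_
      rw [← Finset.sum_mul, hI.basis]
    have h4 : ∑ j, ∑ i, x i * (E (star (x i) * m j) * star (m j)) = ∑ i, x i * star (x i) := by
      rw [Finset.sum_comm]
      refine Finset.sum_congr rfl fun i _ => ?_
      rw [← Finset.mul_sum, e1]
    have h5 : ∑ j, ∑ i, ∑ l, x i * (E (star (x i) * m j) * E (star (m j) * x l)) * star (x l)
        = ∑ i, x i * star (x i) := by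
      rw [Finset.sum_comm]
      refine Finset.sum_congr rfl fun i _ => ?_
      rw [Finset.sum_comm]
      rw [Finset.sum_eq_single i]
      · rw [← Finset.sum_mul, ← Finset.mul_sum, e2, if_pos rfl, mul_one]
      · intro l _ hl
        rw [← Finset.sum_mul, ← Finset.mul_sum, e2, if_neg hl.symm, mul_zero, zero_mul]
      · intro h
        exact absurd (Finset.mem_univ i) h
    rw [h3, h4, h5, sub_self, sub_zero]
  have e4 : τ (∑ j, v j * star (v j)) = (d : ℂ) - n := by
    rw [e3, map_sub, Algebra.algebraMap_eq_smul_one, map_smul, h1, smul_eq_mul, mul_one, map_sum]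
    congr 1
    rw [Finset.sum_congr rfl fun i _ => (h.tr (x i) (star (x i))).trans
      ((ho i i).trans (if_pos rfl))]
    rw [Finset.sum_const, Finset.card_univ, Fintype.card_fin, nsmul_eq_mul, mul_one]
  have e5 : 0 ≤ (τ (∑ j, v j * star (v j))).re := by
    rw [map_sum, Complex.re_sum]
    refine Finset.sum_nonneg fun j _ => ?_
    have h2 := h.pos (star (v j))
    rwa [star_star] at h2
  rw [e4, Complex.sub_re, Complex.ofReal_re, Complex.natCast_re] at e5
  linarith

/-- the relative commutant is spanned by a finite orthonormal family -/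
theorem IsFinIndex.exists_basis (h : IsState τ) (h1 : τ 1 = 1) (hI : IsFinIndex τ N E m d) :
    ∃ (n : ℕ) (x : Fin n → A), (∀ i, ∀ y ∈ N, y * x i = x i * y) ∧
      ∀ z, (∀ y ∈ N, y * z = z * y) → z = ∑ i, τ (star (x i) * z) • x i := by
  by_contra hcon
  push Not at hcon
  have key : ∀ n : ℕ, ∃ x : Fin n → A, (∀ i, ∀ y ∈ N, y * x i = x i * y) ∧
      ∀ i j, τ (star (x i) * x j) = if i = j then 1 else 0 := by
    intro n
    induction n with
    | zero => exact ⟨fun i => i.elim0, fun i => i.elim0, fun i => i.elim0⟩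
    | succ n ih =>
      obtain ⟨x, hx, ho⟩ := ih
      obtain ⟨z, hz, hne⟩ := hcon n x hx
      set w : A := z - ∑ i, τ (star (x i) * z) • x i with hw
      have hw0 : w ≠ 0 := sub_ne_zero.2 hne
      have hwN : ∀ y ∈ N, y * w = w * y := by
        intro y hy
        rw [hw, mul_sub, sub_mul, hz y hy, Finset.mul_sum, Finset.sum_mul]
        congr 1
        refine Finset.sum_congr rfl fun i _ => ?_
        rw [mul_smul_comm, smul_mul_assoc, hx i y hy]
      have hxw : ∀ i, τ (star (x i) * w) = 0 := by
        intro i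
        rw [hw, mul_sub, map_sub, Finset.mul_sum, map_sum, Finset.sum_eq_single i]
        · rw [mul_smul_comm, map_smul, ho, if_pos rfl, smul_eq_mul, mul_one, sub_self]
        · intro j _ hj
          rw [mul_smul_comm, map_smul, ho, if_neg hj.symm, smul_zero]
        · intro h
          exact absurd (Finset.mem_univ i) h
      have hwx : ∀ i, τ (star w * x i) = 0 := by
        intro i
        have h2 := h.st (star (x i) * w)
        rw [star_mul, star_star, hxw, star_zero] at h2
        exact h2
      set s : ℝ := (τ (star w * w)).re with hs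
      have hsw : τ (star w * w) = (s : ℂ) := h.real w
      have s0 : 0 < s := by
        refine lt_of_le_of_ne (h.pos w) fun h2 => hw0 (h.faith w ?_)
        rw [hsw, ← h2, Complex.ofReal_zero]
      set c : ℂ := (((Real.sqrt s)⁻¹ : ℝ) : ℂ) with hc
      have hcc : star c * c * s = 1 := by
        rw [hc, Complex.star_def, Complex.conj_ofReal, ← Complex.ofReal_mul, ← Complex.ofReal_mul,
          ← mul_inv, Real.mul_self_sqrt s0.le, inv_mul_cancel₀ s0.ne', Complex.ofReal_one]
      refine ⟨Fin.cons (c • w) x, ?_, ?_⟩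
      · intro i
        refine Fin.cases ?_ (fun i => ?_) i
        · intro y hy
          rw [Fin.cons_zero, mul_smul_comm, smul_mul_assoc, hwN y hy]
        · intro y hy
          rw [Fin.cons_succ]
          exact hx i y hy
      · intro i j
        refine Fin.cases ?_ (fun i => ?_) i
        · refine Fin.cases ?_ (fun j => ?_) j
          · rw [Fin.cons_zero, if_pos rfl, star_smul, smul_mul_assoc, mul_smul_comm, map_smul,
              map_smul, hsw, smul_eq_mul, smul_eq_mul, ← mul_assoc, hcc]
          · rw [Fin.cons_zero, Fin.cons_succ, if_neg (Fin.succ_ne_zero j).symm, star_smul,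
              smul_mul_assoc, map_smul, hwx, smul_zero]
        · refine Fin.cases ?_ (fun j => ?_) j
          · rw [Fin.cons_zero, Fin.cons_succ, if_neg (Fin.succ_ne_zero i), mul_smul_comm, map_smul,
              hxw, smul_zero]
          · rw [Fin.cons_succ, Fin.cons_succ, ho]
            simp only [Fin.succ_inj]
  obtain ⟨n, hn⟩ := exists_nat_gt d
  obtain ⟨x, hx, ho⟩ := key n
  exact absurd (hI.card_le h h1 x hx ho) (not_le.2 hn)

theorem IsFinIndex.isIntegral (h : IsState τ) (h1 : τ 1 = 1) (hI : IsFinIndex τ N E m d) {z : A}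
    (hz : ∀ y ∈ N, y * z = z * y) : IsIntegral ℂ z := by
  obtain ⟨n, x, hx, hsp⟩ := hI.exists_basis h h1
  have h2 : Subalgebra.toSubmodule (Subalgebra.centralizer ℂ (N : Set A))
      = Submodule.span ℂ (Set.range x) := by
    refine le_antisymm ?_ ?_
    · intro w hw
      have h3 : ∀ y ∈ N, y * w = w * y := fun y hy => hw y hy
      rw [hsp w h3]
      refine Submodule.sum_mem _ fun i _ => Submodule.smul_mem _ _ ?_
      exact Submodule.subset_span (Set.mem_range_self i)
    · rw [Submodule.span_le]
      rintro w ⟨i, rfl⟩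
      exact fun y hy => hx i y hy
  refine IsIntegral.of_mem_of_fg (Subalgebra.centralizer ℂ (N : Set A)) ?_ z fun y hy => hz y hy
  rw [h2]
  exact Submodule.fg_span (Set.finite_range x)

/-- a non-scalar self-adjoint integral element gives a non-trivial projection -/
theorem exists_proj_of_integral (h : IsState τ) {x : A} (hx : star x = x) (hint : IsIntegral ℂ x)
    (hns : ∀ c : ℂ, x ≠ algebraMap ℂ A c) :
    ∃ (p : A) (g : ℂ[X]), p = aeval x g ∧ p ≠ 0 ∧ p ≠ 1 ∧ p * p = p ∧ star p = p := by
  have hA : Nontrivial A := by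
    refine ⟨x, 0, fun h0 => hns 0 ?_⟩
    rw [h0, map_zero]
  have hdeg : (minpoly ℂ x).degree ≠ 0 := (minpoly.degree_pos hint).ne'
  obtain ⟨r, hr⟩ := IsAlgClosed.exists_root (minpoly ℂ x) hdeg
  obtain ⟨g, hg⟩ := Polynomial.dvd_iff_isRoot.2 hr
  have hgm : g.Monic := by
    have h2 := minpoly.monic hint
    rw [hg] at h2
    exact (Polynomial.monic_X_sub_C r).of_mul_monic_left h2
  set y : A := aeval x g with hy
  have hy0 : y ≠ 0 := by
    intro h0
    have h2 := minpoly.min ℂ x hgm h0
    rw [hg, Polynomial.degree_mul, Polynomial.degree_X_sub_C] at h2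
    have h3 : g.degree ≠ ⊥ := by
      rw [Ne, Polynomial.degree_eq_bot]
      exact hgm.ne_zero
    rw [Polynomial.degree_eq_natDegree hgm.ne_zero] at h2
    have h4 : (1 + g.natDegree : ℕ) ≤ g.natDegree := by exact_mod_cast h2
    omega
  have hxy : (x - algebraMap ℂ A r) * y = 0 := by
    have h2 := minpoly.aeval ℂ x
    rw [hg, map_mul, map_sub, aeval_X, aeval_C] at h2
    exact h2
  have hev : ∀ q : ℂ[X], aeval x q * y = q.eval r • y := by
    intro q
    obtain ⟨q', hq'⟩ := Polynomial.X_sub_C_dvd_sub_C_eval (a := r) (p := q)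
    have h2 : q = C (q.eval r) + q' * (X - C r) := by
      rw [mul_comm q', ← hq']
      ring
    conv_lhs => rw [h2]
    rw [map_add, map_mul, map_sub, aeval_X, aeval_C, aeval_C, add_mul, mul_assoc, hxy, mul_zero,
      add_zero, Algebra.algebraMap_eq_smul_one, smul_mul_assoc, one_mul]
  -- the adjoint of `y` is a polynomial of `x`
  obtain ⟨g', hg'⟩ : ∃ g' : ℂ[X], star y = aeval x g' := by
    refine ⟨∑ i ∈ Finset.range (g.natDegree + 1), C (star (g.coeff i)) * X ^ i, ?_⟩
    rw [hy, Polynomial.aeval_eq_sum_range, star_sum, map_sum]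
    refine Finset.sum_congr rfl fun i _ => ?_
    rw [star_smul, star_pow, hx, map_mul, map_pow, aeval_X, aeval_C,
      Algebra.algebraMap_eq_smul_one, smul_mul_assoc, one_mul]
  set c : ℂ := g'.eval r with hc
  have hyy : star y * y = c • y := by rw [hg', hev]
  have hc0 : c ≠ 0 := by
    intro h0
    rw [h0, zero_smul] at hyy
    exact hy0 (h.faith y (by rw [hyy, map_zero]))
  set p : A := (star c)⁻¹ • y with hp
  have hpp : star p * p = p := by
    rw [hp, star_smul, smul_mul_assoc, mul_smul_comm, hyy, smul_smul, smul_smul]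
    congr 1
    rw [star_inv₀, star_star, mul_comm c⁻¹, mul_assoc, inv_mul_cancel₀ hc0, mul_one]
  have hps : star p = p := by
    have h2 := congrArg star hpp
    rw [star_mul, star_star, hpp] at h2
    exact h2.symm
  have hsc : (star c)⁻¹ ≠ 0 := inv_ne_zero (star_ne_zero.2 hc0)
  refine ⟨p, C ((star c)⁻¹) * g, ?_, ?_, ?_, ?_, hps⟩
  · rw [map_mul, aeval_C, Algebra.algebraMap_eq_smul_one, smul_mul_assoc, one_mul]
  · exact smul_ne_zero hsc hy0
  · intro h2
    have h3 : y = algebraMap ℂ A (star c) := by
      rw [Algebra.algebraMap_eq_smul_one, ← h2, hp, smul_smul,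
        mul_inv_cancel₀ (star_ne_zero.2 hc0), one_smul]
    rw [h3, Algebra.algebraMap_eq_smul_one (star c), mul_smul_comm, mul_one] at hxy
    have h4 := (smul_eq_zero.1 hxy).resolve_left (star_ne_zero.2 hc0)
    exact hns r (sub_eq_zero.1 h4)
  · nth_rw 1 [← hps]
    exact hpp

/-- a non-scalar element of the relative commutant gives a non-trivial projection there -/
theorem IsFinIndex.exists_proj (h : IsState τ) (h1 : τ 1 = 1) (hI : IsFinIndex τ N E m d) {z : A}
    (hz : ∀ y ∈ N, y * z = z * y) (hns : ∀ c : ℂ, z ≠ algebraMap ℂ A c) :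
    ∃ p : A, p ≠ 0 ∧ p ≠ 1 ∧ p * p = p ∧ star p = p ∧ ∀ y ∈ N, y * p = p * y := by
  have hzs : ∀ y ∈ N, y * star z = star z * y := by
    intro y hy
    have h2 := congrArg star (hz (star y) (star_mem hy))
    rw [star_mul, star_mul, star_star] at h2
    exact h2.symm
  obtain ⟨x, hxs, hxN, hxn⟩ : ∃ x : A, star x = x ∧ (∀ y ∈ N, y * x = x * y) ∧
      ∀ c : ℂ, x ≠ algebraMap ℂ A c := by
    by_contra hcon
    push Not at hcon
    obtain ⟨a, ha⟩ := hcon (z + star z) (by rw [star_add, star_star, add_comm]) (by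
      intro y hy
      rw [mul_add, add_mul, hz y hy, hzs y hy])
    obtain ⟨b, hb⟩ := hcon (Complex.I • (z - star z)) (by
        rw [star_smul, star_sub, star_star, Complex.star_def, Complex.conj_I, neg_smul,
          ← smul_neg, neg_sub]) (by
      intro y hy
      rw [mul_smul_comm, smul_mul_assoc, mul_sub, sub_mul, hz y hy, hzs y hy])
    refine hns ((1 / 2) * a + (1 / 2) * (-Complex.I * b)) ?_
    have h2 : Complex.I * (1 / 2 * -Complex.I) = (1 / 2 : ℂ) := by
      have h3 := Complex.I_mul_I
      linear_combination (-1 / 2 : ℂ) * h3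
    have h3 : algebraMap ℂ A ((1 / 2) * a + (1 / 2) * (-Complex.I * b))
        = (1 / 2 : ℂ) • algebraMap ℂ A a + (1 / 2 * -Complex.I : ℂ) • algebraMap ℂ A b := by
      rw [← mul_assoc]
      simp only [Algebra.algebraMap_eq_smul_one, smul_smul, add_smul]
    rw [h3, ← ha, ← hb, smul_smul, mul_comm _ Complex.I, h2, ← smul_add, add_add_sub_cancel,
      ← two_smul ℂ z, smul_smul]
    norm_num
  obtain ⟨p, g, hpg, hp0, hp1, hpp, hps⟩ := exists_proj_of_integral h hxs (hI.isIntegral h h1 hxN)
    hxn
  refine ⟨p, hp0, hp1, hpp, hps, fun y hy => ?_⟩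
  rw [hpg]
  have h2 : Algebra.adjoin ℂ {x} ≤ Subalgebra.centralizer ℂ {y} := by
    refine Algebra.adjoin_le ?_
    rintro w rfl
    intro v hv
    rw [Set.mem_singleton_iff.1 hv]
    exact hxN y hy
  exact h2 (Polynomial.aeval_mem_adjoin_singleton ℂ x) y rfl

end Pool.Agent.MUF
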