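import Pool.Agent.MUF.Main
import Pool.Agent.MUF.Proj

/-!
# MUF: reduction to irreducible subfactors

MP_a83bb2_an (helper13).
-/

set_option autoImplicit false

open Filter Topology
open scoped Matrix Matrix.Norms.L2Operator

noncomputable section

namespace Pool.Agent.MUF

variable {U : Ultrafilter ℕ}

/-- a non-zero projection which commutes with `N` -/
def IsPart (N : StarSubalgebra ℂ (MU U)) (p : MU U) : Prop :=
  p ≠ 0 ∧ p * p = p ∧ star p = p ∧ ∀ y ∈ N, y * p = p * y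

/-- a partition of 1 of length `l` with `S ≤ ∑ 1 / τ(p_i)` -/
def Fam (N : StarSubalgebra ℂ (MU U)) (S : ℝ) (l : ℕ) : Prop :=
  ∃ p : Fin l → MU U, (∀ i, IsPart N (p i)) ∧ ∑ i, p i = 1 ∧ S ≤ ∑ i, 1 / (tau U (p i)).re

theorem IsPart.pos {N : StarSubalgebra ℂ (MU U)} {p : MU U} (h : IsPart N p) :
    0 < (tau U p).re := tau_proj_pos h.1 h.2.1 h.2.2.1

theorem fam_of_nonscalar (hU : (U : Filter ℕ) ≤ cofinite) {N : StarSubalgebra ℂ (MU U)}
    {E : MU U →ₗ[ℂ] MU U} {ι : Type} [Fintype ι] {m : ι → MU U} {d : ℝ}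
    (hI : IsFinIndex (tau U) N E m d) {z : MU U} (hz : ∀ y ∈ N, y * z = z * y)
    (hns : ∀ c : ℂ, z ≠ algebraMap ℂ (MU U) c) {S : ℝ} (hS : S ≤ 4) : Fam N S 2 := by
  obtain ⟨p, hp0, hp1, hpp, hps, hpN⟩ := hI.exists_proj isState_tau (tau_one hU) hz hns
  have hp : IsPart N p := ⟨hp0, hpp, hps, hpN⟩
  have hq : IsPart N (1 - p) := by
    refine ⟨sub_ne_zero.2 hp1.symm, ?_, by rw [star_sub, star_one, hps], fun y hy => ?_⟩
    · rw [sub_mul, one_mul, mul_sub, mul_one, hpp, sub_self, sub_zero]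
    · rw [mul_sub, sub_mul, mul_one, one_mul, hpN y hy]
  refine ⟨![p, 1 - p], ?_, ?_, ?_⟩
  · intro i
    fin_cases i
    · exact hp
    · exact hq
  · rw [Fin.sum_univ_two]
    show p + (1 - p) = 1
    abel
  · rw [Fin.sum_univ_two]
    show S ≤ 1 / (tau U p).re + 1 / (tau U (1 - p)).re
    have t0 := hp.pos
    have s0 := hq.pos
    have hst : (tau U (1 - p)).re = 1 - (tau U p).re := by
      rw [map_sub, tau_one hU, Complex.sub_re, Complex.one_re]
    rw [hst] at s0 ⊢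
    set t := (tau U p).re with ht
    have h1 : 1 / t + 1 / (1 - t) = 1 / (t * (1 - t)) := by
      field_simp
      ring
    have h2 : 4 ≤ 1 / (t * (1 - t)) := by
      rw [le_div_iff₀ (mul_pos t0 s0)]
      nlinarith [sq_nonneg (1 - 2 * t)]
    rw [h1]
    linarith

/-- splitting a member of the partition -/
theorem fam_split {N : StarSubalgebra ℂ (MU U)} {S : ℝ} {l : ℕ} {p : Fin l → MU U}
    (hp : ∀ i, IsPart N (p i)) (hsum : ∑ i, p i = 1) (hS : S ≤ ∑ i, 1 / (tau U (p i)).re)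
    (i : Fin l) {q₁ q₂ : MU U} (hq : q₁ + q₂ = p i) (h1 : IsPart N q₁) (h2 : IsPart N q₂) :
    Fam N S (l + 1) := by
  have hti : (tau U (p i)).re = (tau U q₁).re + (tau U q₂).re := by
    rw [← hq, map_add, Complex.add_re]
  refine ⟨Fin.cons q₂ (Function.update p i q₁), ?_, ?_, ?_⟩
  · intro j
    refine Fin.cases ?_ (fun j => ?_) j
    · rw [Fin.cons_zero]
      exact h2
    · rw [Fin.cons_succ]
      by_cases hj : j = i
      · subst hj
        rw [Function.update_self]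
        exact h1
      · rw [Function.update_of_ne hj]
        exact hp j
  · rw [Fin.sum_univ_succ, Fin.cons_zero]
    simp only [Fin.cons_succ]
    rw [Finset.sum_update_of_mem (Finset.mem_univ i), ← add_assoc, add_comm q₂ q₁, hq, ← hsum,
      Finset.sdiff_singleton_eq_erase, Finset.add_sum_erase _ _ (Finset.mem_univ i)]
  · rw [Fin.sum_univ_succ, Fin.cons_zero]
    simp only [Fin.cons_succ]
    have h3 : ∑ j, 1 / (tau U (Function.update p i q₁ j)).re
        = 1 / (tau U q₁).re + ∑ j ∈ Finset.univ.erase i, 1 / (tau U (p j)).re := by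
      rw [← Finset.add_sum_erase _ _ (Finset.mem_univ i), Function.update_self]
      congr 1
      refine Finset.sum_congr rfl fun j hj => ?_
      rw [Function.update_of_ne (Finset.ne_of_mem_erase hj)]
    rw [← Finset.add_sum_erase _ _ (Finset.mem_univ i)] at hS
    rw [h3]
    have h4 : 1 / (tau U (p i)).re ≤ 1 / (tau U q₁).re := by
      refine one_div_le_one_div_of_le h1.pos ?_
      rw [hti]
      linarith [h2.pos]
    have h5 : 0 < 1 / (tau U q₂).re := one_div_pos.2 h2.pos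
    linarith

theorem reduce_step (hU : (U : Filter ℕ) ≤ cofinite) {N : StarSubalgebra ℂ (MU U)}
    {E : MU U →ₗ[ℂ] MU U} {k : ℕ} {m : Fin k → MU U} {d : ℝ}
    (hI : IsFinIndex (tau U) N E m d) {S : ℝ} (hS : ∃ l, Fam N S l) :
    ∃ (t : ℝ) (N₁ : StarSubalgebra ℂ (MU (U.map (fl t))))
      (E₁ : MU (U.map (fl t)) →ₗ[ℂ] MU (U.map (fl t))) (m₁ : Fin k → MU (U.map (fl t))) (δ : ℝ),
      0 < t ∧ IsFinIndex (tau (U.map (fl t))) N₁ E₁ m₁ δ ∧
      (∃ f : N ≃⋆ₐ[ℂ] N₁, ∀ y, tau (U.map (fl t)) (f y : MU (U.map (fl t)))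
        = tau U (y : MU U)) ∧
      (∀ z, (∀ y ∈ N₁, y * z = z * y) → ∃ c : ℂ, z = algebraMap ℂ (MU (U.map (fl t))) c) ∧
      δ * S ≤ d ∧ (2 ≤ δ ∨ δ = 1 ∧ N₁ = ⊤) := by
  -- the data of the local inclusions
  have hcex : ∀ p : MU U, IsPart N p → ∃ c : ℝ,
      ∑ j, m j * p * star (m j) = algebraMap ℂ (MU U) c := fun p hp =>
    hI.exists_c isState_tau (tau_one hU) centre hp.2.1 hp.2.2.1 hp.2.2.2
  have hge : ∀ (p : MU U) (_ : IsPart N p) (c : ℝ),
      ∑ j, m j * p * star (m j) = algebraMap ℂ (MU U) c → 1 ≤ (tau U p).re * c := by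
    intro p hp c hc
    obtain ⟨N₁, E₁, m₁, hI₁, -, -⟩ := local_iso hU hI hp.1 hp.2.1 hp.2.2.1 hp.2.2.2 rfl hc
    by_contra hcon
    push Not at hcon
    have h1 := hI₁.gap isState_tau (tau_one (tendsto_fl hp.pos hU)) (by linarith)
    linarith [h1.1]
  have hbound : ∀ l, Fam N S l → (l : ℝ) ≤ d := by
    rintro l ⟨p, hp, hsum, -⟩
    choose c hc using fun i => hcex (p i) (hp i)
    rw [← hI.sum_c (tau_one hU) hsum hc]
    have h1 : ∀ i, 1 ≤ c i := by
      intro i
      have h2 := hge (p i) (hp i) (c i) (hc i)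
      have h3 := (hp i).pos
      have h4 := tau_proj_le hU (hp i).2.1 (hp i).2.2.1
      have h5 : 0 < c i := by
        by_contra hcon
        push Not at hcon
        nlinarith
      nlinarith
    calc (l : ℝ) = ∑ _i : Fin l, (1 : ℝ) := by
          rw [Finset.sum_const, Finset.card_univ, Fintype.card_fin, nsmul_eq_mul, mul_one]
      _ ≤ ∑ i, c i := Finset.sum_le_sum fun i _ => h1 i
  -- a partition of maximal length
  obtain ⟨l, hl, hmax⟩ : ∃ l, Fam N S l ∧ ∀ l', Fam N S l' → l' ≤ l := by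
    have hb : BddAbove {l | Fam N S l} :=
      ⟨⌊d⌋₊, fun l hl => Nat.le_floor (hbound l hl)⟩
    exact ⟨sSup {l | Fam N S l}, Nat.sSup_mem hS hb, fun l' hl' => le_csSup hb hl'⟩
  obtain ⟨p, hp, hsum, hSl⟩ := hl
  choose c hc using fun i => hcex (p i) (hp i)
  have hne : Nonempty (Fin l) := by
    by_contra hcon
    rw [not_nonempty_iff] at hcon
    have h1 := congrArg (tau U) hsum
    rw [Finset.univ_eq_empty, Finset.sum_empty, map_zero, tau_one hU] at h1
    exact zero_ne_one h1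
  obtain ⟨i, hi⟩ := Finite.exists_min fun i => (tau U (p i)).re * c i
  obtain ⟨N₁, E₁, m₁, hI₁, hiso, hq⟩ := local_iso hU hI (hp i).1 (hp i).2.1 (hp i).2.2.1
    (hp i).2.2.2 rfl (hc i)
  have hVn := tendsto_fl (hp i).pos hU
  set δ : ℝ := (tau U (p i)).re * c i with hδ
  have hgap : 2 ≤ δ ∨ δ = 1 ∧ N₁ = ⊤ := by
    rcases le_or_gt 2 δ with h | h
    · exact Or.inl h
    · exact Or.inr (hI₁.gap isState_tau (tau_one hVn) h)
  have δ0 : 0 < δ := by
    rcases hgap with h | h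
    · linarith
    · rw [h.1]
      exact zero_lt_one
  refine ⟨_, N₁, E₁, m₁, δ, (hp i).pos, hI₁, hiso, ?_, ?_, hgap⟩
  · intro z hz
    by_contra hcon
    push Not at hcon
    obtain ⟨q, hq0, hq1, hqq, hqs, hqN⟩ := hI₁.exists_proj isState_tau (tau_one hVn) hz hcon
    obtain ⟨q₁, q₂, hqp, h1, h2⟩ := hq q hqq hqs hq0 hq1 hqN
    have h3 := hmax _ (fam_split hp hsum hSl i hqp h1 h2)
    omega
  · have h1 : ∑ j, δ * (1 / (tau U (p j)).re) ≤ ∑ j, c j := by
      refine Finset.sum_le_sum fun j _ => ?_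
      have h2 := hi j
      have h3 := (hp j).pos
      rw [mul_one_div, div_le_iff₀ h3, mul_comm (c j)]
      exact h2
    rw [hI.sum_c (tau_one hU) hsum hc, ← Finset.mul_sum] at h1
    exact (mul_le_mul_of_nonneg_left hSl δ0.le).trans h1

end Pool.Agent.MUF
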