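import Pool.Agent.MUF.Stmt
import Pool.Agent.MUF.Reduce

/-!
# MUF: chains of finite index subfactors

MP_a83bb2_an (helper13).
-/

set_option autoImplicit false

open Filter Topology
open scoped Matrix Matrix.Norms.L2Operator

noncomputable section

namespace Pool.Agent.MUF

variable {U : Ultrafilter ℕ}

theorem transport {V : Ultrafilter ℕ} (hVn : (V : Filter ℕ) ≤ cofinite)
    {N P : StarSubalgebra ℂ (MU U)} {d : ℝ} (hI : IsIndex (U := U) N P d) (f : P ≃⋆ₐ[ℂ] MU V)
    (hf : ∀ y : P, tau V (f y) = tau U (y : MU U)) :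
    ∃ (N' : StarSubalgebra ℂ (MU V)) (k : ℕ) (E' : MU V →ₗ[ℂ] MU V) (m' : Fin k → MU V),
      IsFinIndex (tau V) N' E' m' d ∧
      (∃ h : N ≃⋆ₐ[ℂ] N', ∀ y, tau V (h y : MU V) = tau U (y : MU U)) ∧
      ∀ S, Parts (U := U) N P S → ∃ l, Fam N' S l := by
  obtain ⟨hle, hfac, E, k, m, ⟨hEN, hEid, hEl, hEr, hEtr⟩, ⟨hmP, hbas, hind⟩⟩ := hI
  replace hle : N ≤ P := hle
  replace hEN : ∀ x ∈ P, E x ∈ N := hEN
  replace hmP : ∀ j, m j ∈ P := hmP
  -- the embedding of `M^V` in `M^U` with range `P`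
  let g : MU V →⋆ₐ[ℂ] MU U := P.subtype.comp (f.symm : MU V →⋆ₐ[ℂ] P)
  have gP : ∀ z, g z ∈ P := fun z => (f.symm z).2
  have ginj : Function.Injective g := Subtype.val_injective.comp f.symm.injective
  have gf : ∀ x : P, g (f x) = x := fun x => congrArg Subtype.val (f.symm_apply_apply x)
  have fg : ∀ z, f ⟨g z, gP z⟩ = z := fun z => f.apply_symm_apply z
  have gtr : ∀ z, tau U (g z) = tau V z := by
    intro z
    have h1 := hf ⟨g z, gP z⟩
    rw [fg] at h1
    exact h1.symm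
  let N' : StarSubalgebra ℂ (MU V) := N.comap g
  have memN' : ∀ z, z ∈ N' ↔ g z ∈ N := fun z => Iff.rfl
  let e : MU V → MU V := fun z => f ⟨E (g z), hle (hEN _ (gP z))⟩
  have ge : ∀ z, g (e z) = E (g z) := fun z => gf _
  have eN : ∀ z, e z ∈ N' := by
    intro z
    rw [memN', ge]
    exact hEN _ (gP z)
  have er : ∀ z, ∀ y ∈ N', e (z * y) = e z * y := by
    intro z y hy
    refine ginj ?_
    rw [ge, map_mul g, map_mul g, ge]
    exact hEr (g z) (g y) (gP z) hy
  have et : ∀ z, tau V (e z) = tau V z := by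
    intro z
    rw [← gtr, ← gtr, ge]
    exact (hEtr (g z) _ (gP z) (isTrace_tau _)).eq
  have eadd : ∀ z w, e (z + w) = e z + e w := by
    intro z w
    rw [← sub_eq_zero]
    refine eq_zero_of_orth isState_tau (sub_mem (eN _) (add_mem (eN _) (eN _))) fun b hb => ?_
    rw [sub_mul, add_mul, ← er _ b hb, ← er _ b hb, ← er _ b hb, map_sub, map_add, et, et, et,
      add_mul, map_add, sub_self]
  have esmul : ∀ (c : ℂ) z, e (c • z) = c • e z := by
    intro c z
    rw [← sub_eq_zero]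
    refine eq_zero_of_orth isState_tau (sub_mem (eN _) (N'.smul_mem (eN _) c)) fun b hb => ?_
    rw [sub_mul, smul_mul_assoc, ← er _ b hb, ← er _ b hb, map_sub, map_smul, et, et,
      smul_mul_assoc, map_smul, sub_self]
  let E' : MU V →ₗ[ℂ] MU V := { toFun := e, map_add' := eadd, map_smul' := esmul }
  have gE : ∀ z, g (E' z) = E (g z) := ge
  let m' : Fin k → MU V := fun j => f ⟨m j, hmP j⟩
  have gm : ∀ j, g (m' j) = m j := fun j => gf _
  have hI' : IsFinIndex (tau V) N' E' m' d := by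
    refine ⟨?_, eN, ?_, ?_, fun y hy z => er z y hy, et, ?_, ?_⟩
    · intro z hz hc
      obtain ⟨c, hc'⟩ := hfac (g z) hz (by
        intro y hy
        have h1 : g (f ⟨y, hle hy⟩) = y := gf _
        have h2 := congrArg g (hc (f ⟨y, hle hy⟩) (by rw [memN', h1]; exact hy))
        rw [map_mul, map_mul, h1] at h2
        exact h2.symm)
      refine ⟨c, ginj ?_⟩
      rw [hc', AlgHomClass.commutes]
    · intro z hz
      refine ginj ?_
      rw [gE]
      exact hEid _ hz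
    · intro y hy z
      refine ginj ?_
      rw [gE, map_mul g, map_mul g, gE]
      exact hEl (g z) (g y) (gP z) hy
    · intro z
      refine ginj ?_
      rw [map_sum]
      refine Eq.trans ?_ (hbas (g z) (gP z))
      refine Finset.sum_congr rfl fun j _ => ?_
      rw [map_mul, gE, map_mul, map_star, gm]
    · refine ginj ?_
      rw [map_sum, AlgHomClass.commutes, ← hind]
      refine Finset.sum_congr rfl fun j _ => ?_
      rw [map_mul, map_star, gm]
  have hmem : ∀ y : N, f ⟨(y : MU U), hle y.2⟩ ∈ N' := by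
    intro y
    rw [memN', gf]
    exact y.2
  let k1 : N →⋆ₐ[ℂ] N' := StarAlgHom.codRestrict
    ((f : P →⋆ₐ[ℂ] MU V).comp (StarSubalgebra.inclusion hle)) N' hmem
  have hk1 : ∀ y : N, ((k1 y : N') : MU V) = f ⟨(y : MU U), hle y.2⟩ := fun y => rfl
  have hbij : Function.Bijective k1 := by
    constructor
    · intro x y hxy
      have h1 := congrArg (fun w : N' => g (w : MU V)) hxy
      simp only [hk1, gf] at h1
      exact Subtype.ext h1
    · intro w
      refine ⟨⟨g (w : MU V), w.2⟩, Subtype.ext ?_⟩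
      rw [hk1]
      exact fg _
  refine ⟨N', k, E', m', hI', ⟨StarAlgEquiv.ofBijective k1 hbij, ?_⟩, ?_⟩
  · intro y
    show tau V ((k1 y : N') : MU V) = _
    rw [hk1, hf]
  · rintro S (⟨hS, z, hzP, hz, hns⟩ | ⟨l, p, t, hp, hsum, hS⟩)
    · replace hzP : z ∈ P := hzP
      refine ⟨2, fam_of_nonscalar hVn hI' (z := f ⟨z, hzP⟩) ?_ ?_ hS⟩
      · intro y hy
        refine ginj ?_
        rw [map_mul, map_mul, gf]
        exact hz _ hy
      · intro c hc
        refine hns ⟨c, ?_⟩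
        have h1 := congrArg g hc
        rw [gf, AlgHomClass.commutes] at h1
        exact h1
    · have hpP : ∀ i, p i ∈ P := fun i => (hp i).1.1
      have hq : ∀ i, g (f ⟨p i, hpP i⟩) = p i := fun i => gf _
      refine ⟨l, fun i => f ⟨p i, hpP i⟩, ?_, ?_, ?_⟩
      · intro i
        obtain ⟨⟨h0, h4, h1, h2, h3⟩, h5⟩ := hp i
        refine ⟨?_, ?_, ?_, ?_⟩
        · intro h6
          have h7 := congrArg g h6
          rw [gf, map_zero] at h7
          exact h1 h7
        · refine ginj ?_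
          rw [map_mul, gf]
          exact h2
        · refine ginj ?_
          rw [map_star, gf]
          exact h3
        · intro y hy
          refine ginj ?_
          rw [map_mul, map_mul, gf]
          exact h4 _ hy
      · refine ginj ?_
        rw [map_sum, map_one, ← hsum]
        exact Finset.sum_congr rfl fun i _ => hq i
      · have h1 : ∀ i, (tau V (f ⟨p i, hpP i⟩)).re = t i := by
          intro i
          rw [← gtr, hq, (hp i).2.eq, Complex.ofReal_re]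
        simp only [h1]
        exact hS

theorem IsFinIndex.isIndex {N : StarSubalgebra ℂ (MU U)} {k : ℕ} {E : MU U →ₗ[ℂ] MU U}
    {m : Fin k → MU U} {d : ℝ} (hI : IsFinIndex (tau U) N E m d) :
    IsIndex (U := U) N (full U) d where
  le := fun _ _ => trivial
  factor := fun z hz hc => hI.factor z hz fun y hy => (hc y hy).symm
  basis := ⟨E, k, m, ⟨fun x _ => hI.range x, hI.id_on, fun x y _ hy => hI.left y hy x,
    fun x y _ hy => hI.right y hy x, fun x t _ ht => by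
      have h1 := isTrace_tau (E x)
      rw [hI.tr, ht.eq] at h1
      exact h1⟩, ⟨fun _ => trivial, fun x _ => hI.basis x, hI.index⟩⟩

/-- `P` is isomorphic to a matrix ultraproduct -/
def Good (U : Ultrafilter ℕ) (P : StarSubalgebra ℂ (MU U)) : Prop :=
  ∃ (V : Ultrafilter ℕ) (φ : ℕ → ℕ), V = U.map φ ∧ (∃ S ∈ U, Set.InjOn φ S) ∧
      (V : Filter ℕ) ≤ cofinite ∧ ∃ f : P ≃⋆ₐ[ℂ] MU V, ∀ y : P, tau V (f y) = tau U (y : MU U)

theorem step_of_good {N P : StarSubalgebra ℂ (MU U)} {d S : ℝ} (hP : Good U P)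
    (hN : IsIndex (U := U) N P d) (hS : Parts (U := U) N P S) :
    ∃ (V : Ultrafilter ℕ) (φ : ℕ → ℕ) (N₁ : StarSubalgebra ℂ (MU V)) (δ : ℝ),
      V = U.map φ ∧ (∃ T ∈ U, Set.InjOn φ T) ∧ (V : Filter ℕ) ≤ cofinite ∧
      (∃ f : N ≃⋆ₐ[ℂ] N₁, ∀ y, tau V (f y : MU V) = tau U (y : MU U)) ∧
      IsIndex (U := V) N₁ (full V) δ ∧
      (∀ z, (∀ y ∈ N₁, y * z = z * y) → ∃ c : ℂ, z = algebraMap ℂ (MU V) c) ∧
      δ * S ≤ d ∧ (2 ≤ δ ∨ δ = 1 ∧ N₁ = ⊤) := by
  obtain ⟨V, φ, hV, ⟨T, hT, hTφ⟩, hVn, f, hf⟩ := hP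
  obtain ⟨N', k, E', m', hI', ⟨h, hh⟩, hfam⟩ := transport hVn hN f hf
  obtain ⟨t, N₁, E₁, m₁, δ, t0, hI₁, ⟨f₁, hf₁⟩, hirr, hδ, hgap⟩ :=
    reduce_step hVn hI' (hfam S hS)
  refine ⟨V.map (fl t), fl t ∘ φ, N₁, δ, ?_, ?_, tendsto_fl t0 hVn,
    ⟨h.trans f₁, fun y => ?_⟩, hI₁.isIndex, hirr, hδ, hgap⟩
  · rw [hV, Ultrafilter.map_map]
  · obtain ⟨T', hT', hT'inj⟩ := exists_injOn t0 V
    rw [hV, Ultrafilter.mem_map] at hT'
    refine ⟨T ∩ φ ⁻¹' T', inter_mem hT hT', ?_⟩
    intro a ha b hb hab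
    exact hTφ ha.1 hb.1 (hT'inj ha.2 hb.2 hab)
  · rw [← hh]
    exact hf₁ (h y)

theorem index_nonneg {N P : StarSubalgebra ℂ (MU U)} {d : ℝ} (hU : (U : Filter ℕ) ≤ cofinite)
    (hN : IsIndex (U := U) N P d) : 0 ≤ d := by
  obtain ⟨-, -, E, k, m, -, ⟨-, -, hind⟩⟩ := hN
  have h1 := congrArg Complex.re (congrArg (tau U) hind)
  rw [Algebra.algebraMap_eq_smul_one, map_smul, tau_one hU, smul_eq_mul, mul_one,
    Complex.ofReal_re, map_sum, Complex.re_sum] at h1
  rw [← h1]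
  refine Finset.sum_nonneg fun j _ => ?_
  have h2 := (isState_tau (U := U)).pos (star (m j))
  rwa [star_star] at h2

theorem chain_good (hU : (U : Filter ℕ) ≤ cofinite) {N : Sub U}
    (hN : Chain U N) : Good U N := by
  induction hN with
  | top =>
    exact ⟨U, id, (Ultrafilter.map_id U).symm, ⟨Set.univ, univ_mem, Function.injective_id.injOn⟩,
      hU, StarAlgEquiv.ofBijective (StarSubalgebra.subtype ⊤) ⟨Subtype.val_injective,
        fun x => ⟨⟨x, trivial⟩, rfl⟩⟩, fun y => rfl⟩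
  | step N P d S _ hI hs hd ih =>
    obtain ⟨V, φ, N₁, δ, hV, hφ, hVn, ⟨f, hf⟩, -, -, hδ, hgap⟩ := step_of_good ih hI hs
    have hd0 := index_nonneg hU hI
    have h1 : N₁ = ⊤ := by
      rcases hgap with h | h
      · exfalso
        have hS0 : 0 < S := by linarith
        nlinarith
      · exact h.2
    subst h1
    refine ⟨V, φ, hV, hφ, hVn, f.trans (StarAlgEquiv.ofBijective (StarSubalgebra.subtype ⊤)
      ⟨Subtype.val_injective, fun x => ⟨⟨x, trivial⟩, rfl⟩⟩), fun y => hf y⟩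

/-- from a *-isomorphism of types to `IsIso` -/
theorem isIso_of_equiv {V : Ultrafilter ℕ} {N : StarSubalgebra ℂ (MU U)}
    {N₁ : StarSubalgebra ℂ (MU V)} (f : N ≃⋆ₐ[ℂ] N₁)
    (hf : ∀ y, tau V (f y : MU V) = tau U (y : MU U)) :
    ∃ g : MU U → MU V, IsIso (U := U) (V := V) N N₁ g := by
  classical
  let g : MU U → MU V := fun x => if h : x ∈ N then (f ⟨x, h⟩ : MU V) else 0
  have hg : ∀ (x : MU U) (h : x ∈ N), g x = f ⟨x, h⟩ := fun x h => dif_pos h
  refine ⟨g, ⟨⟨?_, ?_, ?_⟩, ?_, ?_, ?_, ?_, ?_⟩⟩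
  · intro x hx
    show g x ∈ N₁
    rw [hg x hx]
    exact (f ⟨x, hx⟩).2
  · intro x hx y hy hxy
    rw [hg x hx, hg y hy] at hxy
    exact congrArg Subtype.val (f.injective (Subtype.ext hxy))
  · intro z hz
    refine ⟨(f.symm ⟨z, hz⟩ : MU U), (f.symm ⟨z, hz⟩).2, ?_⟩
    rw [hg _ (f.symm ⟨z, hz⟩).2]
    exact congrArg Subtype.val (f.apply_symm_apply ⟨z, hz⟩)
  · intro x y hx hy
    rw [hg x hx, hg y hy, hg (x + y) (add_mem hx hy)]
    exact congrArg Subtype.val (map_add f ⟨x, hx⟩ ⟨y, hy⟩)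
  · intro x y hx hy
    rw [hg x hx, hg y hy, hg (x * y) (mul_mem hx hy)]
    exact congrArg Subtype.val (map_mul f ⟨x, hx⟩ ⟨y, hy⟩)
  · intro c x hx
    rw [hg x hx, hg (c • x) (N.smul_mem hx c)]
    exact congrArg Subtype.val (map_smul f c ⟨x, hx⟩)
  · intro x hx
    rw [hg x hx, hg (star x) (star_mem hx)]
    exact congrArg Subtype.val (map_star f ⟨x, hx⟩)
  · intro x t hx ht
    rw [hg x hx]
    have h5 := isTrace_tau (f ⟨x, hx⟩ : MU V)
    rw [hf, ht.eq] at h5
    exact h5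

end Pool.Agent.MUF
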