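import Pool.Agent.MUF.Lift

/-!
# MUF: corners of the matrix ultraproduct are matrix ultraproducts

MP_a83bb2_an (helper13).
-/

set_option autoImplicit false

open Filter Topology
open scoped Matrix Matrix.Norms.L2Operator

noncomputable section

namespace Pool.Agent.MUF

theorem nsq_conj {n r : ℕ} {v : Matrix (Fin r) (Fin n) ℂ} (hv : v * vᴴ = 1)
    (z : Matrix (Fin r) (Fin r) ℂ) : nsq (vᴴ * z * v) = (r : ℝ) / n * nsq z := by
  have h1 : (vᴴ * z * v)ᴴ * (vᴴ * z * v) = vᴴ * (zᴴ * z) * v := by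
    rw [Matrix.conjTranspose_mul, Matrix.conjTranspose_mul, Matrix.conjTranspose_conjTranspose]
    calc vᴴ * (zᴴ * v) * (vᴴ * z * v) = vᴴ * zᴴ * (v * vᴴ) * z * v := by
          simp only [Matrix.mul_assoc]
      _ = vᴴ * (zᴴ * z) * v := by rw [hv, Matrix.mul_one]; simp only [Matrix.mul_assoc]
  have h2 : (vᴴ * (zᴴ * z) * v).trace = (zᴴ * z).trace := by
    rw [Matrix.trace_mul_comm, ← Matrix.mul_assoc, hv, Matrix.one_mul]
  unfold nsq
  rw [h1, h2]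
  rcases Nat.eq_zero_or_pos r with h0 | h0
  · subst h0
    simp
  · have h3 : (r : ℝ) ≠ 0 := by exact_mod_cast h0.ne'
    rw [div_mul_div_comm, mul_comm (n : ℝ), mul_div_mul_left _ _ h3]

theorem norm_conj_le {n r : ℕ} {v : Matrix (Fin r) (Fin n) ℂ} (hv : v * vᴴ = 1)
    (z : Matrix (Fin r) (Fin r) ℂ) : ‖vᴴ * z * v‖ ≤ ‖z‖ := by
  have h1 := norm_coiso hv
  have h2 : ‖vᴴ‖ ≤ 1 := by rwa [Matrix.l2_opNorm_conjTranspose]
  calc ‖vᴴ * z * v‖ ≤ ‖vᴴ * z‖ * ‖v‖ := Matrix.l2_opNorm_mul _ _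
    _ ≤ ‖vᴴ * z‖ * 1 := mul_le_mul_of_nonneg_left h1 (norm_nonneg _)
    _ = ‖vᴴ * z‖ := mul_one _
    _ ≤ ‖vᴴ‖ * ‖z‖ := Matrix.l2_opNorm_mul _ _
    _ ≤ 1 * ‖z‖ := mul_le_mul_of_nonneg_right h2 (norm_nonneg _)
    _ = ‖z‖ := one_mul _

theorem norm_conj_le' {n r : ℕ} {v : Matrix (Fin r) (Fin n) ℂ} (hv : v * vᴴ = 1)
    (z : Matrix (Fin n) (Fin n) ℂ) : ‖v * z * vᴴ‖ ≤ ‖z‖ := by
  have h1 := norm_coiso hv
  have h2 : ‖vᴴ‖ ≤ 1 := by rwa [Matrix.l2_opNorm_conjTranspose]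
  calc ‖v * z * vᴴ‖ ≤ ‖v * z‖ * ‖vᴴ‖ := Matrix.l2_opNorm_mul _ _
    _ ≤ ‖v * z‖ * 1 := mul_le_mul_of_nonneg_left h2 (norm_nonneg _)
    _ = ‖v * z‖ := mul_one _
    _ ≤ ‖v‖ * ‖z‖ := Matrix.l2_opNorm_mul _ _
    _ ≤ 1 * ‖z‖ := mul_le_mul_of_nonneg_right h1 (norm_nonneg _)
    _ = ‖z‖ := one_mul _

section

variable {r : ℕ → ℕ} {v : ∀ n, Matrix (Fin (r n)) (Fin n) ℂ} (hv : ∀ n, v n * (v n)ᴴ = 1)

/-- the sequence `v* z v` -/
def push (hv : ∀ n, v n * (v n)ᴴ = 1) (z : Bdd) : Bdd :=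
  ⟨fun n => (v n)ᴴ * z.1 (r n) * v n, z.2.choose, fun n =>
    (norm_conj_le (hv n) _).trans (z.2.choose_spec (r n))⟩

theorem push_apply (z : Bdd) (n : ℕ) : (push hv z).1 n = (v n)ᴴ * z.1 (r n) * v n := rfl

theorem push_add (z z' : Bdd) : push hv (z + z') = push hv z + push hv z' := by
  refine Subtype.ext (funext fun n => ?_)
  show (v n)ᴴ * (z.1 (r n) + z'.1 (r n)) * v n
    = (v n)ᴴ * z.1 (r n) * v n + (v n)ᴴ * z'.1 (r n) * v n
  rw [Matrix.mul_add, Matrix.add_mul]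

theorem push_mul (z z' : Bdd) : push hv (z * z') = push hv z * push hv z' := by
  refine Subtype.ext (funext fun n => ?_)
  show (v n)ᴴ * (z.1 (r n) * z'.1 (r n)) * v n
    = (v n)ᴴ * z.1 (r n) * v n * ((v n)ᴴ * z'.1 (r n) * v n)
  calc (v n)ᴴ * (z.1 (r n) * z'.1 (r n)) * v n
      = (v n)ᴴ * z.1 (r n) * (v n * (v n)ᴴ) * z'.1 (r n) * v n := by
        rw [hv, Matrix.mul_one]
        simp only [Matrix.mul_assoc]
    _ = _ := by simp only [Matrix.mul_assoc]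

theorem push_smul (c : ℂ) (z : Bdd) : push hv (c • z) = c • push hv z := by
  refine Subtype.ext (funext fun n => ?_)
  show (v n)ᴴ * (c • z.1 (r n)) * v n = c • ((v n)ᴴ * z.1 (r n) * v n)
  rw [Matrix.mul_smul, Matrix.smul_mul]

theorem push_star (z : Bdd) : push hv (star z) = star (push hv z) := by
  refine Subtype.ext (funext fun n => ?_)
  show (v n)ᴴ * (z.1 (r n))ᴴ * v n = ((v n)ᴴ * z.1 (r n) * v n)ᴴ
  rw [Matrix.conjTranspose_mul, Matrix.conjTranspose_mul, Matrix.conjTranspose_conjTranspose,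
    Matrix.mul_assoc]

variable {U : Ultrafilter ℕ} {t : ℝ}

theorem cl_push_iff (t0 : 0 < t) (hrt : Tendsto (fun n => (r n : ℝ) / n) U (𝓝 t)) (b b' : Bdd) :
    cl U (push hv b) = cl U (push hv b') ↔ cl (U.map r) b = cl (U.map r) b' := by
  rw [cl_eq, cl_eq]
  have h1 : ∀ n, nsq ((push hv b).1 n - (push hv b').1 n)
      = (r n : ℝ) / n * nsq (b.1 (r n) - b'.1 (r n)) := by
    intro n
    rw [push_apply, push_apply, ← Matrix.sub_mul, ← Matrix.mul_sub, nsq_conj (hv n)]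
  have h2 : Tendsto (fun k => nsq (b.1 k - b'.1 k)) (U.map r) (𝓝 0)
      ↔ Tendsto (fun n => nsq (b.1 (r n) - b'.1 (r n))) U (𝓝 0) := by
    rw [Ultrafilter.coe_map, tendsto_map'_iff]
    rfl
  rw [h2]
  constructor
  · intro h
    have h3 := (hrt.inv₀ t0.ne').mul h
    rw [mul_zero] at h3
    refine h3.congr' ?_
    filter_upwards [hrt.eventually (lt_mem_nhds t0)] with n hn
    rw [h1, ← mul_assoc, inv_mul_cancel₀ hn.ne', one_mul]
  · intro h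
    have h3 := hrt.mul h
    rw [mul_zero] at h3
    exact h3.congr fun n => (h1 n).symm

/-- the isomorphism of `M^V` with the corner -/
def psi (hv : ∀ n, v n * (v n)ᴴ = 1) (U : Ultrafilter ℕ) (z : MU (U.map r)) : MU U :=
  cl U (push hv (cl_surj (U.map r) z).choose)

theorem psi_cl (t0 : 0 < t) (hrt : Tendsto (fun n => (r n : ℝ) / n) U (𝓝 t)) (b : Bdd) :
    psi hv U (cl (U.map r) b) = cl U (push hv b) :=
  (cl_push_iff hv t0 hrt _ _).2 (cl_surj (U.map r) (cl (U.map r) b)).choose_spec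

theorem psi_inj (t0 : 0 < t) (hrt : Tendsto (fun n => (r n : ℝ) / n) U (𝓝 t)) :
    Function.Injective (psi hv U) := by
  intro z z' h
  obtain ⟨b, rfl⟩ := cl_surj _ z
  obtain ⟨b', rfl⟩ := cl_surj _ z'
  rw [psi_cl hv t0 hrt, psi_cl hv t0 hrt] at h
  exact (cl_push_iff hv t0 hrt _ _).1 h

theorem psi_add (t0 : 0 < t) (hrt : Tendsto (fun n => (r n : ℝ) / n) U (𝓝 t))
    (z z' : MU (U.map r)) : psi hv U (z + z') = psi hv U z + psi hv U z' := by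
  obtain ⟨b, rfl⟩ := cl_surj _ z
  obtain ⟨b', rfl⟩ := cl_surj _ z'
  rw [← map_add, psi_cl hv t0 hrt, psi_cl hv t0 hrt, psi_cl hv t0 hrt, push_add, map_add]

theorem psi_mul (t0 : 0 < t) (hrt : Tendsto (fun n => (r n : ℝ) / n) U (𝓝 t))
    (z z' : MU (U.map r)) : psi hv U (z * z') = psi hv U z * psi hv U z' := by
  obtain ⟨b, rfl⟩ := cl_surj _ z
  obtain ⟨b', rfl⟩ := cl_surj _ z'
  rw [← map_mul, psi_cl hv t0 hrt, psi_cl hv t0 hrt, psi_cl hv t0 hrt, push_mul, map_mul]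

theorem psi_smul (t0 : 0 < t) (hrt : Tendsto (fun n => (r n : ℝ) / n) U (𝓝 t))
    (c : ℂ) (z : MU (U.map r)) : psi hv U (c • z) = c • psi hv U z := by
  obtain ⟨b, rfl⟩ := cl_surj _ z
  rw [← map_smul, psi_cl hv t0 hrt, psi_cl hv t0 hrt, push_smul, map_smul]

theorem psi_star (t0 : 0 < t) (hrt : Tendsto (fun n => (r n : ℝ) / n) U (𝓝 t))
    (z : MU (U.map r)) : psi hv U (star z) = star (psi hv U z) := by
  obtain ⟨b, rfl⟩ := cl_surj _ z
  rw [star_cl, psi_cl hv t0 hrt, psi_cl hv t0 hrt, push_star, star_cl]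

theorem psi_one (t0 : 0 < t) (hrt : Tendsto (fun n => (r n : ℝ) / n) U (𝓝 t)) {p : MU U}
    (hp : ∀ e : Bdd, (∀ n, e.1 n = (v n)ᴴ * v n) → cl U e = p) : psi hv U 1 = p := by
  rw [← map_one (cl (U.map r)), psi_cl hv t0 hrt]
  refine hp _ fun n => ?_
  rw [push_apply]
  show (v n)ᴴ * (1 : Matrix (Fin (r n)) (Fin (r n)) ℂ) * v n = _
  rw [Matrix.mul_one]

theorem cast_norm {w : ∀ n, Matrix (Fin (r n)) (Fin (r n)) ℂ} {k m : ℕ} (h : r m = k) :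
    ‖(h ▸ w m : Matrix (Fin k) (Fin k) ℂ)‖ = ‖w m‖ := by
  subst h
  rfl

theorem cast_eq {w : ∀ n, Matrix (Fin (r n)) (Fin (r n)) ℂ} {m n : ℕ} (h : r m = r n)
    (hmn : m = n) : (h ▸ w m : Matrix (Fin (r n)) (Fin (r n)) ℂ) = w n := by
  subst hmn
  rfl

theorem psi_surj (t0 : 0 < t) (hrt : Tendsto (fun n => (r n : ℝ) / n) U (𝓝 t)) {p : MU U}
    (hp : ∀ e : Bdd, (∀ n, e.1 n = (v n)ᴴ * v n) → cl U e = p) {S : Set ℕ} (hS : S ∈ U)
    (hinj : Set.InjOn r S) (x : MU U) (h1 : p * x = x) (h2 : x * p = x) :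
    ∃ z, psi hv U z = x := by
  classical
  obtain ⟨a, rfl⟩ := cl_surj U x
  obtain ⟨C, hC⟩ := a.2
  set w : ∀ n, Matrix (Fin (r n)) (Fin (r n)) ℂ := fun n => v n * a.1 n * (v n)ᴴ with hw
  have hwn : ∀ n, ‖w n‖ ≤ C := fun n => (norm_conj_le' (hv n) _).trans (hC n)
  have hC0 : 0 ≤ C := (norm_nonneg _).trans (hC 0)
  let b : Bdd := ⟨fun k => if h : ∃ m, m ∈ S ∧ r m = k then h.choose_spec.2 ▸ w h.choose else 0,
    C, fun k => by
      show ‖(if h : ∃ m, m ∈ S ∧ r m = k then h.choose_spec.2 ▸ w h.choose else 0 :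
        Matrix (Fin k) (Fin k) ℂ)‖ ≤ C
      by_cases h : ∃ m, m ∈ S ∧ r m = k
      · rw [dif_pos h, cast_norm]
        exact hwn _
      · rw [dif_neg h, norm_zero]
        exact hC0⟩
  have hb : ∀ n ∈ S, b.1 (r n) = w n := by
    intro n hn
    have h : ∃ m, m ∈ S ∧ r m = r n := ⟨n, hn, rfl⟩
    show (if h : ∃ m, m ∈ S ∧ r m = r n then h.choose_spec.2 ▸ w h.choose else 0) = w n
    rw [dif_pos h]
    exact cast_eq h.choose_spec.2 (hinj h.choose_spec.1 hn h.choose_spec.2)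
  refine ⟨cl (U.map r) b, ?_⟩
  rw [psi_cl hv t0 hrt]
  -- the projection
  let e : Bdd := push hv 1
  have he : ∀ n, e.1 n = (v n)ᴴ * v n := by
    intro n
    show (v n)ᴴ * (1 : Matrix (Fin (r n)) (Fin (r n)) ℂ) * v n = _
    rw [Matrix.mul_one]
  have hep := hp e he
  have h3 : cl U a = cl U (e * a * e) := by
    rw [map_mul, map_mul, hep, h1, h2]
  rw [h3, cl_eq]
  refine Tendsto.congr' ?_ (tendsto_const_nhds (x := (0 : ℝ)))
  filter_upwards [hS] with n hn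
  have h4 : (push hv b).1 n - (e * a * e).1 n = 0 := by
    rw [push_apply, hb n hn, sub_eq_zero]
    show (v n)ᴴ * (v n * a.1 n * (v n)ᴴ) * v n = e.1 n * a.1 n * e.1 n
    rw [he n]
    simp only [Matrix.mul_assoc]
  rw [h4]
  simp [nsq]

end

end Pool.Agent.MUF
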