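import Mathlib

/-!
# MUF: tracial ultraproducts of matrix algebras; definitions

MP_a83bb2_an (helper13).
-/

set_option autoImplicit false

open Filter Topology
open scoped Matrix Matrix.Norms.L2Operator

noncomputable section

namespace Pool.Agent.MUF

/-- `‖x‖₂² = tr (x* x) / n`, the square of the norm for the normalised trace -/
def nsq {n : ℕ} (x : Matrix (Fin n) (Fin n) ℂ) : ℝ := (xᴴ * x).trace.re / n

theorem nsq_eq {n : ℕ} (x : Matrix (Fin n) (Fin n) ℂ) :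
    nsq x = (∑ i, ∑ j, ‖x i j‖ ^ 2) / n := by
  unfold nsq
  congr 1
  rw [Matrix.trace, Complex.re_sum, Finset.sum_comm]
  refine Finset.sum_congr rfl fun i _ => ?_
  rw [Matrix.diag_apply, Matrix.mul_apply, Complex.re_sum]
  refine Finset.sum_congr rfl fun j _ => ?_
  rw [Matrix.conjTranspose_apply, RCLike.star_def, ← Complex.normSq_eq_conj_mul_self,
    Complex.ofReal_re, Complex.normSq_eq_norm_sq]

theorem nsq_nonneg {n : ℕ} (x : Matrix (Fin n) (Fin n) ℂ) : 0 ≤ nsq x := by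
  rw [nsq_eq]
  positivity

theorem nsq_add_le {n : ℕ} (x y : Matrix (Fin n) (Fin n) ℂ) :
    nsq (x + y) ≤ 2 * nsq x + 2 * nsq y := by
  rw [nsq_eq, nsq_eq, nsq_eq, ← mul_div_assoc, ← mul_div_assoc, ← add_div]
  refine div_le_div_of_nonneg_right ?_ (Nat.cast_nonneg n)
  rw [Finset.mul_sum, Finset.mul_sum, ← Finset.sum_add_distrib]
  refine Finset.sum_le_sum fun i _ => ?_
  rw [Finset.mul_sum, Finset.mul_sum, ← Finset.sum_add_distrib]
  refine Finset.sum_le_sum fun j _ => ?_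
  rw [Matrix.add_apply]
  have h := norm_add_le (x i j) (y i j)
  have h0 := norm_nonneg (x i j + y i j)
  nlinarith [sq_nonneg (‖x i j‖ - ‖y i j‖)]

theorem nsq_star {n : ℕ} (x : Matrix (Fin n) (Fin n) ℂ) : nsq xᴴ = nsq x := by
  rw [nsq_eq, nsq_eq, Finset.sum_comm]
  simp only [Matrix.conjTranspose_apply, norm_star]

theorem nsq_mul_le {n : ℕ} (x y : Matrix (Fin n) (Fin n) ℂ) : nsq (x * y) ≤ ‖x‖ ^ 2 * nsq y := by
  rw [nsq_eq, nsq_eq, ← mul_div_assoc]
  refine div_le_div_of_nonneg_right ?_ (Nat.cast_nonneg n)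
  rw [Finset.sum_comm, Finset.sum_comm (f := fun i j => ‖y i j‖ ^ 2), Finset.mul_sum]
  refine Finset.sum_le_sum fun j _ => ?_
  have h := Matrix.l2_opNorm_mulVec x (WithLp.toLp 2 fun i => y i j)
  have h2 := mul_self_le_mul_self (norm_nonneg _) h
  rw [← pow_two, ← pow_two, mul_pow, EuclideanSpace.norm_sq_eq, EuclideanSpace.norm_sq_eq] at h2
  exact h2

theorem nsq_mul_le' {n : ℕ} (x y : Matrix (Fin n) (Fin n) ℂ) : nsq (x * y) ≤ ‖y‖ ^ 2 * nsq x := by
  rw [← nsq_star, Matrix.conjTranspose_mul, ← nsq_star x, ← Matrix.l2_opNorm_conjTranspose y]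
  exact nsq_mul_le _ _

theorem nsq_zero {n : ℕ} : nsq (0 : Matrix (Fin n) (Fin n) ℂ) = 0 := by simp [nsq]

/-- a sequence `x n` of `n × n` matrices which is bounded in the operator norm -/
@[ext]
structure BSeq : Type where
  /-- the matrices -/
  val : ∀ n : ℕ, Matrix (Fin n) (Fin n) ℂ
  bdd : ∃ C : ℝ, ∀ n, ‖val n‖ ≤ C

namespace BSeq

instance : Add BSeq := ⟨fun a b => ⟨fun n => a.val n + b.val n, by
  obtain ⟨C, hC⟩ := a.bdd
  obtain ⟨D, hD⟩ := b.bdd
  exact ⟨C + D, fun n => (norm_add_le _ _).trans (add_le_add (hC n) (hD n))⟩⟩⟩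

instance : Mul BSeq := ⟨fun a b => ⟨fun n => a.val n * b.val n, by
  obtain ⟨C, hC⟩ := a.bdd
  obtain ⟨D, hD⟩ := b.bdd
  refine ⟨C * D, fun n => (norm_mul_le _ _).trans ?_⟩
  exact mul_le_mul (hC n) (hD n) (norm_nonneg _) ((norm_nonneg _).trans (hC n))⟩⟩

instance : Neg BSeq := ⟨fun a => ⟨fun n => -a.val n, by
  obtain ⟨C, hC⟩ := a.bdd
  exact ⟨C, fun n => by rw [norm_neg]; exact hC n⟩⟩⟩

instance : Star BSeq := ⟨fun a => ⟨fun n => (a.val n)ᴴ, by
  obtain ⟨C, hC⟩ := a.bdd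
  exact ⟨C, fun n => by rw [Matrix.l2_opNorm_conjTranspose]; exact hC n⟩⟩⟩

/-- the scalar sequence `c` -/
def scalar (c : ℂ) : BSeq := ⟨fun n => Matrix.diagonal fun _ => c, by
  refine ⟨‖c‖, fun n => ?_⟩
  rw [Matrix.l2_opNorm_diagonal]
  exact (pi_norm_le_iff_of_nonneg (norm_nonneg _)).2 fun i => le_rfl⟩

end BSeq

/-- `lim ‖a n - b n‖₂ = 0` along `U` -/
def Rel (U : Ultrafilter ℕ) (a b : BSeq) : Prop :=
  Tendsto (fun n => nsq (a.val n - b.val n)) U (𝓝 0)

theorem rel_refl (U : Ultrafilter ℕ) (a : BSeq) : Rel U a a := by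
  unfold Rel
  simp only [sub_self, nsq_zero]
  exact tendsto_const_nhds

theorem rel_symm {U : Ultrafilter ℕ} {a b : BSeq} (h : Rel U a b) : Rel U b a := by
  refine Tendsto.congr (fun n => ?_) h
  rw [← neg_sub, nsq_eq, nsq_eq]
  congr 1
  refine Finset.sum_congr rfl fun i _ => Finset.sum_congr rfl fun j _ => ?_
  rw [Matrix.neg_apply, norm_neg]

theorem rel_of_le {U : Ultrafilter ℕ} {a b : BSeq} {f : ℕ → ℝ} (hf : Tendsto f U (𝓝 0))
    (h : ∀ n, nsq (a.val n - b.val n) ≤ f n) : Rel U a b :=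
  squeeze_zero (fun _ => nsq_nonneg _) h hf

theorem rel_trans {U : Ultrafilter ℕ} {a b c : BSeq} (h : Rel U a b) (h' : Rel U b c) :
    Rel U a c := by
  have h1 := (Tendsto.const_mul 2 h).add (Tendsto.const_mul 2 h')
  rw [mul_zero, add_zero] at h1
  refine rel_of_le h1 fun n => ?_
  have h2 := nsq_add_le (a.val n - b.val n) (b.val n - c.val n)
  rw [sub_add_sub_cancel] at h2
  exact h2

/-- the equivalence of bounded sequences -/
def seqSetoid (U : Ultrafilter ℕ) : Setoid BSeq :=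
  ⟨Rel U, rel_refl U, fun h => rel_symm h, fun h h' => rel_trans h h'⟩

/-- the tracial matrix ultraproduct `M^U` -/
def MU (U : Ultrafilter ℕ) : Type := Quotient (seqSetoid U)

/-- the class of a bounded sequence -/
def mk (U : Ultrafilter ℕ) (a : BSeq) : MU U := Quotient.mk (seqSetoid U) a

theorem mk_eq {U : Ultrafilter ℕ} {a b : BSeq} : mk U a = mk U b ↔ Rel U a b :=
  Quotient.eq (r := seqSetoid U)

theorem mk_surj (U : Ultrafilter ℕ) : Function.Surjective (mk U) := Quotient.mk_surjective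

theorem rel_add {U : Ultrafilter ℕ} {a a' b b' : BSeq} (h : Rel U a a') (h' : Rel U b b') :
    Rel U (a + b) (a' + b') := by
  have h1 := (Tendsto.const_mul 2 h).add (Tendsto.const_mul 2 h')
  rw [mul_zero, add_zero] at h1
  refine rel_of_le h1 fun n => ?_
  have h2 := nsq_add_le (a.val n - a'.val n) (b.val n - b'.val n)
  rw [← add_sub_add_comm] at h2
  exact h2

theorem rel_mul {U : Ultrafilter ℕ} {a a' b b' : BSeq} (h : Rel U a a') (h' : Rel U b b') :
    Rel U (a * b) (a' * b') := by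
  obtain ⟨C, hC⟩ := a.bdd
  obtain ⟨D, hD⟩ := b'.bdd
  have h1 := (Tendsto.const_mul (2 * C ^ 2) h').add (Tendsto.const_mul (2 * D ^ 2) h)
  rw [mul_zero, mul_zero, add_zero] at h1
  refine rel_of_le h1 fun n => ?_
  have h2 := nsq_add_le (a.val n * (b.val n - b'.val n)) ((a.val n - a'.val n) * b'.val n)
  have h3 : a.val n * (b.val n - b'.val n) + (a.val n - a'.val n) * b'.val n
      = a.val n * b.val n - a'.val n * b'.val n := by
    rw [mul_sub, sub_mul, sub_add_sub_cancel]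
  rw [h3] at h2
  have h4 := nsq_mul_le (a.val n) (b.val n - b'.val n)
  have h5 := nsq_mul_le' (a.val n - a'.val n) (b'.val n)
  have h6 : ‖a.val n‖ ^ 2 * nsq (b.val n - b'.val n) ≤ C ^ 2 * nsq (b.val n - b'.val n) :=
    mul_le_mul_of_nonneg_right (pow_le_pow_left₀ (norm_nonneg _) (hC n) 2) (nsq_nonneg _)
  have h7 : ‖b'.val n‖ ^ 2 * nsq (a.val n - a'.val n) ≤ D ^ 2 * nsq (a.val n - a'.val n) :=
    mul_le_mul_of_nonneg_right (pow_le_pow_left₀ (norm_nonneg _) (hD n) 2) (nsq_nonneg _)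
  show nsq (a.val n * b.val n - a'.val n * b'.val n) ≤ _
  linarith

theorem rel_neg {U : Ultrafilter ℕ} {a a' : BSeq} (h : Rel U a a') : Rel U (-a) (-a') := by
  refine Tendsto.congr (fun n => ?_) h
  show _ = nsq (-a.val n - -a'.val n)
  rw [nsq_eq, nsq_eq]
  congr 1
  refine Finset.sum_congr rfl fun i _ => Finset.sum_congr rfl fun j _ => ?_
  rw [Matrix.sub_apply, Matrix.sub_apply, Matrix.neg_apply, Matrix.neg_apply, ← neg_sub_neg,
    norm_sub_rev]

theorem rel_star {U : Ultrafilter ℕ} {a a' : BSeq} (h : Rel U a a') :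
    Rel U (star a) (star a') := by
  refine Tendsto.congr (fun n => ?_) h
  show _ = nsq ((a.val n)ᴴ - (a'.val n)ᴴ)
  rw [← Matrix.conjTranspose_sub, nsq_star]

instance (U : Ultrafilter ℕ) : Add (MU U) :=
  ⟨Quotient.map₂ (· + ·) fun _ _ h _ _ h' => rel_add h h'⟩

instance (U : Ultrafilter ℕ) : Mul (MU U) :=
  ⟨Quotient.map₂ (· * ·) fun _ _ h _ _ h' => rel_mul h h'⟩

instance (U : Ultrafilter ℕ) : Neg (MU U) := ⟨Quotient.map (- ·) fun _ _ h => rel_neg h⟩

instance (U : Ultrafilter ℕ) : Star (MU U) := ⟨Quotient.map star fun _ _ h => rel_star h⟩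

instance (U : Ultrafilter ℕ) : Zero (MU U) := ⟨mk U (BSeq.scalar 0)⟩

instance (U : Ultrafilter ℕ) : One (MU U) := ⟨mk U (BSeq.scalar 1)⟩

theorem mk_add {U : Ultrafilter ℕ} (a b : BSeq) : mk U a + mk U b = mk U (a + b) := rfl
theorem mk_mul {U : Ultrafilter ℕ} (a b : BSeq) : mk U a * mk U b = mk U (a * b) := rfl
theorem mk_neg {U : Ultrafilter ℕ} (a : BSeq) : -mk U a = mk U (-a) := rfl
theorem mk_star {U : Ultrafilter ℕ} (a : BSeq) : star (mk U a) = mk U (star a) := rfl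
theorem mk_zero {U : Ultrafilter ℕ} : (0 : MU U) = mk U (BSeq.scalar 0) := rfl
theorem mk_one {U : Ultrafilter ℕ} : (1 : MU U) = mk U (BSeq.scalar 1) := rfl

theorem BSeq.add_val (a b : BSeq) (n : ℕ) : (a + b).val n = a.val n + b.val n := rfl
theorem BSeq.mul_val (a b : BSeq) (n : ℕ) : (a * b).val n = a.val n * b.val n := rfl
theorem BSeq.neg_val (a : BSeq) (n : ℕ) : (-a).val n = -a.val n := rfl
theorem BSeq.star_val (a : BSeq) (n : ℕ) : (star a).val n = (a.val n)ᴴ := rfl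
theorem BSeq.scalar_val (c : ℂ) (n : ℕ) :
    (BSeq.scalar c).val n = c • (1 : Matrix (Fin n) (Fin n) ℂ) := by
  show (Matrix.diagonal fun _ => c) = _
  rw [← Matrix.diagonal_one, ← Matrix.diagonal_smul]
  congr 1
  funext i
  simp

theorem ax1 (U : Ultrafilter ℕ) (x y z : MU U) : x + y + z = x + (y + z) := by
  obtain ⟨a, rfl⟩ := mk_surj U x
  obtain ⟨b, rfl⟩ := mk_surj U y
  obtain ⟨c, rfl⟩ := mk_surj U z
  rw [mk_add, mk_add, mk_add, mk_add]
  congr 1
  ext n : 2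
  exact add_assoc _ _ _

theorem ax2 (U : Ultrafilter ℕ) (x : MU U) : 0 + x = x := by
  obtain ⟨a, rfl⟩ := mk_surj U x
  rw [mk_zero, mk_add]
  congr 1
  ext n : 2
  rw [BSeq.add_val, BSeq.scalar_val, zero_smul, zero_add]

theorem ax3 (U : Ultrafilter ℕ) (x : MU U) : -x + x = 0 := by
  obtain ⟨a, rfl⟩ := mk_surj U x
  rw [mk_zero, mk_neg, mk_add]
  congr 1
  ext n : 2
  rw [BSeq.add_val, BSeq.scalar_val, BSeq.neg_val, zero_smul, neg_add_cancel]

theorem ax4 (U : Ultrafilter ℕ) (x y z : MU U) : x * y * z = x * (y * z) := by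
  obtain ⟨a, rfl⟩ := mk_surj U x
  obtain ⟨b, rfl⟩ := mk_surj U y
  obtain ⟨c, rfl⟩ := mk_surj U z
  rw [mk_mul, mk_mul, mk_mul, mk_mul]
  congr 1
  ext n : 2
  exact mul_assoc _ _ _

theorem ax5 (U : Ultrafilter ℕ) (x : MU U) : 1 * x = x := by
  obtain ⟨a, rfl⟩ := mk_surj U x
  rw [mk_one, mk_mul]
  congr 1
  ext n : 2
  rw [BSeq.mul_val, BSeq.scalar_val, one_smul, one_mul]

theorem ax6 (U : Ultrafilter ℕ) (x : MU U) : x * 1 = x := by
  obtain ⟨a, rfl⟩ := mk_surj U x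
  rw [mk_one, mk_mul]
  congr 1
  ext n : 2
  rw [BSeq.mul_val, BSeq.scalar_val, one_smul, mul_one]

theorem ax7 (U : Ultrafilter ℕ) (x y z : MU U) : x * (y + z) = x * y + x * z := by
  obtain ⟨a, rfl⟩ := mk_surj U x
  obtain ⟨b, rfl⟩ := mk_surj U y
  obtain ⟨c, rfl⟩ := mk_surj U z
  rw [mk_add, mk_mul, mk_mul, mk_mul, mk_add]
  congr 1
  ext n : 2
  exact mul_add _ _ _

theorem ax8 (U : Ultrafilter ℕ) (x y z : MU U) : (x + y) * z = x * z + y * z := by
  obtain ⟨a, rfl⟩ := mk_surj U x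
  obtain ⟨b, rfl⟩ := mk_surj U y
  obtain ⟨c, rfl⟩ := mk_surj U z
  rw [mk_add, mk_mul, mk_mul, mk_mul, mk_add]
  congr 1
  ext n : 2
  exact add_mul _ _ _

instance (U : Ultrafilter ℕ) : Ring (MU U) :=
  Ring.ofMinimalAxioms (ax1 U) (ax2 U) (ax3 U) (ax4 U) (ax5 U) (ax6 U) (ax7 U) (ax8 U)

theorem sc_add (U : Ultrafilter ℕ) (c d : ℂ) :
    mk U (BSeq.scalar (c + d)) = mk U (BSeq.scalar c) + mk U (BSeq.scalar d) := by
  rw [mk_add]
  congr 1
  ext n : 2
  rw [BSeq.add_val, BSeq.scalar_val, BSeq.scalar_val, BSeq.scalar_val, add_smul]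

theorem sc_mul (U : Ultrafilter ℕ) (c d : ℂ) :
    mk U (BSeq.scalar (c * d)) = mk U (BSeq.scalar c) * mk U (BSeq.scalar d) := by
  rw [mk_mul]
  congr 1
  ext n : 2
  rw [BSeq.mul_val, BSeq.scalar_val, BSeq.scalar_val, BSeq.scalar_val, smul_mul_smul_comm, one_mul]

theorem sc_comm (U : Ultrafilter ℕ) (c : ℂ) (x : MU U) :
    mk U (BSeq.scalar c) * x = x * mk U (BSeq.scalar c) := by
  obtain ⟨a, rfl⟩ := mk_surj U x
  rw [mk_mul, mk_mul]
  congr 1
  ext n : 2
  rw [BSeq.mul_val, BSeq.mul_val, BSeq.scalar_val, smul_mul_assoc, mul_smul_comm, one_mul, mul_one]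

/-- the scalars in `M^U` -/
def scalars (U : Ultrafilter ℕ) : ℂ →+* MU U where
  toFun c := mk U (BSeq.scalar c)
  map_one' := rfl
  map_mul' := sc_mul U
  map_zero' := rfl
  map_add' := sc_add U

instance (U : Ultrafilter ℕ) : Algebra ℂ (MU U) := (scalars U).toAlgebra' (sc_comm U)

theorem st1 (U : Ultrafilter ℕ) (x : MU U) : star (star x) = x := by
  obtain ⟨a, rfl⟩ := mk_surj U x
  rw [mk_star, mk_star]
  congr 1
  ext n : 2
  exact Matrix.conjTranspose_conjTranspose _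

theorem st2 (U : Ultrafilter ℕ) (x y : MU U) : star (x * y) = star y * star x := by
  obtain ⟨a, rfl⟩ := mk_surj U x
  obtain ⟨b, rfl⟩ := mk_surj U y
  rw [mk_mul, mk_star, mk_star, mk_star, mk_mul]
  congr 1
  ext n : 2
  exact Matrix.conjTranspose_mul _ _

theorem st3 (U : Ultrafilter ℕ) (x y : MU U) : star (x + y) = star x + star y := by
  obtain ⟨a, rfl⟩ := mk_surj U x
  obtain ⟨b, rfl⟩ := mk_surj U y
  rw [mk_add, mk_star, mk_star, mk_star, mk_add]
  congr 1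
  ext n : 2
  exact Matrix.conjTranspose_add _ _

instance (U : Ultrafilter ℕ) : StarRing (MU U) where
  star_involutive := st1 U
  star_mul := st2 U
  star_add := st3 U

theorem mk_smul {U : Ultrafilter ℕ} (c : ℂ) (a : BSeq) :
    c • mk U a = mk U (BSeq.scalar c * a) := rfl

instance (U : Ultrafilter ℕ) : StarModule ℂ (MU U) where
  star_smul := by
    intro r x
    obtain ⟨a, rfl⟩ := mk_surj U x
    rw [mk_smul, mk_star, mk_star, mk_smul]
    congr 1
    ext n : 2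
    rw [BSeq.star_val, BSeq.mul_val, BSeq.mul_val, BSeq.scalar_val, BSeq.scalar_val, BSeq.star_val,
      smul_mul_assoc, one_mul, smul_mul_assoc, one_mul, Matrix.conjTranspose_smul]

/-- the bounded sequences as a *-algebra (used in the proofs only) -/
def Bdd : StarSubalgebra ℂ (∀ n : ℕ, Matrix (Fin n) (Fin n) ℂ) where
  carrier := {x | ∃ C : ℝ, ∀ n, ‖x n‖ ≤ C}
  mul_mem' := by
    rintro x y ⟨C, hC⟩ ⟨D, hD⟩
    refine ⟨C * D, fun n => (norm_mul_le _ _).trans ?_⟩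
    exact mul_le_mul (hC n) (hD n) (norm_nonneg _) ((norm_nonneg _).trans (hC n))
  add_mem' := by
    rintro x y ⟨C, hC⟩ ⟨D, hD⟩
    exact ⟨C + D, fun n => (norm_add_le _ _).trans (add_le_add (hC n) (hD n))⟩
  algebraMap_mem' := by
    intro r
    refine ⟨‖r‖, fun n => ?_⟩
    rw [Pi.algebraMap_apply, Matrix.algebraMap_eq_diagonal, Matrix.l2_opNorm_diagonal]
    refine (pi_norm_le_iff_of_nonneg (norm_nonneg _)).2 fun i => ?_
    rfl
  star_mem' := by
    rintro x ⟨C, hC⟩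
    refine ⟨C, fun n => ?_⟩
    rw [Pi.star_apply, norm_star]
    exact hC n

/-- a member of `Bdd` as a bounded sequence -/
def toB (a : Bdd) : BSeq := ⟨a.1, a.2⟩

/-- the class of a member of `Bdd` -/
def cl (U : Ultrafilter ℕ) : Bdd →ₐ[ℂ] MU U where
  toFun a := mk U (toB a)
  map_one' := by
    rw [mk_one]
    congr 1
  map_mul' _ _ := rfl
  map_zero' := by
    rw [mk_zero]
    congr 1
    ext n : 2
    rw [BSeq.scalar_val, zero_smul]
    rfl
  map_add' _ _ := rfl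
  commutes' := by
    intro c
    show _ = mk U (BSeq.scalar c)
    congr 1

theorem cl_surj (U : Ultrafilter ℕ) : Function.Surjective (cl U) := by
  intro x
  obtain ⟨a, rfl⟩ := mk_surj U x
  exact ⟨⟨a.val, a.bdd⟩, rfl⟩

theorem cl_eq {U : Ultrafilter ℕ} {x y : Bdd} :
    cl U x = cl U y ↔ Tendsto (fun n => nsq (x.1 n - y.1 n)) U (𝓝 0) := mk_eq

theorem cl_eq_zero {U : Ultrafilter ℕ} {x : Bdd} :
    cl U x = 0 ↔ Tendsto (fun n => nsq (x.1 n)) U (𝓝 0) := by
  rw [← map_zero (cl U), cl_eq]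
  have h : (fun n => nsq (x.1 n - (0 : Bdd).1 n)) = fun n => nsq (x.1 n) := by
    funext n
    show nsq (x.1 n - 0) = _
    rw [sub_zero]
  rw [h]

theorem star_cl {U : Ultrafilter ℕ} (x : Bdd) : star (cl U x) = cl U (star x) := rfl

/-- the normalised trace of a matrix -/
def ntr {n : ℕ} (x : Matrix (Fin n) (Fin n) ℂ) : ℂ := x.trace / n

/-- `t` is the trace of `x ∈ M^U`: the limit along `U` of the normalised traces of the matrices of a
bounded sequence which represents `x` -/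
def IsTrace {U : Ultrafilter ℕ} (x : MU U) (t : ℂ) : Prop :=
  ∃ a : BSeq, mk U a = x ∧ Tendsto (fun n => ntr (a.val n)) U (𝓝 t)

end Pool.Agent.MUF
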