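import Pool.Agent.MUF.Lift

/-!
# MUF: *-subalgebras of the matrix algebra and their commutants

MP_a83bb2_an (helper13).
-/

set_option autoImplicit false

open Polynomial
open scoped Matrix Matrix.Norms.L2Operator

noncomputable section

namespace Pool.Agent.MUF

variable {n : ℕ}

/-- conjugation of the diagonal matrices by a unitary matrix -/
def conjHom (W : Matrix (Fin n) (Fin n) ℂ) (h1 : Wᴴ * W = 1) (h2 : W * Wᴴ = 1) :
    (Fin n → ℂ) →ₐ[ℂ] Matrix (Fin n) (Fin n) ℂ where
  toFun d := W * Matrix.diagonal d * Wᴴ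
  map_one' := by
    show W * Matrix.diagonal (fun _ => 1) * Wᴴ = 1
    rw [Matrix.diagonal_one, Matrix.mul_one, h2]
  map_mul' := by
    intro c d
    calc W * Matrix.diagonal (c * d) * Wᴴ
        = W * (Matrix.diagonal c * Matrix.diagonal d) * Wᴴ := by
          rw [Matrix.diagonal_mul_diagonal]
          rfl
      _ = W * Matrix.diagonal c * (Wᴴ * W) * Matrix.diagonal d * Wᴴ := by
          rw [h1, Matrix.mul_one]
          simp only [Matrix.mul_assoc]
      _ = W * Matrix.diagonal c * Wᴴ * (W * Matrix.diagonal d * Wᴴ) := by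
          simp only [Matrix.mul_assoc]
  map_zero' := by
    show W * Matrix.diagonal (fun _ => 0) * Wᴴ = 0
    rw [Matrix.diagonal_zero, Matrix.mul_zero, Matrix.zero_mul]
  map_add' := by
    intro c d
    rw [← Matrix.add_mul, ← Matrix.mul_add, Matrix.diagonal_add]
    rfl
  commutes' := by
    intro r
    show W * Matrix.diagonal (fun _ => algebraMap ℂ ℂ r) * Wᴴ = algebraMap ℂ _ r
    have h3 : (Matrix.diagonal fun _ : Fin n => algebraMap ℂ ℂ r)
        = r • (1 : Matrix (Fin n) (Fin n) ℂ) := by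
      rw [← Matrix.diagonal_one, ← Matrix.diagonal_smul]
      congr 1
      funext i
      simp
    rw [h3, Matrix.mul_smul, Matrix.smul_mul, Matrix.mul_one, h2, Algebra.algebraMap_eq_smul_one]

/-- functions of a Hermitian matrix are polynomials of it -/
theorem exists_poly {W : Matrix (Fin n) (Fin n) ℂ} (h1 : Wᴴ * W = 1) (h2 : W * Wᴴ = 1)
    (l : Fin n → ℝ) (F : ℝ → ℂ) :
    ∃ q : ℂ[X], q.eval 0 = F 0 ∧
      aeval (W * (Matrix.diagonal fun i => (l i : ℂ)) * Wᴴ) q
        = W * (Matrix.diagonal fun i => F (l i)) * Wᴴ := by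
  classical
  set s : Finset ℝ := insert 0 (Finset.univ.image l) with hs
  set q : ℂ[X] := Lagrange.interpolate s (fun z : ℝ => (z : ℂ)) F with hq
  have hinj : Set.InjOn (fun z : ℝ => (z : ℂ)) (s : Set ℝ) := fun a _ b _ h => by
    have h' : (a : ℂ) = (b : ℂ) := h
    exact_mod_cast h'
  have hev : ∀ z ∈ s, q.eval (z : ℂ) = F z := fun z hz =>
    Lagrange.eval_interpolate_at_node F hinj hz
  refine ⟨q, ?_, ?_⟩
  · have h3 := hev 0 (Finset.mem_insert_self _ _)
    rwa [Complex.ofReal_zero] at h3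
  · have h3 := Polynomial.aeval_algHom_apply (conjHom W h1 h2) (fun i => (l i : ℂ)) q
    have h4 : aeval (fun i => (l i : ℂ)) q = fun i => F (l i) := by
      funext i
      rw [Polynomial.aeval_pi_apply₂, Polynomial.coe_aeval_eq_eval]
      exact hev (l i) (Finset.mem_insert_of_mem (Finset.mem_image_of_mem l (Finset.mem_univ i)))
    rw [h4] at h3
    exact h3

theorem aeval_mem_of {A : Subalgebra ℂ (Matrix (Fin n) (Fin n) ℂ)}
    {x : Matrix (Fin n) (Fin n) ℂ} (hx : x ∈ A) (q : ℂ[X]) : aeval x q ∈ A := by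
  have h2 : Algebra.adjoin ℂ {x} ≤ A := by
    refine Algebra.adjoin_le ?_
    rintro w rfl
    exact hx
  exact h2 (Polynomial.aeval_mem_adjoin_singleton ℂ x)

/-- `x` commutes with `A` -/
def InC (A : StarSubalgebra ℂ (Matrix (Fin n) (Fin n) ℂ)) (x : Matrix (Fin n) (Fin n) ℂ) :
    Prop := ∀ a ∈ A, a * x = x * a

/-- `e` is a projection which commutes with `A` -/
def PC (A : StarSubalgebra ℂ (Matrix (Fin n) (Fin n) ℂ)) (e : Matrix (Fin n) (Fin n) ℂ) :
    Prop := e * e = e ∧ eᴴ = e ∧ InC A e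

variable {A : StarSubalgebra ℂ (Matrix (Fin n) (Fin n) ℂ)}

theorem InC.aeval {x : Matrix (Fin n) (Fin n) ℂ} (hx : InC A x) (q : ℂ[X]) :
    InC A (aeval x q) := by
  have h1 : x ∈ Subalgebra.centralizer ℂ (A : Set (Matrix (Fin n) (Fin n) ℂ)) :=
    fun a ha => hx a ha
  exact fun a ha => aeval_mem_of h1 q a ha

theorem InC.star {x : Matrix (Fin n) (Fin n) ℂ} (hx : InC A x) : InC A xᴴ := by
  intro a ha
  have h1 := congrArg Matrix.conjTranspose (hx aᴴ (star_mem ha))
  rw [Matrix.conjTranspose_mul, Matrix.conjTranspose_mul, Matrix.conjTranspose_conjTranspose] at h1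
  exact h1.symm

theorem InC.mul {x y : Matrix (Fin n) (Fin n) ℂ} (hx : InC A x) (hy : InC A y) :
    InC A (x * y) := by
  intro a ha
  rw [← mul_assoc, hx a ha, mul_assoc, hy a ha, mul_assoc]

theorem InC.sub {x y : Matrix (Fin n) (Fin n) ℂ} (hx : InC A x) (hy : InC A y) :
    InC A (x - y) := by
  intro a ha
  rw [mul_sub, sub_mul, hx a ha, hy a ha]

theorem InC.add {x y : Matrix (Fin n) (Fin n) ℂ} (hx : InC A x) (hy : InC A y) :
    InC A (x + y) := by
  intro a ha
  rw [mul_add, add_mul, hx a ha, hy a ha]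

theorem InC.smul {x : Matrix (Fin n) (Fin n) ℂ} (c : ℂ) (hx : InC A x) : InC A (c • x) := by
  intro a ha
  rw [mul_smul_comm, smul_mul_assoc, hx a ha]

theorem trace_self_eq_zero {x : Matrix (Fin n) (Fin n) ℂ} (h : (xᴴ * x).trace = 0) : x = 0 := by
  have h1 : (n : ℝ) * nsq x = 0 := by
    unfold nsq
    rw [h]
    simp
  rcases mul_eq_zero.1 h1 with h2 | h2
  · have h3 : n = 0 := by exact_mod_cast h2
    subst h3
    exact Subsingleton.elim _ _
  · rcases Nat.eq_zero_or_pos n with h3 | h3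
    · subst h3
      exact Subsingleton.elim _ _
    · rw [nsq_eq] at h2
      have h4 : (n : ℝ) ≠ 0 := by exact_mod_cast h3.ne'
      have h5 := (div_eq_zero_iff.1 h2).resolve_right h4
      ext i j
      have h6 := (Finset.sum_eq_zero_iff_of_nonneg fun i _ =>
        Finset.sum_nonneg fun j _ => by positivity).1 h5 i (Finset.mem_univ i)
      have h7 := (Finset.sum_eq_zero_iff_of_nonneg fun j _ => by positivity).1 h6 j
        (Finset.mem_univ j)
      have h8 : ‖x i j‖ = 0 := by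
        have := pow_eq_zero_iff (two_ne_zero) |>.1 h7
        exact this
      rw [norm_eq_zero.1 h8]
      rfl

/-- the rank of a projection -/
def rk (e : Matrix (Fin n) (Fin n) ℂ) : ℕ := ⌊e.trace.re⌋₊

theorem rk_eq {e : Matrix (Fin n) (Fin n) ℂ} (h : e * e = e) (hs : eᴴ = e) :
    e.trace = (rk e : ℂ) := by
  obtain ⟨W, l, h1, h2, he⟩ := exists_spec e hs
  have hl : ∀ i, l i ^ 2 = l i := by
    have h3 : (conjHom W h1 h2) ((fun i => (l i : ℂ)) * fun i => (l i : ℂ))
        = (conjHom W h1 h2) fun i => (l i : ℂ) := by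
      rw [map_mul]
      show W * Matrix.diagonal _ * Wᴴ * (W * Matrix.diagonal _ * Wᴴ)
        = W * Matrix.diagonal _ * Wᴴ
      rw [← he, h]
    have h4 : Matrix.diagonal ((fun i => (l i : ℂ)) * fun i => (l i : ℂ))
        = Matrix.diagonal fun i => (l i : ℂ) := by
      have h5 := congrArg (fun z => Wᴴ * z * W) h3
      have h6 : ∀ d : Fin n → ℂ, Wᴴ * (W * Matrix.diagonal d * Wᴴ) * W = Matrix.diagonal d := by
        intro d
        calc Wᴴ * (W * Matrix.diagonal d * Wᴴ) * W
            = (Wᴴ * W) * Matrix.diagonal d * (Wᴴ * W) := by simp only [Matrix.mul_assoc]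
          _ = _ := by rw [h1, Matrix.one_mul, Matrix.mul_one]
      have h7 := h6 ((fun i => (l i : ℂ)) * fun i => (l i : ℂ))
      rw [← h7, ← h6 fun i => (l i : ℂ)]
      exact h5
    intro i
    have h5 := congrFun (Matrix.diagonal_injective h4) i
    have h6 : (l i : ℂ) * l i = l i := h5
    rw [pow_two]
    exact_mod_cast h6
  have h3 : e.trace = ((∑ i, l i : ℝ) : ℂ) := by
    rw [he, Matrix.trace_mul_comm, ← Matrix.mul_assoc, h1, Matrix.one_mul, Matrix.trace_diagonal]
    push_cast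
    rfl
  have h4 : ∑ i, l i = ((Finset.univ.filter fun i => l i = 1).card : ℝ) := by
    rw [← Finset.sum_boole]
    refine Finset.sum_congr rfl fun i _ => ?_
    have h5 : l i * (l i - 1) = 0 := by
      have := hl i
      nlinarith
    rcases mul_eq_zero.1 h5 with h6 | h6
    · rw [if_neg (by rw [h6]; norm_num), h6]
    · rw [if_pos (by linarith)]
      linarith
  unfold rk
  rw [h3, h4, Complex.ofReal_re, Nat.floor_natCast]
  norm_cast

theorem PC.rk_eq {e : Matrix (Fin n) (Fin n) ℂ} (h : PC A e) : e.trace = (rk e : ℂ) :=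
  Pool.Agent.MUF.rk_eq h.1 h.2.1

theorem PC.eq_zero {e : Matrix (Fin n) (Fin n) ℂ} (h : PC A e) (h0 : rk e = 0) : e = 0 := by
  refine trace_self_eq_zero ?_
  rw [h.2.1, h.1, h.rk_eq, h0, Nat.cast_zero]

theorem PC.mul_right {e g : Matrix (Fin n) (Fin n) ℂ} (he : PC A e) (hg : PC A g)
    (h : e * g = g) : g * e = g := by
  have h1 := congrArg Matrix.conjTranspose h
  rwa [Matrix.conjTranspose_mul, he.2.1, hg.2.1] at h1

theorem PC.sub {e g : Matrix (Fin n) (Fin n) ℂ} (he : PC A e) (hg : PC A g)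
    (h : e * g = g) : PC A (e - g) := by
  have h1 := he.mul_right hg h
  refine ⟨?_, ?_, he.2.2.sub hg.2.2⟩
  · rw [sub_mul, mul_sub, mul_sub, he.1, hg.1, h, h1, sub_self, sub_zero]
  · rw [Matrix.conjTranspose_sub, he.2.1, hg.2.1]

theorem PC.rk_sub {e g : Matrix (Fin n) (Fin n) ℂ} (he : PC A e) (hg : PC A g)
    (h : e * g = g) : rk e = rk g + rk (e - g) := by
  have h1 := (he.sub hg h).rk_eq
  rw [Matrix.trace_sub, he.rk_eq, hg.rk_eq] at h1
  have h2 : (rk e : ℂ) = ((rk g + rk (e - g) : ℕ) : ℂ) := by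
    push_cast
    rw [← h1]
    ring
  exact_mod_cast h2

/-- `g` is a minimal projection of the commutant of `A` -/
def MinP (A : StarSubalgebra ℂ (Matrix (Fin n) (Fin n) ℂ)) (g : Matrix (Fin n) (Fin n) ℂ) :
    Prop := PC A g ∧ g ≠ 0 ∧ ∀ h, PC A h → g * h = h → h = 0 ∨ h = g

theorem exists_minP : ∀ (k : ℕ) (e : Matrix (Fin n) (Fin n) ℂ), rk e ≤ k → PC A e → e ≠ 0 →
    ∃ g, MinP A g ∧ e * g = g := by
  intro k
  induction k with
  | zero =>
    intro e hk he h0
    exact absurd (he.eq_zero (Nat.le_zero.1 hk)) h0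
  | succ k ih =>
    intro e hk he h0
    by_cases hmin : ∀ h, PC A h → e * h = h → h = 0 ∨ h = e
    · exact ⟨e, ⟨he, h0, hmin⟩, he.1⟩
    · push Not at hmin
      obtain ⟨h, hh, heh, hne0, hne⟩ := hmin
      have h1 := he.rk_sub hh heh
      have h2 : rk (e - h) ≠ 0 := by
        intro h3
        have h4 := (he.sub hh heh).eq_zero h3
        exact hne (sub_eq_zero.1 h4).symm
      obtain ⟨g, hg, hhg⟩ := ih h (by omega) hh hne0
      refine ⟨g, hg, ?_⟩
      rw [← hhg, ← mul_assoc, heh]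

/-- subprojections of prescribed rank up to the largest rank of a minimal one -/
theorem exists_part {e : Matrix (Fin n) (Fin n) ℂ} (he : PC A e) (ν : ℕ)
    (hν : ∀ g, MinP A g → e * g = g → rk g ≤ ν) (s : ℕ) (hs : s ≤ rk e) :
    ∃ h, PC A h ∧ e * h = h ∧ s ≤ rk h ∧ rk h ≤ s + ν := by
  classical
  have hex : ∃ k, ∃ h, PC A h ∧ e * h = h ∧ rk h = k ∧ s ≤ k := ⟨rk e, e, he, he.1, rfl, hs⟩
  obtain ⟨h, hh, heh, hk, hsk⟩ := Nat.find_spec hex
  refine ⟨h, hh, heh, by rw [hk]; exact hsk, ?_⟩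
  by_contra hcon
  push Not at hcon
  have h0 : h ≠ 0 := by
    intro h1
    rw [h1] at hcon
    have h2 : rk (0 : Matrix (Fin n) (Fin n) ℂ) = 0 := by
      unfold rk
      rw [Matrix.trace_zero]
      simp
    omega
  obtain ⟨g, hg, hhg⟩ := exists_minP (rk h) h le_rfl hh h0
  have heg : e * g = g := by rw [← hhg, ← mul_assoc, heh]
  have h1 := hν g hg heg
  have h2 := hh.rk_sub hg.1 hhg
  have h3 : rk g ≠ 0 := fun h4 => hg.2.1 (hg.1.eq_zero h4)
  have h5 : Nat.find hex ≤ rk (h - g) :=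
    Nat.find_min' hex ⟨h - g, hh.sub hg.1 hhg, by rw [mul_sub, heh, heg], rfl, by omega⟩
  omega

end Pool.Agent.MUF
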