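import Pool.Agent.MUF.FinA
import Pool.Agent.MUF.Corner

/-!
# MUF: corners of a *-subalgebra of the matrix algebra at minimal projections of its commutant

MP_a83bb2_an (helper13).
-/

set_option autoImplicit false

open Polynomial
open scoped Matrix Matrix.Norms.L2Operator

noncomputable section

namespace Pool.Agent.MUF

variable {n : ℕ} {A : StarSubalgebra ℂ (Matrix (Fin n) (Fin n) ℂ)}

theorem conjHom_apply (W : Matrix (Fin n) (Fin n) ℂ) (h1 : Wᴴ * W = 1) (h2 : W * Wᴴ = 1)
    (d : Fin n → ℂ) : conjHom W h1 h2 d = W * Matrix.diagonal d * Wᴴ := rfl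

theorem conj_mul (W : Matrix (Fin n) (Fin n) ℂ) (h1 : Wᴴ * W = 1) (h2 : W * Wᴴ = 1)
    (c d : Fin n → ℂ) : (W * Matrix.diagonal c * Wᴴ) * (W * Matrix.diagonal d * Wᴴ)
      = W * Matrix.diagonal (fun i => c i * d i) * Wᴴ := by
  rw [← conjHom_apply W h1 h2, ← conjHom_apply W h1 h2, ← map_mul]
  rfl

theorem conj_star (W : Matrix (Fin n) (Fin n) ℂ) (d : Fin n → ℂ) (hd : ∀ i, star (d i) = d i) :
    (W * Matrix.diagonal d * Wᴴ)ᴴ = W * Matrix.diagonal d * Wᴴ := by
  rw [Matrix.conjTranspose_mul, Matrix.conjTranspose_mul, Matrix.conjTranspose_conjTranspose,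
    Matrix.diagonal_conjTranspose, ← Matrix.mul_assoc]
  congr 3
  funext i
  exact hd i

theorem conj_inj (W : Matrix (Fin n) (Fin n) ℂ) (h1 : Wᴴ * W = 1)
    (c d : Fin n → ℂ) (h : W * Matrix.diagonal c * Wᴴ = W * Matrix.diagonal d * Wᴴ) : c = d := by
  have h6 : ∀ d : Fin n → ℂ, Wᴴ * (W * Matrix.diagonal d * Wᴴ) * W = Matrix.diagonal d := by
    intro d
    calc Wᴴ * (W * Matrix.diagonal d * Wᴴ) * W
        = (Wᴴ * W) * Matrix.diagonal d * (Wᴴ * W) := by simp only [Matrix.mul_assoc]
      _ = _ := by rw [h1, Matrix.one_mul, Matrix.mul_one]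
  refine Matrix.diagonal_injective ?_
  rw [← h6 c, ← h6 d, h]

/-- the self-adjoint part of the corner of the commutant at a minimal projection is trivial -/
theorem corner_sa {f x : Matrix (Fin n) (Fin n) ℂ} (hf : MinP A f) (hx : InC A x)
    (hxs : xᴴ = x) (h1 : f * x = x) : ∃ c : ℂ, x = c • f := by
  obtain ⟨W, l, hw1, hw2, he⟩ := exists_spec x hxs
  by_cases h0 : ∀ i, l i = 0
  · refine ⟨0, ?_⟩
    have h2 : (Matrix.diagonal fun i => (l i : ℂ)) = (0 : Matrix (Fin n) (Fin n) ℂ) := by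
      rw [← Matrix.diagonal_zero]
      congr 1
      funext i
      rw [h0 i, Complex.ofReal_zero]
    rw [he, h2, Matrix.mul_zero, Matrix.zero_mul, zero_smul]
  · push Not at h0
    obtain ⟨i, hi⟩ := h0
    obtain ⟨q, hq0, hq⟩ := exists_poly hw1 hw2 l (fun z => if z = l i then 1 else 0)
    rw [← he] at hq
    rw [if_neg (Ne.symm hi)] at hq0
    have hX : X ∣ q := by
      rw [Polynomial.X_dvd_iff, Polynomial.coeff_zero_eq_eval_zero, hq0]
    obtain ⟨r, hr⟩ := hX
    have hfe : f * aeval x q = aeval x q := by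
      rw [hr, map_mul, aeval_X, ← mul_assoc, h1]
    have hPC : PC A (aeval x q) := by
      refine ⟨?_, ?_, hx.aeval q⟩
      · rw [hq, conj_mul W hw1 hw2]
        congr 3
        funext j
        split_ifs <;> simp
      · rw [hq]
        refine conj_star W _ fun j => ?_
        split_ifs <;> simp
    rcases hf.2.2 _ hPC hfe with h2 | h2
    · exfalso
      rw [hq] at h2
      have h3 : W * (Matrix.diagonal fun j => if l j = l i then (1 : ℂ) else 0) * Wᴴ
          = W * (Matrix.diagonal fun _ => (0 : ℂ)) * Wᴴ := by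
        rw [Matrix.diagonal_zero, Matrix.mul_zero, Matrix.zero_mul]
        exact h2
      have h4 := congrFun (conj_inj W hw1 _ _ h3) i
      simp at h4
    · refine ⟨(l i : ℂ), ?_⟩
      have h3 : x * f = x := by
        have h4 := congrArg Matrix.conjTranspose h1
        rwa [Matrix.conjTranspose_mul, hf.1.2.1, hxs] at h4
      rw [← h3, ← h2, hq]
      nth_rw 1 [he]
      rw [conj_mul W hw1 hw2, ← Matrix.smul_mul, ← Matrix.mul_smul, ← Matrix.diagonal_smul]
      congr 3
      funext j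
      by_cases hj : l j = l i
      · simp [hj]
      · simp [hj]

theorem corner_scalar {f x : Matrix (Fin n) (Fin n) ℂ} (hf : MinP A f) (hx : InC A x)
    (h1 : f * x = x) (h2 : x * f = x) : ∃ c : ℂ, x = c • f := by
  have h3 : f * xᴴ = xᴴ := by
    have h4 := congrArg Matrix.conjTranspose h2
    rwa [Matrix.conjTranspose_mul, hf.1.2.1] at h4
  obtain ⟨c, hc⟩ := corner_sa (x := x + xᴴ) hf (hx.add hx.star)
    (by rw [Matrix.conjTranspose_add, Matrix.conjTranspose_conjTranspose, add_comm])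
    (by rw [mul_add, h1, h3])
  obtain ⟨d, hd⟩ := corner_sa (x := Complex.I • (x - xᴴ)) hf ((hx.sub hx.star).smul _)
    (by
      rw [Matrix.conjTranspose_smul, Matrix.conjTranspose_sub, Matrix.conjTranspose_conjTranspose,
        Complex.star_def, Complex.conj_I, neg_smul, ← smul_neg, neg_sub])
    (by rw [mul_smul_comm, mul_sub, h1, h3])
  refine ⟨(1 / 2) * (c - Complex.I * d), ?_⟩
  rw [mul_smul, sub_smul, mul_smul, ← hc, ← hd, smul_smul, Complex.I_mul_I, neg_one_smul]
  rw [sub_neg_eq_add, add_add_sub_cancel, ← two_smul ℂ x, smul_smul]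
  norm_num

theorem exists_expansion (A : StarSubalgebra ℂ (Matrix (Fin n) (Fin n) ℂ)) :
    ∃ (k : ℕ) (a : Fin k → Matrix (Fin n) (Fin n) ℂ), (∀ i, a i ∈ A) ∧
      ∀ b ∈ A, b = ∑ i, ((a i)ᴴ * b).trace • a i := by
  let L : Matrix (Fin n) (Fin n) ℂ →ₗ[ℂ] EuclideanSpace ℂ (Fin n × Fin n) :=
    { toFun := fun x => WithLp.toLp 2 fun p => x p.1 p.2
      map_add' := fun _ _ => rfl
      map_smul' := fun _ _ => rfl }
  have Lap : ∀ (x : Matrix (Fin n) (Fin n) ℂ) (p : Fin n × Fin n), L x p = x p.1 p.2 :=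
    fun _ _ => rfl
  have Linj : Function.Injective L := by
    intro x y h
    ext i j
    have h1 := congrArg (fun z : EuclideanSpace ℂ (Fin n × Fin n) => z (i, j)) h
    exact h1
  have Linner : ∀ x y, inner ℂ (L x) (L y) = (xᴴ * y).trace := by
    intro x y
    rw [PiLp.inner_apply, Fintype.sum_prod_type, Matrix.trace, Finset.sum_comm]
    refine Finset.sum_congr rfl fun i _ => ?_
    rw [Matrix.diag_apply, Matrix.mul_apply]
    refine Finset.sum_congr rfl fun j _ => ?_
    rw [Lap, Lap, Matrix.conjTranspose_apply, RCLike.inner_apply', Complex.star_def]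
  set S : Submodule ℂ (EuclideanSpace ℂ (Fin n × Fin n)) :=
    (Subalgebra.toSubmodule A.toSubalgebra).map L with hS
  set b := stdOrthonormalBasis ℂ S with hb
  have hex : ∀ i, ∃ y ∈ A, L y = (b i : EuclideanSpace ℂ (Fin n × Fin n)) := by
    intro i
    obtain ⟨y, hy, hy'⟩ := (b i).2
    exact ⟨y, hy, hy'⟩
  choose a ha hLa using hex
  refine ⟨_, a, ha, fun y hy => Linj ?_⟩
  have hyS : L y ∈ S := ⟨y, hy, rfl⟩
  have h1 := b.sum_repr' ⟨L y, hyS⟩
  have h2 := congrArg (fun z : S => (z : EuclideanSpace ℂ (Fin n × Fin n))) h1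
  simp only [Submodule.coe_sum, Submodule.coe_smul, Submodule.coe_inner] at h2
  rw [← h2, map_sum]
  refine Finset.sum_congr rfl fun i _ => ?_
  rw [map_smul, hLa, ← Linner, hLa]

theorem mul_single_mul (B D : Matrix (Fin n) (Fin n) ℂ) (j k p q : Fin n) :
    (B * Matrix.single j k (1 : ℂ) * D : Matrix (Fin n) (Fin n) ℂ) p q = B p j * D k q := by
  rw [Matrix.mul_apply, Finset.sum_eq_single k]
  · congr 1
    rw [Matrix.mul_apply, Finset.sum_eq_single j]
    · simp
    · intro i _ hi
      simp [Ne.symm hi]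
    · simp
  · intro i _ hi
    have h1 : (B * Matrix.single j k (1 : ℂ)) p i = 0 := by
      rw [Matrix.mul_apply]
      refine Finset.sum_eq_zero fun l _ => ?_
      simp [Ne.symm hi]
    rw [h1, zero_mul]
  · simp

/-- a *-subalgebra has full corner at a minimal projection of its commutant -/
theorem burnside {f w : Matrix (Fin n) (Fin n) ℂ} (hf : MinP A f) (h1 : f * w = w)
    (h2 : w * f = w) : ∃ a ∈ A, a * f = w ∧
      ∀ g, PC A g → (∀ x, InC A x → g * x * f = 0) → a * g = 0 := by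
  obtain ⟨k, a, ha, hexp⟩ := exists_expansion A
  have hff := hf.1.1
  have hfs := hf.1.2.1
  have hfA := hf.1.2.2
  have hΦ : ∀ x, InC A (∑ i, a i * x * (a i)ᴴ) := by
    intro x b hb
    have e1 : ∀ i, b * a i = ∑ j, ((a j)ᴴ * b * a i).trace • a j := by
      intro i
      have h3 := hexp (b * a i) (mul_mem hb (ha i))
      simp only [← mul_assoc] at h3
      exact h3
    have e2 : ∀ i, (a i)ᴴ * b = ∑ j, ((a i)ᴴ * b * a j).trace • (a j)ᴴ := by
      intro i
      have h3 := hexp (bᴴ * a i) (mul_mem (star_mem hb) (ha i))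
      have h4 := congrArg Matrix.conjTranspose h3
      rw [Matrix.conjTranspose_mul, Matrix.conjTranspose_conjTranspose,
        Matrix.conjTranspose_sum] at h4
      refine h4.trans ?_
      refine Finset.sum_congr rfl fun j _ => ?_
      rw [Matrix.conjTranspose_smul, ← Matrix.trace_conjTranspose, Matrix.conjTranspose_mul,
        Matrix.conjTranspose_mul, Matrix.conjTranspose_conjTranspose,
        Matrix.conjTranspose_conjTranspose]
    rw [Finset.mul_sum, Finset.sum_mul]
    have e3 : ∀ i, b * (a i * x * (a i)ᴴ)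
        = ∑ j, ((a j)ᴴ * b * a i).trace • (a j * x * (a i)ᴴ) := by
      intro i
      rw [← mul_assoc, ← mul_assoc, e1, Finset.sum_mul, Finset.sum_mul]
      refine Finset.sum_congr rfl fun j _ => ?_
      rw [smul_mul_assoc, smul_mul_assoc]
    have e4 : ∀ i, (a i * x * (a i)ᴴ) * b
        = ∑ j, ((a i)ᴴ * b * a j).trace • (a i * x * (a j)ᴴ) := by
      intro i
      have h5 := congrArg (fun z => a i * x * z) (e2 i)
      simp only [Finset.mul_sum, mul_smul_comm] at h5
      rw [mul_assoc (a i * x)]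
      exact h5
    rw [Finset.sum_congr rfl fun i _ => e3 i, Finset.sum_congr rfl fun i _ => e4 i,
      Finset.sum_comm]
  have hh : InC A (∑ i, (a i)ᴴ * a i) := by
    intro b hb
    have e1 : ∀ i, a i * b = ∑ j, ((a j)ᴴ * a i * b).trace • a j := by
      intro i
      have h3 := hexp (a i * b) (mul_mem (ha i) hb)
      simp only [← mul_assoc] at h3
      exact h3
    have e2 : ∀ i, b * (a i)ᴴ = ∑ j, (b * (a i)ᴴ * a j).trace • (a j)ᴴ := by
      intro i
      have h3 := hexp (a i * bᴴ) (mul_mem (ha i) (star_mem hb))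
      have h4 := congrArg Matrix.conjTranspose h3
      rw [Matrix.conjTranspose_mul, Matrix.conjTranspose_conjTranspose,
        Matrix.conjTranspose_sum] at h4
      refine h4.trans ?_
      refine Finset.sum_congr rfl fun j _ => ?_
      rw [Matrix.conjTranspose_smul, ← Matrix.trace_conjTranspose, Matrix.conjTranspose_mul,
        Matrix.conjTranspose_mul, Matrix.conjTranspose_conjTranspose,
        Matrix.conjTranspose_conjTranspose]
    rw [Finset.mul_sum, Finset.sum_mul]
    have e3 : ∀ i, b * ((a i)ᴴ * a i) = ∑ j, (b * (a i)ᴴ * a j).trace • ((a j)ᴴ * a i) := by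
      intro i
      have h5 := congrArg (fun z => z * a i) (e2 i)
      simp only [Finset.sum_mul, smul_mul_assoc] at h5
      rw [← mul_assoc]
      exact h5
    have e4 : ∀ i, ((a i)ᴴ * a i) * b = ∑ j, (b * (a j)ᴴ * a i).trace • ((a i)ᴴ * a j) := by
      intro i
      have h5 := congrArg (fun z => (a i)ᴴ * z) (e1 i)
      simp only [Finset.mul_sum, mul_smul_comm] at h5
      rw [mul_assoc]
      refine h5.trans ?_
      refine Finset.sum_congr rfl fun j _ => ?_
      rw [Matrix.trace_mul_comm, ← mul_assoc]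
    rw [Finset.sum_congr rfl fun i _ => e3 i, Finset.sum_congr rfl fun i _ => e4 i,
      Finset.sum_comm]
  set H := ∑ i, (a i)ᴴ * a i with hH
  have hstar : ∀ i, (a i)ᴴ ∈ A := fun i => star_mem (ha i)
  have Hf : H * f = f * H := by
    rw [hH, Finset.sum_mul, Finset.mul_sum]
    refine Finset.sum_congr rfl fun i _ => ?_
    rw [mul_assoc, hfA _ (ha i), ← mul_assoc, hfA _ (hstar i), mul_assoc]
  obtain ⟨lam, hlam⟩ := corner_scalar (x := H * f) hf (hh.mul hf.1.2.2)
    (by rw [Hf, ← mul_assoc, hff]) (by rw [mul_assoc, hff])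
  have tf0 : f.trace ≠ 0 := by
    intro h3
    refine hf.2.1 (trace_self_eq_zero ?_)
    rw [hfs, hff, h3]
  have lam0 : lam ≠ 0 := by
    intro h3
    rw [h3, zero_smul] at hlam
    have h4 : ∑ i, (((a i * f)ᴴ * (a i * f)).trace).re = 0 := by
      have h5 : ∑ i, ((a i * f)ᴴ * (a i * f)).trace = (f * (H * f)).trace := by
        rw [hH, Finset.sum_mul, Finset.mul_sum, Matrix.trace_sum]
        refine Finset.sum_congr rfl fun i _ => ?_
        rw [Matrix.conjTranspose_mul, hfs]
        simp only [mul_assoc]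
      rw [← Complex.re_sum, h5, hlam, mul_zero, Matrix.trace_zero, Complex.zero_re]
    have hnn : ∀ y : Matrix (Fin n) (Fin n) ℂ, 0 ≤ ((yᴴ * y).trace).re := by
      intro y
      rcases Nat.eq_zero_or_pos n with h5 | h5
      · subst h5
        rw [Subsingleton.elim (yᴴ * y) 0, Matrix.trace_zero, Complex.zero_re]
      · have h6 := nsq_nonneg y
        unfold nsq at h6
        have h7 : (0 : ℝ) < n := by exact_mod_cast h5
        have h8 := mul_nonneg h6 h7.le
        rwa [div_mul_cancel₀ _ h7.ne'] at h8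
    have hreal : ∀ y : Matrix (Fin n) (Fin n) ℂ, (yᴴ * y).trace.im = 0 := by
      intro y
      have h9 : (yᴴ * y).trace = star (yᴴ * y).trace := by
        rw [← Matrix.trace_conjTranspose, Matrix.conjTranspose_mul,
          Matrix.conjTranspose_conjTranspose]
      have h11 := congrArg Complex.im h9
      rw [Complex.star_def, Complex.conj_im] at h11
      linarith
    have h5 := (Finset.sum_eq_zero_iff_of_nonneg fun i _ => hnn (a i * f)).1 h4
    have h6 : ∀ i, a i * f = 0 := by
      intro i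
      have h7 := h5 i (Finset.mem_univ i)
      have h8 : nsq (a i * f) = 0 := by
        unfold nsq
        rw [h7, zero_div]
      refine trace_self_eq_zero ?_
      exact Complex.ext h7 (hreal _)
    refine hf.2.1 ?_
    have h7 := congrArg (fun z => z * f) (hexp 1 (one_mem A))
    simp only [one_mul, Finset.sum_mul, smul_mul_assoc, h6, smul_zero, Finset.sum_const_zero] at h7
    exact h7
  have hkey : ∀ j k p q, f.trace * ∑ i, (a i * f) p j * (f * (a i)ᴴ) k q
      = lam * (f k j * f p q) := by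
    intro j k p q
    set x := f * Matrix.single j k 1 * f with hx
    have hfx : f * x = x := by rw [hx, ← mul_assoc, ← mul_assoc, hff]
    have hxf : x * f = x := by rw [hx, mul_assoc, hff]
    obtain ⟨c, hc⟩ := corner_scalar (x := ∑ i, a i * x * (a i)ᴴ) hf (hΦ x)
      (by
        rw [Finset.mul_sum]
        refine Finset.sum_congr rfl fun i _ => ?_
        rw [← mul_assoc, ← mul_assoc, ← hfA _ (ha i), mul_assoc (a i), hfx])
      (by
        rw [Finset.sum_mul]
        refine Finset.sum_congr rfl fun i _ => ?_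
        rw [mul_assoc, hfA _ (hstar i), ← mul_assoc, mul_assoc (a i), hxf])
    have hct : c * f.trace = lam * f k j := by
      have h3 := congrArg Matrix.trace hc
      rw [Matrix.trace_smul, smul_eq_mul] at h3
      rw [← h3, Matrix.trace_sum]
      have h4 : ∑ i, (a i * x * (a i)ᴴ).trace = (H * x).trace := by
        rw [hH, Finset.sum_mul, Matrix.trace_sum]
        refine Finset.sum_congr rfl fun i _ => ?_
        rw [Matrix.trace_mul_comm, ← mul_assoc]
      have h5 : (f * Matrix.single j k (1 : ℂ) * f : Matrix (Fin n) (Fin n) ℂ).trace = f k j := by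
        rw [Matrix.trace]
        simp only [Matrix.diag_apply, mul_single_mul]
        nth_rw 3 [← hff]
        rw [Matrix.mul_apply]
        exact Finset.sum_congr rfl fun q _ => mul_comm _ _
      rw [h4, hx, ← mul_assoc, ← mul_assoc, hlam, smul_mul_assoc, smul_mul_assoc,
        Matrix.trace_smul, h5, smul_eq_mul]
    have h3 := congrFun (congrFun hc p) q
    rw [Matrix.sum_apply, Matrix.smul_apply, smul_eq_mul] at h3
    have h4 : ∑ i, (a i * f) p j * (f * (a i)ᴴ) k q = c * f p q := by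
      rw [← h3]
      refine Finset.sum_congr rfl fun i _ => ?_
      rw [← mul_single_mul, hx]
      simp only [mul_assoc]
    rw [h4, ← mul_assoc, mul_comm f.trace, hct, mul_assoc]
  have e1 : ∀ i, (f * (a i)ᴴ * w).trace = ∑ k, ∑ q, (f * (a i)ᴴ) k q * w q k := by
    intro i
    rw [Matrix.trace]
    refine Finset.sum_congr rfl fun k _ => ?_
    rw [Matrix.diag_apply, Matrix.mul_apply]
  have e2 : ∀ (g : Matrix (Fin n) (Fin n) ℂ) (p j : Fin n) (i : Fin k), (((f.trace * lam⁻¹ * (f * (a i)ᴴ * w).trace) • a i) * g) p j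
      = lam⁻¹ * ∑ k, ∑ q, w q k * (f.trace * ((a i * g) p j * (f * (a i)ᴴ) k q)) := by
    intro g p j i
    rw [smul_mul_assoc, Matrix.smul_apply, smul_eq_mul, e1, Finset.mul_sum, Finset.sum_mul,
      Finset.mul_sum]
    refine Finset.sum_congr rfl fun k _ => ?_
    rw [Finset.mul_sum, Finset.sum_mul, Finset.mul_sum]
    refine Finset.sum_congr rfl fun q _ => ?_
    ring
  refine ⟨∑ i, (f.trace * lam⁻¹ * (f * (a i)ᴴ * w).trace) • a i,
    sum_mem fun i _ => A.smul_mem (ha i) _, ?_, ?_⟩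
  swap
  · intro g hg hgf
    ext p j
    rw [Finset.sum_mul, Matrix.sum_apply, Finset.sum_congr rfl fun i _ => e2 g p j i,
      ← Finset.mul_sum, Finset.sum_comm]
    have e4 : ∀ j k p q, ∑ i, (a i * g) p j * (f * (a i)ᴴ) k q = 0 := by
      intro j k p q
      set x := g * Matrix.single j k 1 * f with hx
      have hgx : g * x = x := by rw [hx, ← mul_assoc, ← mul_assoc, hg.1]
      have hxf : x * f = x := by rw [hx, mul_assoc, hff]
      have e5 : g * (∑ i, a i * x * (a i)ᴴ) * f = ∑ i, a i * x * (a i)ᴴ := by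
        rw [Finset.mul_sum, Finset.sum_mul]
        refine Finset.sum_congr rfl fun i _ => ?_
        rw [mul_assoc, mul_assoc (a i * x), hfA _ (hstar i), ← mul_assoc (a i * x),
          mul_assoc (a i), hxf, ← mul_assoc, ← mul_assoc, ← hg.2.2 _ (ha i), mul_assoc (a i), hgx]
      rw [hgf _ (hΦ x)] at e5
      have e6 := congrFun (congrFun e5 p) q
      rw [Matrix.sum_apply] at e6
      refine Eq.trans ?_ e6.symm
      refine Finset.sum_congr rfl fun i _ => ?_
      rw [← mul_single_mul, hx]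
      simp only [mul_assoc]
    rw [Finset.sum_eq_zero, mul_zero]
    · rfl
    · intro k _
      rw [Finset.sum_comm]
      refine Finset.sum_eq_zero fun q _ => ?_
      rw [← Finset.mul_sum, ← Finset.mul_sum, e4, mul_zero, mul_zero]
  ext p j
  rw [Finset.sum_mul, Matrix.sum_apply]
  rw [Finset.sum_congr rfl fun i _ => e2 f p j i, ← Finset.mul_sum, Finset.sum_comm]
  have e3 : ∀ k, ∑ i, ∑ q, w q k * (f.trace * ((a i * f) p j * (f * (a i)ᴴ) k q))
      = lam * ((f * w) p k * f k j) := by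
    intro k
    rw [Finset.sum_comm, Matrix.mul_apply, Finset.sum_mul, Finset.mul_sum]
    refine Finset.sum_congr rfl fun q _ => ?_
    rw [← Finset.mul_sum, ← Finset.mul_sum, hkey]
    ring
  rw [Finset.sum_congr rfl fun k _ => e3 k, ← Finset.mul_sum, ← Matrix.mul_apply, h1, h2,
    ← mul_assoc, inv_mul_cancel₀ lam0, one_mul]

theorem trace_self_im (y : Matrix (Fin n) (Fin n) ℂ) : (yᴴ * y).trace.im = 0 := by
  have h9 : (yᴴ * y).trace = star (yᴴ * y).trace := by
    rw [← Matrix.trace_conjTranspose, Matrix.conjTranspose_mul,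
      Matrix.conjTranspose_conjTranspose]
  have h11 := congrArg Complex.im h9
  rw [Complex.star_def, Complex.conj_im] at h11
  linarith

theorem eq_zero_of_nsq {x : Matrix (Fin n) (Fin n) ℂ} (h : nsq x ≤ 0) : x = 0 := by
  rcases Nat.eq_zero_or_pos n with h5 | h5
  · subst h5
    exact Subsingleton.elim _ _
  · refine trace_self_eq_zero (Complex.ext ?_ (trace_self_im x))
    have h6 := le_antisymm h (nsq_nonneg x)
    unfold nsq at h6
    have h7 : (n : ℝ) ≠ 0 := by exact_mod_cast h5.ne'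
    exact (div_eq_zero_iff.1 h6).resolve_right h7

/-- lifts of elements of the corner without increase of the norm -/
theorem exists_bdd_lift {f w : Matrix (Fin n) (Fin n) ℂ} {C : ℝ} (hf : MinP A f)
    (h1 : f * w = w) (h2 : w * f = w) (hC : 0 ≤ C) (hwC : ‖w‖ ≤ C) :
    ∃ a ∈ A, a * f = w ∧ ‖a‖ ≤ C ∧
      ∀ g, PC A g → (∀ x, InC A x → g * x * f = 0) → a * g = 0 := by
  obtain ⟨a, ha, haf, hag⟩ := burnside hf h1 h2
  have hff := hf.1.1
  have hfs := hf.1.2.1
  have hhs : (aᴴ * a)ᴴ = aᴴ * a := by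
    rw [Matrix.conjTranspose_mul, Matrix.conjTranspose_conjTranspose]
  obtain ⟨W, l, hw1, hw2, he⟩ := exists_spec (aᴴ * a) hhs
  have hl : ∀ i, 0 ≤ l i := by
    intro i
    have h3 : Wᴴ * (aᴴ * a) * W = Matrix.diagonal fun i => (l i : ℂ) := by
      rw [he]
      calc Wᴴ * (W * (Matrix.diagonal fun i => (l i : ℂ)) * Wᴴ) * W
          = (Wᴴ * W) * (Matrix.diagonal fun i => (l i : ℂ)) * (Wᴴ * W) := by
            simp only [Matrix.mul_assoc]
        _ = _ := by rw [hw1, Matrix.one_mul, Matrix.mul_one]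
    have h4 := congrFun (congrFun h3 i) i
    have h5 : Wᴴ * (aᴴ * a) * W = (a * W)ᴴ * (a * W) := by
      rw [Matrix.conjTranspose_mul]
      simp only [Matrix.mul_assoc]
    rw [h5, Matrix.mul_apply, Matrix.diagonal_apply_eq] at h4
    have h6 := congrArg Complex.re h4
    rw [Complex.re_sum, Complex.ofReal_re] at h6
    rw [← h6]
    refine Finset.sum_nonneg fun j _ => ?_
    rw [Matrix.conjTranspose_apply, RCLike.star_def, ← Complex.normSq_eq_conj_mul_self,
      Complex.ofReal_re]
    exact Complex.normSq_nonneg _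
  obtain ⟨q, -, hq⟩ := exists_poly hw1 hw2 l (fun z => if z ≤ C ^ 2 then 1 else 0)
  rw [← he] at hq
  have hmem : aᴴ * a ∈ A := mul_mem (star_mem ha) ha
  have hmem' : aᴴ * a ∈ A.toSubalgebra := hmem
  have hχA : aeval (aᴴ * a) q ∈ A := aeval_mem_of hmem' q
  rw [hq] at hχA
  set χ := W * (Matrix.diagonal fun i => if l i ≤ C ^ 2 then (1 : ℂ) else 0) * Wᴴ with hχ
  set γ := W * (Matrix.diagonal fun i => if l i ≤ C ^ 2 then (0 : ℂ) else 1) * Wᴴ with hγ
  set ρ := W * (Matrix.diagonal fun i => if l i ≤ C ^ 2 then (0 : ℂ)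
    else (Real.sqrt (l i - C ^ 2) : ℂ)) * Wᴴ with hρ
  set σ := W * (Matrix.diagonal fun i => if l i ≤ C ^ 2 then (0 : ℂ)
    else ((Real.sqrt (l i - C ^ 2) : ℂ))⁻¹) * Wᴴ with hσ
  have hsum : χ + γ = 1 := by
    rw [hχ, hγ, ← conjHom_apply W hw1 hw2, ← conjHom_apply W hw1 hw2, ← map_add,
      ← map_one (conjHom W hw1 hw2)]
    congr 1
    funext i
    show (if l i ≤ C ^ 2 then (1 : ℂ) else 0) + (if l i ≤ C ^ 2 then (0 : ℂ) else 1) = 1
    split_ifs <;> simp
  have hγA : γ ∈ A := by
    have h3 : γ = 1 - χ := by rw [← hsum, add_sub_cancel_left]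
    rw [h3]
    exact sub_mem (one_mem A) hχA
  have hγf : γ * f = f * γ := hf.1.2.2 γ hγA
  have hpos : ∀ i, ¬ l i ≤ C ^ 2 → Real.sqrt (l i - C ^ 2) * Real.sqrt (l i - C ^ 2)
      = l i - C ^ 2 := by
    intro i hi
    exact Real.mul_self_sqrt (by linarith [not_le.1 hi])
  have hσρ : σ * ρ = γ := by
    rw [hσ, hρ, conj_mul W hw1 hw2, hγ]
    congr 3
    funext i
    split_ifs with hi
    · simp
    · have h3 : Real.sqrt (l i - C ^ 2) ≠ 0 :=
        (Real.sqrt_pos.2 (by linarith [not_le.1 hi])).ne'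
      have h4 : (Real.sqrt (l i - C ^ 2) : ℂ) ≠ 0 := by exact_mod_cast h3
      exact inv_mul_cancel₀ h4
  have hγs : γᴴ = γ := conj_star W _ fun i => by split_ifs <;> simp
  have hρs : ρᴴ = ρ := conj_star W _ fun i => by
    split_ifs
    · simp
    · exact Complex.conj_ofReal _
  have hχs : χᴴ = χ := conj_star W _ fun i => by split_ifs <;> simp
  have hρρ : ρ * ρ = γ * (aᴴ * a) * γ - ((C ^ 2 : ℝ) : ℂ) • (γ * γ) := by
    rw [he, hρ, hγ, conj_mul W hw1 hw2, conj_mul W hw1 hw2, conj_mul W hw1 hw2,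
      conj_mul W hw1 hw2, ← conjHom_apply W hw1 hw2, ← conjHom_apply W hw1 hw2,
      ← conjHom_apply W hw1 hw2, ← map_smul, ← map_sub]
    congr 1
    funext i
    rw [Pi.sub_apply, Pi.smul_apply, smul_eq_mul]
    by_cases hi : l i ≤ C ^ 2
    · simp [hi]
    · simp only [hi, if_false]
      have h3 := hpos i hi
      have h4 : (Real.sqrt (l i - C ^ 2) : ℂ) * (Real.sqrt (l i - C ^ 2) : ℂ)
          = ((l i - C ^ 2 : ℝ) : ℂ) := by exact_mod_cast h3
      rw [h4]
      push_cast
      ring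
  clear_value χ γ ρ σ
  have hwγ : w * (γ * f) = a * γ * f := by
    rw [← haf, mul_assoc a f, ← mul_assoc f γ, ← hγf, mul_assoc γ f f, hff, mul_assoc]
  have hkey : nsq (ρ * f) = nsq (w * (γ * f)) - C ^ 2 * nsq (γ * f) := by
    have e1 : (ρ * f)ᴴ * (ρ * f) = (w * (γ * f))ᴴ * (w * (γ * f))
        - ((C ^ 2 : ℝ) : ℂ) • ((γ * f)ᴴ * (γ * f)) := by
      rw [hwγ, Matrix.conjTranspose_mul, Matrix.conjTranspose_mul, Matrix.conjTranspose_mul,
        Matrix.conjTranspose_mul, hρs, hγs, hfs]
      calc f * ρ * (ρ * f) = f * (ρ * ρ) * f := by simp only [mul_assoc]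
        _ = f * (γ * (aᴴ * a) * γ) * f - ((C ^ 2 : ℝ) : ℂ) • (f * (γ * γ) * f) := by
            rw [hρρ, mul_sub, sub_mul, mul_smul_comm, smul_mul_assoc]
        _ = f * (γ * aᴴ) * (a * γ * f) - ((C ^ 2 : ℝ) : ℂ) • (f * γ * (γ * f)) := by
            simp only [mul_assoc]
    unfold nsq
    rw [e1, Matrix.trace_sub, Matrix.trace_smul, Complex.sub_re, smul_eq_mul, Complex.re_ofReal_mul]
    ring
  have hle := nsq_mul_le w (γ * f)
  have hle2 : ‖w‖ ^ 2 * nsq (γ * f) ≤ C ^ 2 * nsq (γ * f) :=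
    mul_le_mul_of_nonneg_right (pow_le_pow_left₀ (norm_nonneg _) hwC 2) (nsq_nonneg _)
  have hρf : ρ * f = 0 := eq_zero_of_nsq (by linarith)
  have hγf0 : γ * f = 0 := by rw [← hσρ, mul_assoc, hρf, mul_zero]
  have hχf : χ * f = f := by
    have h3 := congrArg (fun z => z * f) hsum
    simp only [add_mul, one_mul, hγf0, add_zero] at h3
    exact h3
  refine ⟨a * χ, mul_mem ha hχA, by rw [mul_assoc, hχf, haf], ?_, ?_⟩
  swap
  · intro g hg hgf
    rw [mul_assoc, hg.2.2 χ hχA, ← mul_assoc, hag g hg hgf, zero_mul]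
  have h3 : ‖(a * χ)ᴴ * (a * χ)‖ ≤ C ^ 2 := by
    have e1 : (a * χ)ᴴ * (a * χ) = χ * (aᴴ * a) * χ := by
      rw [Matrix.conjTranspose_mul, hχs]
      simp only [mul_assoc]
    rw [e1, he, hχ, conj_mul W hw1 hw2, conj_mul W hw1 hw2]
    have h4 := norm_conj_le (v := Wᴴ)
      (by rw [Matrix.conjTranspose_conjTranspose]; exact hw1)
      (Matrix.diagonal fun i => (if l i ≤ C ^ 2 then (1 : ℂ) else 0) * (l i : ℂ)
        * (if l i ≤ C ^ 2 then (1 : ℂ) else 0))
    rw [Matrix.conjTranspose_conjTranspose] at h4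
    refine h4.trans ?_
    rw [Matrix.l2_opNorm_diagonal]
    refine (pi_norm_le_iff_of_nonneg (sq_nonneg C)).2 fun i => ?_
    split_ifs with hi
    · rw [one_mul, mul_one, Complex.norm_real, Real.norm_eq_abs, abs_of_nonneg (hl i)]
      exact hi
    · rw [zero_mul, zero_mul, norm_zero]
      positivity
  rw [Matrix.l2_opNorm_conjTranspose_mul_self] at h3
  by_contra h4
  have h5 := not_le.1 h4
  nlinarith

/-- minimal projections of the commutant are equivalent, unless they are disjoint -/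
theorem exists_pi {f g x : Matrix (Fin n) (Fin n) ℂ} (hf : MinP A f) (hg : MinP A g)
    (hx : InC A x) (h0 : g * x * f ≠ 0) : ∃ v, InC A v ∧ vᴴ * v = f ∧ v * vᴴ = g := by
  set w := g * x * f with hw
  have hwC : InC A w := (hg.1.2.2.mul hx).mul hf.1.2.2
  have hgw : g * w = w := by rw [hw, ← mul_assoc, ← mul_assoc, hg.1.1]
  have hwf : w * f = w := by rw [hw, mul_assoc, hf.1.1]
  have hfw : f * wᴴ = wᴴ := by
    have h4 := congrArg Matrix.conjTranspose hwf
    rwa [Matrix.conjTranspose_mul, hf.1.2.1] at h4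
  have hwg : wᴴ * g = wᴴ := by
    have h4 := congrArg Matrix.conjTranspose hgw
    rwa [Matrix.conjTranspose_mul, hg.1.2.1] at h4
  obtain ⟨c, hc⟩ := corner_scalar (x := wᴴ * w) hf (hwC.star.mul hwC)
    (by rw [← mul_assoc, hfw]) (by rw [mul_assoc, hwf])
  obtain ⟨c', hc'⟩ := corner_scalar (x := w * wᴴ) hg (hwC.mul hwC.star)
    (by rw [← mul_assoc, hgw]) (by rw [mul_assoc, hwg])
  clear_value w
  have hcc : c = c' := by
    have h3 : c • w = c' • w := by
      calc c • w = w * (c • f) := by rw [mul_smul_comm, hwf]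
        _ = (w * wᴴ) * w := by rw [← hc, mul_assoc]
        _ = c' • w := by rw [hc', smul_mul_assoc, hgw]
    rw [← sub_eq_zero, ← sub_smul, smul_eq_zero] at h3
    exact sub_eq_zero.1 (h3.resolve_right h0)
  have hrk : (rk f : ℝ) ≠ 0 := by
    intro h3
    have h4 : rk f = 0 := by exact_mod_cast h3
    exact hf.2.1 (hf.1.eq_zero h4)
  have htr := congrArg Matrix.trace hc
  rw [Matrix.trace_smul, hf.1.rk_eq, smul_eq_mul] at htr
  have hcr : c = ((c.re : ℝ) : ℂ) := by
    have h3 := congrArg Complex.im htr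
    rw [trace_self_im, Complex.mul_im, Complex.natCast_im, Complex.natCast_re, mul_zero,
      zero_add] at h3
    have h4 : c.im = 0 := by
      rcases mul_eq_zero.1 h3.symm with h5 | h5
      · exact h5
      · exact absurd h5 hrk
    exact Complex.ext rfl (by rw [h4, Complex.ofReal_im])
  have hn : (0 : ℝ) < n := by
    rcases Nat.eq_zero_or_pos n with h5 | h5
    · subst h5
      exact absurd (Subsingleton.elim _ _) h0
    · exact_mod_cast h5
  have hcpos : 0 < c.re := by
    have h3 := congrArg Complex.re htr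
    rw [Complex.mul_re, Complex.natCast_im, Complex.natCast_re, mul_zero, sub_zero] at h3
    have h4 : 0 < nsq w := by
      rcases lt_or_ge 0 (nsq w) with h5 | h5
      · exact h5
      · exact absurd (eq_zero_of_nsq h5) h0
    have h5 : 0 < (wᴴ * w).trace.re := by
      unfold nsq at h4
      have h6 := mul_pos h4 hn
      rwa [div_mul_cancel₀ _ hn.ne'] at h6
    rw [h3] at h5
    have h6 : (0 : ℝ) < rk f := lt_of_le_of_ne (Nat.cast_nonneg _) hrk.symm
    exact (pos_iff_pos_of_mul_pos h5).2 h6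
  have hs : (((Real.sqrt c.re)⁻¹ : ℝ) : ℂ) * (((Real.sqrt c.re)⁻¹ : ℝ) : ℂ) * c = 1 := by
    rw [hcr]
    have h3 : (Real.sqrt c.re)⁻¹ * (Real.sqrt c.re)⁻¹ * c.re = 1 := by
      rw [← mul_inv, Real.mul_self_sqrt hcpos.le, inv_mul_cancel₀ hcpos.ne']
    rw [Complex.ofReal_re]
    exact_mod_cast h3
  refine ⟨(((Real.sqrt c.re)⁻¹ : ℝ) : ℂ) • w, hwC.smul _, ?_, ?_⟩
  · rw [Matrix.conjTranspose_smul, Complex.star_def, Complex.conj_ofReal, smul_mul_assoc,
      mul_smul_comm, smul_smul, hc, smul_smul, hs, one_smul]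
  · rw [Matrix.conjTranspose_smul, Complex.star_def, Complex.conj_ofReal, smul_mul_assoc,
      mul_smul_comm, smul_smul, hc', smul_smul, ← hcc, hs, one_smul]

theorem norm_proj_le {f : Matrix (Fin n) (Fin n) ℂ} (h : f * f = f) (hs : fᴴ = f) : ‖f‖ ≤ 1 := by
  have h1 := Matrix.l2_opNorm_conjTranspose_mul_self f
  rw [hs, h] at h1
  by_contra h2
  have h3 := not_le.1 h2
  nlinarith

theorem norm_pi_le {f v : Matrix (Fin n) (Fin n) ℂ} (h : f * f = f) (hs : fᴴ = f)
    (hv : vᴴ * v = f) : ‖v‖ ≤ 1 := by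
  have h1 := Matrix.l2_opNorm_conjTranspose_mul_self v
  rw [hv] at h1
  have h4 := norm_proj_le h hs
  by_contra h2
  have h3 := not_le.1 h2
  nlinarith

end Pool.Agent.MUF
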