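import Mathlib

/-!
# MUF: the gap between the index values 1 and 2, for an expectation on a corner

MP_a83bb2_an (helper13).
-/

set_option autoImplicit false

noncomputable section

namespace Pool.Agent.MUF

variable {A : Type} [Ring A] [StarRing A] [Algebra ℂ A] [StarModule ℂ A]

/-- a faithful tracial state, in the purely algebraic sense -/
structure IsState (τ : A →ₗ[ℂ] ℂ) : Prop where
  tr : ∀ x y, τ (x * y) = τ (y * x)
  st : ∀ x, τ (star x) = star (τ x)
  pos : ∀ x, 0 ≤ (τ (star x * x)).re
  faith : ∀ x, τ (star x * x) = 0 → x = 0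

/-- an expectation `F` of the corner `pAp` onto a subalgebra, with a basis `u` and index `δ` -/
structure IsCorner (τ : A →ₗ[ℂ] ℂ) (p : A) (F : A →ₗ[ℂ] A) {ι : Type} [Fintype ι] (u : ι → A)
    (δ : ℝ) : Prop where
  pp : p * p = p
  sp : star p = p
  pF : ∀ x, p * F x = F x
  Fp : ∀ x, F x * p = F x
  F1 : F p = p
  l : ∀ x y, F (F x * y) = F x * F y
  r : ∀ x y, F (x * F y) = F x * F y
  st : ∀ x, F (star x) = star (F x)
  tr : ∀ x, τ (F x) = τ (p * x)
  pu : ∀ j, p * u j = u j
  up : ∀ j, u j * p = u j
  basis : ∀ x, p * x = x → x * p = x → ∑ j, u j * F (star (u j) * x) = x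
  ind : ∑ j, u j * star (u j) = (δ : ℂ) • p

variable {τ : A →ₗ[ℂ] ℂ} {p : A} {F : A →ₗ[ℂ] A} {ι : Type} [Fintype ι] {u : ι → A} {δ : ℝ}

omit [StarModule ℂ A] in
theorem IsState.real (h : IsState τ) (x : A) : τ (star x * x) = ((τ (star x * x)).re : ℂ) := by
  have h1 := h.st (star x * x)
  rw [star_mul, star_star] at h1
  have h2 : (τ (star x * x)).im = 0 := by
    have h3 := congrArg Complex.im h1
    rw [Complex.star_def, Complex.conj_im] at h3
    linarith
  exact Complex.ext rfl (by rw [h2, Complex.ofReal_im])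

theorem gap (h : IsState τ) (hc : IsCorner τ p F u δ) (hp : 0 < (τ p).re) (hδ : δ < 2) (x : A)
    (hx : p * x = x) (hx' : x * p = x) : F x = x := by
  classical
  -- the trace of the projection is real
  have hpr : τ p = ((τ p).re : ℂ) := by
    have h1 := h.real p
    rw [hc.sp, hc.pp] at h1
    exact h1
  have FF : ∀ x, F (F x) = F x := by
    intro x
    have h1 := hc.l x p
    rw [hc.Fp, hc.F1, hc.Fp] at h1
    exact h1
  have pus : ∀ j, star (u j) * p = star (u j) := by
    intro j
    have h1 := congrArg star (hc.pu j)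
    rwa [star_mul, hc.sp] at h1
  have ups : ∀ j, p * star (u j) = star (u j) := by
    intro j
    have h1 := congrArg star (hc.up j)
    rwa [star_mul, hc.sp] at h1
  set v : ι → A := fun j => u j - F (u j) with hv
  have pv : ∀ j, p * v j = v j := by
    intro j
    simp only [hv]
    rw [mul_sub, hc.pu, hc.pF]
  have vp : ∀ j, v j * p = v j := by
    intro j
    simp only [hv]
    rw [sub_mul, hc.up, hc.Fp]
  have svp : ∀ j, star (v j) * p = star (v j) := by
    intro j
    have h1 := congrArg star (pv j)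
    rwa [star_mul, hc.sp] at h1
  have psv : ∀ j, p * star (v j) = star (v j) := by
    intro j
    have h1 := congrArg star (vp j)
    rwa [star_mul, hc.sp] at h1
  have Fv : ∀ j, F (v j) = 0 := by
    intro j
    simp only [hv]
    rw [map_sub, FF, sub_self]
  have Fsv : ∀ j, F (star (v j)) = 0 := by
    intro j
    rw [hc.st, Fv, star_zero]
  -- sum of `E(u) E(u)*`
  have ha : ∑ j, F (u j) * F (star (u j)) = p := by
    have h1 := hc.basis p hc.pp hc.pp
    have h2 := congrArg F h1
    rw [map_sum, hc.F1] at h2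
    rw [← h2]
    refine Finset.sum_congr rfl fun j _ => ?_
    rw [hc.r, pus]
  -- sum of `E(v v*)`
  have hb : ∑ j, F (v j * star (v j)) = ((δ - 1 : ℝ) : ℂ) • p := by
    have h1 : ∀ j, F (v j * star (v j)) = F (u j * star (u j)) - F (u j) * F (star (u j)) := by
      intro j
      simp only [hv]
      rw [star_sub, sub_mul, mul_sub, mul_sub, ← hc.st (u j), map_sub, map_sub, map_sub, hc.r, hc.l,
        hc.r, FF]
      abel
    rw [Finset.sum_congr rfl fun j _ => h1 j, Finset.sum_sub_distrib, ha, ← map_sum, hc.ind,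
      map_smul, hc.F1]
    push_cast
    rw [sub_smul, one_smul]
  -- expansion of the elements with expectation 0
  have hcx : ∀ x, p * x = x → x * p = x → F x = 0 → ∑ j, v j * F (star (v j) * x) = x := by
    intro x h1 h2 h3
    have h4 : ∀ j, v j * F (star (v j) * x) = u j * F (star (u j) * x)
        - F (u j * F (star (u j) * x)) := by
      intro j
      have h5 : F (star (v j) * x) = F (star (u j) * x) := by
        simp only [hv]
        rw [star_sub, sub_mul, map_sub, ← hc.st, hc.l, h3, mul_zero, sub_zero]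
      rw [h5, hc.r]
      simp only [hv]
      rw [sub_mul]
    rw [Finset.sum_congr rfl fun j _ => h4 j, Finset.sum_sub_distrib, ← map_sum, hc.basis x h1 h2,
      h3, sub_zero]
  -- the Gram form
  have hF : ∀ a a', p * a' = a' → a' * p = a' →
      ∑ k, star (F (star (u k) * a)) * F (star (u k) * a') = F (star a * a') := by
    intro a a' h1 h2
    have h3 := congrArg (fun z => F (star a * z)) (hc.basis a' h1 h2)
    simp only [Finset.mul_sum, map_sum] at h3
    rw [← h3]
    refine Finset.sum_congr rfl fun k _ => ?_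
    rw [← mul_assoc, hc.r, ← hc.st, star_mul, star_star]
  have trF : ∀ x, p * x = x → τ (F x) = τ x := by
    intro x h1
    rw [hc.tr, h1]
  set b : ι → ι → A := fun i j => F (v i * v j) with hbdef
  have bF : ∀ i j x, F (b i j * x) = b i j * F x := fun i j x => hc.l _ _
  have sb : ∀ i j, star (b i j) = F (star (v j) * star (v i)) := by
    intro i j
    simp only [hbdef]
    rw [← hc.st, star_mul]
  have sbF : ∀ i j x, F (star (b i j) * x) = star (b i j) * F x := by
    intro i j x
    rw [sb, hc.l]
  have pb : ∀ i j, p * b i j = b i j := fun i j => hc.pF _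
  have bp : ∀ i j, b i j * p = b i j := fun i j => hc.Fp _
  have psb : ∀ i j, p * star (b i j) = star (b i j) := by
    intro i j
    rw [sb, hc.pF]
  -- real numbers
  set T : ℝ := (τ p).re with hT
  -- the sum of the traces of v v*
  have e1 : ∑ j, τ (v j * star (v j)) = (((δ - 1) * T : ℝ) : ℂ) := by
    have h1 := congrArg τ hb
    rw [map_sum, map_smul, smul_eq_mul, hpr] at h1
    rw [← Finset.sum_congr rfl fun j _ => trF (v j * star (v j)) (by rw [← mul_assoc, pv]), h1]
    push_cast
    rfl
  -- the sum of the squares of b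
  have e2 : ∑ i, ∑ j, τ (star (b i j) * b i j) = (((δ - 1) * T : ℝ) : ℂ) := by
    rw [← e1]
    refine Finset.sum_congr rfl fun i _ => ?_
    have h1 := hcx (star (v i)) (psv i) (svp i) (Fsv i)
    rw [← trF (v i * star (v i)) (by rw [← mul_assoc, pv])]
    rw [← h1, Finset.mul_sum, map_sum, map_sum]
    refine Finset.sum_congr rfl fun j _ => ?_
    rw [h.tr, sb, ← mul_assoc, hc.r]
  -- the four terms
  have e3 : ∀ i j, ∑ l', ∑ l, τ (v l * F (star (v l) * (star (b i j) * b i j * v l')) * star (v l'))
      = ((δ - 1 : ℝ) : ℂ) * τ (star (b i j) * b i j) := by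
    intro i j
    have h1 : ∀ l', ∑ l, τ (v l * F (star (v l) * (star (b i j) * b i j * v l')) * star (v l'))
        = τ (star (b i j) * b i j * F (v l' * star (v l'))) := by
      intro l'
      rw [← map_sum, ← Finset.sum_mul, hcx]
      · rw [← trF, mul_assoc, mul_assoc, mul_assoc, sbF, bF]
        rw [← mul_assoc, ← mul_assoc, ← mul_assoc, psb]
      · rw [← mul_assoc, ← mul_assoc, psb]
      · rw [mul_assoc, vp]
      · rw [mul_assoc, sbF, bF, Fv, mul_zero, mul_zero]
    rw [Finset.sum_congr rfl fun l' _ => h1 l', ← map_sum, ← Finset.mul_sum, hb, mul_smul_comm,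
      map_smul, mul_assoc, bp, smul_eq_mul]
  have e4 : ∀ i j, ∑ l, τ (v l * F (star (v l) * (star (b i j) * v i)) * v j)
      = τ (star (b i j) * b i j) := by
    intro i j
    rw [← map_sum, ← Finset.sum_mul, hcx]
    · rw [← trF, mul_assoc, sbF]
      rw [← mul_assoc, ← mul_assoc, psb]
    · rw [← mul_assoc, psb]
    · rw [mul_assoc, vp]
    · rw [sbF, Fv, mul_zero]
  have e5 : ∑ i, ∑ j, τ (star (v j) * F (star (v i) * v i) * v j)
      = (((δ - 1) * ((δ - 1) * T) : ℝ) : ℂ) := by
    have h1 : ∀ i, ∑ j, τ (star (v j) * F (star (v i) * v i) * v j)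
        = ((δ - 1 : ℝ) : ℂ) * τ (v i * star (v i)) := by
      intro i
      have h2 : ∀ j, τ (star (v j) * F (star (v i) * v i) * v j)
          = τ (F (star (v i) * v i) * F (v j * star (v j))) := by
        intro j
        rw [h.tr, ← mul_assoc, ← trF (v j * star (v j) * F (star (v i) * v i))
          (by rw [← mul_assoc, ← mul_assoc, pv]), hc.r, h.tr]
      rw [Finset.sum_congr rfl fun j _ => h2 j, ← map_sum, ← Finset.mul_sum, hb, mul_smul_comm,
        map_smul, hc.Fp, smul_eq_mul, trF, h.tr]
      rw [← mul_assoc, psv]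
    rw [Finset.sum_congr rfl fun i _ => h1 i, ← Finset.mul_sum, e1]
    push_cast
    rfl
  have hg : ∀ a c a' c', p * a' = a' → a' * p = a' →
      ∑ k, τ (star (F (star (u k) * a) * c) * (F (star (u k) * a') * c'))
        = τ (star c * F (star a * a') * c') := by
    intro a c a' c' h1 h2
    rw [← hF a a' h1 h2, Finset.mul_sum, Finset.sum_mul, map_sum]
    refine Finset.sum_congr rfl fun k _ => ?_
    rw [star_mul, mul_assoc, mul_assoc, mul_assoc]
  set X : ι → ι → ι → ι → A := fun i j k l => F (star (u k) * (b i j * v l)) * star (v l) with hX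
  set Y : ι → ι → ι → A := fun i j k => F (star (u k) * v i) * v j with hY
  have pbv : ∀ i j l, p * (b i j * v l) = b i j * v l := by
    intro i j l
    rw [← mul_assoc, pb]
  have bvp : ∀ i j l, b i j * v l * p = b i j * v l := by
    intro i j l
    rw [mul_assoc, vp]
  have f1 : ∀ i j, ∑ k, ∑ l', ∑ l, τ (star (X i j k l) * X i j k l')
      = ((δ - 1 : ℝ) : ℂ) * τ (star (b i j) * b i j) := by
    intro i j
    rw [← e3 i j, Finset.sum_comm]
    refine Finset.sum_congr rfl fun l' _ => ?_
    rw [Finset.sum_comm]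
    refine Finset.sum_congr rfl fun l _ => ?_
    rw [hg _ _ _ _ (pbv i j l') (bvp i j l'), star_star, star_mul]
    simp only [mul_assoc]
  have f2 : ∀ i j, ∑ k, ∑ l, τ (star (X i j k l) * Y i j k) = τ (star (b i j) * b i j) := by
    intro i j
    rw [← e4 i j, Finset.sum_comm]
    refine Finset.sum_congr rfl fun l _ => ?_
    rw [hg _ _ _ _ (pv i) (vp i), star_star, star_mul]
    simp only [mul_assoc]
  have f3 : ∀ i j, ∑ k, ∑ l, τ (star (Y i j k) * X i j k l) = τ (star (b i j) * b i j) := by
    intro i j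
    have h1 := congrArg star (f2 i j)
    rw [← h.st, star_mul, star_star] at h1
    rw [← h1, star_sum]
    refine Finset.sum_congr rfl fun k _ => ?_
    rw [star_sum]
    refine Finset.sum_congr rfl fun l _ => ?_
    rw [← h.st, star_mul (star (X i j k l)), star_star]
  have f4 : ∀ i j, ∑ k, τ (star (Y i j k) * Y i j k)
      = τ (star (v j) * F (star (v i) * v i) * v j) := by
    intro i j
    exact hg _ _ _ _ (pv i) (vp i)
  have f5 : ∀ i j, ∑ k, τ (star (∑ l, X i j k l - Y i j k) * (∑ l, X i j k l - Y i j k))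
      = ((δ - 1 : ℝ) : ℂ) * τ (star (b i j) * b i j) - τ (star (b i j) * b i j)
        - (τ (star (b i j) * b i j) - τ (star (v j) * F (star (v i) * v i) * v j)) := by
    intro i j
    rw [← f1 i j, ← f4 i j]
    nth_rw 1 [← f2 i j]
    rw [← f3 i j, ← Finset.sum_sub_distrib, ← Finset.sum_sub_distrib, ← Finset.sum_sub_distrib]
    refine Finset.sum_congr rfl fun k _ => ?_
    rw [star_sub, star_sum, sub_mul, mul_sub, mul_sub, Finset.mul_sum, Finset.sum_mul,
      Finset.mul_sum, map_sub, map_sub, map_sub, map_sum, map_sum, map_sum]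
    simp only [Finset.sum_mul, map_sum]
  have f6 : ∑ i, ∑ j, ∑ k, τ (star (∑ l, X i j k l - Y i j k) * (∑ l, X i j k l - Y i j k))
      = ((2 * (δ - 1) * (δ - 2) * T : ℝ) : ℂ) := by
    rw [Finset.sum_congr rfl fun i _ => Finset.sum_congr rfl fun j _ => f5 i j]
    simp only [Finset.sum_sub_distrib, ← Finset.mul_sum]
    rw [e2, e5]
    push_cast
    ring
  have f7 : 0 ≤ 2 * (δ - 1) * (δ - 2) * T := by
    have h1 := congrArg Complex.re f6
    rw [Complex.ofReal_re] at h1
    rw [← h1, Complex.re_sum]
    refine Finset.sum_nonneg fun i _ => ?_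
    rw [Complex.re_sum]
    refine Finset.sum_nonneg fun j _ => ?_
    rw [Complex.re_sum]
    exact Finset.sum_nonneg fun k _ => h.pos _
  have f8 : 0 ≤ (δ - 1) * T := by
    have h1 := congrArg Complex.re e1
    rw [Complex.ofReal_re] at h1
    rw [← h1, Complex.re_sum]
    refine Finset.sum_nonneg fun j _ => ?_
    have h2 := h.pos (star (v j))
    rwa [star_star] at h2
  have hd1 : δ = 1 := by
    have h1 : 0 ≤ δ - 1 := by
      by_contra hcon
      push Not at hcon
      nlinarith
    by_contra hcon
    have h2 : 0 < δ - 1 := lt_of_le_of_ne h1 (fun h => hcon (by linarith))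
    have h3 : 0 < (δ - 1) * (2 - δ) * T := mul_pos (mul_pos h2 (by linarith)) hp
    nlinarith
  have hv0 : ∀ j, v j = 0 := by
    have h1 : ∑ j, (τ (v j * star (v j))).re = 0 := by
      rw [← Complex.re_sum, e1, hd1, sub_self, zero_mul, Complex.ofReal_re]
    have h2 : ∀ j, 0 ≤ (τ (v j * star (v j))).re := by
      intro j
      have h2 := h.pos (star (v j))
      rwa [star_star] at h2
    intro j
    have h3 := (Finset.sum_eq_zero_iff_of_nonneg fun j _ => h2 j).1 h1 j (Finset.mem_univ j)
    have h4 := h.real (star (v j))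
    rw [star_star, h3, Complex.ofReal_zero] at h4
    have h5 := h.faith (star (v j)) (by rw [star_star]; exact h4)
    exact star_eq_zero.1 h5
  have hFu : ∀ j, F (u j) = u j := fun j => (sub_eq_zero.1 (hv0 j)).symm
  have h1 := hc.basis x hx hx'
  have h2 := congrArg F h1
  rw [map_sum] at h2
  rw [← h2]
  conv_rhs => rw [← h1]
  refine Finset.sum_congr rfl fun j _ => ?_
  rw [hc.r, hFu]

end Pool.Agent.MUF
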