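import Pool.Agent.MUF.FinB
import Pool.Agent.MUF.Chain

/-!
# MUF: finite index subfactors which are ultraproducts of subalgebras; sequences of projections

MP_a83bb2_an (helper13).
-/

set_option autoImplicit false

open Filter Topology
open scoped Matrix Matrix.Norms.L2Operator

noncomputable section

namespace Pool.Agent.MUF

section

variable {n : ℕ} {B : StarSubalgebra ℂ (Matrix (Fin n) (Fin n) ℂ)}

theorem InC.zero : InC B 0 := fun a _ => by rw [mul_zero, zero_mul]

theorem PC.zero : PC B 0 := ⟨mul_zero _, Matrix.conjTranspose_zero, InC.zero⟩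

theorem PC.one : PC B 1 :=
  ⟨mul_one _, Matrix.conjTranspose_one, fun a _ => by rw [mul_one, one_mul]⟩

theorem PC.norm_le {e : Matrix (Fin n) (Fin n) ℂ} (h : PC B e) : ‖e‖ ≤ 1 :=
  norm_proj_le h.1 h.2.1

theorem pc_of_or {f : Matrix (Fin n) (Fin n) ℂ} (h : MinP B f ∨ f = 0) : PC B f := by
  rcases h with h | h
  · exact h.1
  · rw [h]
    exact PC.zero

/-- a minimal projection below `e` of the largest rank, or zero -/
theorem exists_max {e : Matrix (Fin n) (Fin n) ℂ} (he : PC B e) :
    ∃ f, (MinP B f ∨ f = 0) ∧ e * f = f ∧ ∀ g, MinP B g → e * g = g → rk g ≤ rk f := by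
  classical
  have hb : ∃ b, ∀ g, MinP B g → e * g = g → rk g ≤ b := ⟨rk e, fun g hg heg => by
    have h1 := he.rk_sub hg.1 heg
    omega⟩
  have hspec := Nat.find_spec hb
  rcases Nat.eq_zero_or_pos (Nat.find hb) with h0 | h0
  · refine ⟨0, Or.inr rfl, mul_zero _, fun g hg heg => ?_⟩
    exact (hspec g hg heg).trans (by rw [h0]; exact Nat.zero_le _)
  · have h1 := Nat.find_min hb (m := Nat.find hb - 1) (by omega)
    push Not at h1
    obtain ⟨f, hf, hef, hlt⟩ := h1
    exact ⟨f, Or.inl hf, hef, fun g hg heg => (hspec g hg heg).trans (by omega)⟩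

end

variable {U : Ultrafilter ℕ} {A : ∀ n : ℕ, StarSubalgebra ℂ (Matrix (Fin n) (Fin n) ℂ)}

/-- a sequence of projections of the commutants -/
def IPC (A : ∀ n : ℕ, StarSubalgebra ℂ (Matrix (Fin n) (Fin n) ℂ)) (e : Bdd) : Prop :=
  ∀ n, PC (A n) (e.1 n)

/-- a sequence of minimal projections of the commutants, or zeros -/
def Atom (A : ∀ n : ℕ, StarSubalgebra ℂ (Matrix (Fin n) (Fin n) ℂ)) (f : Bdd) : Prop :=
  ∀ n, MinP (A n) (f.1 n) ∨ f.1 n = 0

theorem Atom.ipc {f : Bdd} (h : Atom A f) : IPC A f := fun n => pc_of_or (h n)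

/-- `f ≤ e` for sequences of projections -/
def Below (e f : Bdd) : Prop := ∀ n, e.1 n * f.1 n = f.1 n

theorem Below.cl_mul {e f : Bdd} (h : Below e f) : cl U e * cl U f = cl U f := by
  rw [← map_mul]
  congr 1
  exact Subtype.ext (funext h)

theorem cl_congr {x y : Bdd} (h : ∀ᶠ n in (U : Filter ℕ), x.1 n = y.1 n) : cl U x = cl U y := by
  rw [cl_eq]
  refine tendsto_const_nhds.congr' ?_
  filter_upwards [h] with n hn
  rw [hn, sub_self, nsq_zero]

theorem IPC.idem {e : Bdd} (h : IPC A e) : cl U e * cl U e = cl U e :=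
  Below.cl_mul fun n => (h n).1

theorem IPC.star {e : Bdd} (h : IPC A e) : star (cl U e) = cl U e := by
  rw [star_cl]
  congr 1
  exact Subtype.ext (funext fun n => (h n).2.1)

/-- `N` is the ultraproduct of the algebras `A n` -/
def UP (A : ∀ n : ℕ, StarSubalgebra ℂ (Matrix (Fin n) (Fin n) ℂ))
    (N : StarSubalgebra ℂ (MU U)) : Prop :=
  ∀ x, x ∈ N ↔ ∃ a : Bdd, (∀ n, a.1 n ∈ A n) ∧ cl U a = x

variable {N : StarSubalgebra ℂ (MU U)}

theorem UP.comm (hN : UP A N) {x : Bdd} (hx : ∀ n, InC (A n) (x.1 n)) :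
    ∀ y ∈ N, y * cl U x = cl U x * y := by
  intro y hy
  obtain ⟨a, ha, rfl⟩ := (hN y).1 hy
  rw [← map_mul, ← map_mul]
  congr 1
  exact Subtype.ext (funext fun n => hx n _ (ha n))

theorem IPC.isPart (hN : UP A N) {e : Bdd} (h : IPC A e) (h0 : cl U e ≠ 0) :
    IsPart N (cl U e) := ⟨h0, h.idem, h.star, hN.comm fun n => (h n).2.2⟩

theorem IPC.tendsto {e : Bdd} (h : IPC A e) :
    Tendsto (fun n => (rk (e.1 n) : ℝ) / n) U (𝓝 (tau U (cl U e)).re) := by
  have h1 := (Complex.continuous_re.tendsto _).comp (tendsto_tau (U := U) e)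
  refine h1.congr fun n => ?_
  show (ntr (e.1 n)).re = _
  unfold ntr
  rw [(h n).rk_eq]
  have h2 : (rk (e.1 n) : ℂ) / n = (((rk (e.1 n) : ℝ) / n : ℝ) : ℂ) := by push_cast; rfl
  rw [h2, Complex.ofReal_re]

theorem IPC.pos {e : Bdd} (h : IPC A e) (h0 : cl U e ≠ 0) : 0 < (tau U (cl U e)).re :=
  tau_proj_pos h0 h.idem h.star

theorem ne_zero_of_tau {x : MU U} (h : 0 < (tau U x).re) : x ≠ 0 := by
  rintro rfl
  rw [map_zero, Complex.zero_re] at h
  exact lt_irrefl _ h

/-- a sequence of projections with no large minimal ones below it can be halved -/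
theorem exists_half (hU : (U : Filter ℕ) ≤ cofinite) {e : Bdd} (he : IPC A e)
    (h0 : cl U e ≠ 0) (hno : ∀ f, Atom A f → Below e f → cl U f = 0) :
    ∃ h, IPC A h ∧ Below e h ∧ cl U h ≠ 0 ∧ cl U (e - h) ≠ 0 := by
  choose f hf hef hmax using fun n => exists_max (he n)
  have hfA : Atom A ⟨f, 1, fun n => (pc_of_or (hf n)).norm_le⟩ := hf
  have hf0 := hno _ hfA hef
  have hft := hfA.ipc.tendsto (U := U)
  rw [hf0, map_zero, Complex.zero_re] at hft
  choose h hh heh hlo hhi using fun n =>
    exists_part (he n) (rk (f n)) (hmax n) (rk (e.1 n) / 2) (Nat.div_le_self _ _)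
  have hhA : IPC A ⟨h, 1, fun n => (hh n).norm_le⟩ := hh
  have hht := hhA.tendsto (U := U)
  have het := he.tendsto (U := U)
  have hep := he.pos (U := U) h0
  have hinv : Tendsto (fun n : ℕ => (1 : ℝ) / n) U (𝓝 0) := by
    rw [Nat.cofinite_eq_atTop] at hU
    exact tendsto_one_div_atTop_nhds_zero_nat.mono_left hU
  have h1 : (tau U (cl U e)).re ≤ 2 * (tau U (cl U ⟨h, 1, fun n => (hh n).norm_le⟩)).re + 0 := by
    refine le_of_tendsto_of_tendsto' het ((hht.const_mul 2).add hinv) fun n => ?_
    have h2 : (rk (e.1 n) : ℝ) ≤ 2 * rk (h n) + 1 := by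
      have h3 := hlo n
      have h4 : rk (e.1 n) ≤ 2 * rk (h n) + 1 := by omega
      exact_mod_cast h4
    have h3 := div_le_div_of_nonneg_right h2 (Nat.cast_nonneg n)
    rw [add_div, mul_div_assoc] at h3
    exact h3
  have h2 : 2 * (tau U (cl U ⟨h, 1, fun n => (hh n).norm_le⟩)).re
      ≤ (tau U (cl U e)).re + 2 * 0 := by
    refine le_of_tendsto_of_tendsto' (hht.const_mul 2) (het.add (hft.const_mul 2)) fun n => ?_
    have h2 : (2 : ℝ) * rk (h n) ≤ rk (e.1 n) + 2 * rk (f n) := by
      have h3 := hhi n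
      have h4 : 2 * rk (h n) ≤ rk (e.1 n) + 2 * rk (f n) := by omega
      exact_mod_cast h4
    have h3 := div_le_div_of_nonneg_right h2 (Nat.cast_nonneg n)
    rw [add_div, mul_div_assoc, mul_div_assoc] at h3
    exact h3
  refine ⟨_, hhA, heh, ne_zero_of_tau (by linarith), ne_zero_of_tau ?_⟩
  rw [map_sub, map_sub, Complex.sub_re]
  linarith

/-- `e` is a sum of atoms -/
def Parted (U : Ultrafilter ℕ) (A : ∀ n : ℕ, StarSubalgebra ℂ (Matrix (Fin n) (Fin n) ℂ))
    (e : Bdd) : Prop :=
  ∃ (l : ℕ) (f : Fin l → Bdd), (∀ i, Atom A (f i) ∧ Below e (f i) ∧ cl U (f i) ≠ 0) ∧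
    (∀ i j, i ≠ j → cl U (f i) * cl U (f j) = 0) ∧ ∑ i, cl U (f i) = cl U e

/-- there are `K` orthogonal projections below `e` -/
def Many (N : StarSubalgebra ℂ (MU U)) (e : Bdd) (K : ℕ) : Prop :=
  ∃ p : Fin K → MU U, (∀ i, IsPart N (p i) ∧ cl U e * p i = p i) ∧
    ∀ i j, i ≠ j → p i * p j = 0

theorem Below.cl_sub {e h : Bdd} (he : IPC A e) (hh : IPC A h) (heh : Below e h) :
    cl U h * cl U (e - h) = 0 := by
  rw [← map_mul, ← map_zero (cl U)]
  congr 1
  refine Subtype.ext (funext fun n => ?_)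
  show h.1 n * (e.1 n - h.1 n) = 0
  rw [mul_sub, (he n).mul_right (hh n) (heh n), (hh n).1, sub_self]

theorem Below.cl_mul_sub {e h : Bdd} (he : IPC A e) (heh : Below e h) :
    cl U e * cl U (e - h) = cl U (e - h) := by
  rw [← map_mul]
  congr 1
  refine Subtype.ext (funext fun n => ?_)
  show e.1 n * (e.1 n - h.1 n) = e.1 n - h.1 n
  rw [mul_sub, (he n).1, heh n]

theorem many_cons (hN : UP A N) {e h : Bdd} (he : IPC A e) (hh : IPC A h) (heh : Below e h)
    (h0 : cl U h ≠ 0) {K : ℕ} (hK : Many N (e - h) K) : Many N e (K + 1) := by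
  obtain ⟨p, hp, hpo⟩ := hK
  have h1 : ∀ i, cl U h * p i = 0 := by
    intro i
    rw [← (hp i).2, ← mul_assoc, heh.cl_sub he hh, zero_mul]
  have h2 : ∀ i, p i * cl U h = 0 := by
    intro i
    have h3 := congrArg star (h1 i)
    rwa [star_mul, (hp i).1.2.2.1, hh.star, star_zero] at h3
  refine ⟨Fin.cons (cl U h) p, ?_, ?_⟩
  · intro i
    refine Fin.cases ?_ (fun i => ?_) i
    · rw [Fin.cons_zero]
      exact ⟨hh.isPart hN h0, heh.cl_mul⟩
    · rw [Fin.cons_succ]
      refine ⟨(hp i).1, ?_⟩
      rw [← (hp i).2, ← mul_assoc, heh.cl_mul_sub he]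
  · intro i
    refine Fin.cases ?_ (fun i => ?_) i
    · intro j
      refine Fin.cases ?_ (fun j => ?_) j
      · intro h3
        exact absurd rfl h3
      · intro _
        rw [Fin.cons_zero, Fin.cons_succ]
        exact h1 j
    · intro j
      refine Fin.cases ?_ (fun j => ?_) j
      · intro _
        rw [Fin.cons_zero, Fin.cons_succ]
        exact h2 i
      · intro h3
        rw [Fin.cons_succ, Fin.cons_succ]
        exact hpo i j fun h4 => h3 (by rw [h4])

theorem parted_or_many (hU : (U : Filter ℕ) ≤ cofinite) (hN : UP A N) :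
    ∀ (K : ℕ) (e : Bdd), IPC A e → Parted U A e ∨ Many N e K := by
  intro K
  induction K with
  | zero =>
    intro e _
    exact Or.inr ⟨fun i => i.elim0, fun i => i.elim0, fun i => i.elim0⟩
  | succ K ih =>
    intro e he
    by_cases h0 : cl U e = 0
    · refine Or.inl ⟨0, fun i => i.elim0, fun i => i.elim0, fun i => i.elim0, ?_⟩
      rw [h0]
      exact Finset.sum_empty
    · by_cases hf : ∃ f, Atom A f ∧ Below e f ∧ cl U f ≠ 0
      · obtain ⟨f, hfA, hef, hf0⟩ := hf
        have he' : IPC A (e - f) := fun n => (he n).sub (hfA.ipc n) (hef n)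
        rcases ih (e - f) he' with ⟨l, g, hg, hgo, hgs⟩ | hK
        · left
          have h1 : ∀ i, cl U f * cl U (g i) = 0 := by
            intro i
            rw [← (hg i).2.1.cl_mul, ← mul_assoc, hef.cl_sub he hfA.ipc, zero_mul]
          have h2 : ∀ i, cl U (g i) * cl U f = 0 := by
            intro i
            have h3 := congrArg star (h1 i)
            rwa [star_mul, (hg i).1.ipc.star, hfA.ipc.star, star_zero] at h3
          refine ⟨l + 1, Fin.cons f g, ?_, ?_, ?_⟩
          · intro i
            refine Fin.cases ?_ (fun i => ?_) i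
            · rw [Fin.cons_zero]
              exact ⟨hfA, hef, hf0⟩
            · rw [Fin.cons_succ]
              refine ⟨(hg i).1, fun n => ?_, (hg i).2.2⟩
              have h3 := (hg i).2.1 n
              have h4 : e.1 n * (e.1 n - f.1 n) = e.1 n - f.1 n := by
                rw [mul_sub, (he n).1, hef n]
              rw [← h3, ← mul_assoc]
              show e.1 n * (e.1 n - f.1 n) * (g i).1 n = (e.1 n - f.1 n) * (g i).1 n
              rw [h4]
          · intro i
            refine Fin.cases ?_ (fun i => ?_) i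
            · intro j
              refine Fin.cases ?_ (fun j => ?_) j
              · intro h3
                exact absurd rfl h3
              · intro _
                rw [Fin.cons_zero, Fin.cons_succ]
                exact h1 j
            · intro j
              refine Fin.cases ?_ (fun j => ?_) j
              · intro _
                rw [Fin.cons_zero, Fin.cons_succ]
                exact h2 i
              · intro h3
                rw [Fin.cons_succ, Fin.cons_succ]
                exact hgo i j fun h4 => h3 (by rw [h4])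
          · rw [Fin.sum_univ_succ]
            simp only [Fin.cons_zero, Fin.cons_succ]
            rw [hgs, ← map_add, add_sub_cancel]
        · exact Or.inr (many_cons hN he hfA.ipc hef hf0 hK)
      · push Not at hf
        obtain ⟨h, hh, heh, h1, h2⟩ := exists_half hU he h0 fun f hf1 hf2 => hf f hf1 hf2
        have he' : IPC A (e - h) := fun n => (he n).sub (hh n) (heh n)
        rcases ih (e - h) he' with ⟨l, g, hg, -, hgs⟩ | hK
        · exfalso
          rcases Nat.eq_zero_or_pos l with hl | hl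
          · subst hl
            rw [Finset.univ_eq_empty, Finset.sum_empty] at hgs
            exact h2 hgs.symm
          · refine (hg ⟨0, hl⟩).2.2 (hf _ (hg ⟨0, hl⟩).1 fun n => ?_)
            have h3 := (hg ⟨0, hl⟩).2.1 n
            have h4 : e.1 n * (e.1 n - h.1 n) = e.1 n - h.1 n := by
              rw [mul_sub, (he n).1, heh n]
            rw [← h3, ← mul_assoc]
            show e.1 n * (e.1 n - h.1 n) * (g ⟨0, hl⟩).1 n = (e.1 n - h.1 n) * (g ⟨0, hl⟩).1 n
            rw [h4]
        · exact Or.inr (many_cons hN he hh heh h1 hK)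

end Pool.Agent.MUF
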