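import Pool.Agent.MUF.Tensor

/-!
# MUF: finite index subfactors which contain an ultraproduct of subalgebras

MP_a83bb2_an (helper13).
-/

set_option autoImplicit false

open Filter Topology
open scoped Matrix Matrix.Norms.L2Operator

noncomputable section

namespace Pool.Agent.MUF

/-- a projection of the commutant is a sum of minimal ones -/
theorem exists_minparts {l : ℕ} {B : StarSubalgebra ℂ (Matrix (Fin l) (Fin l) ℂ)} :
    ∀ (k : ℕ) (e : Matrix (Fin l) (Fin l) ℂ), rk e ≤ k → PC B e →
    ∃ (r : ℕ) (f : Fin r → Matrix (Fin l) (Fin l) ℂ), (∀ i, MinP B (f i) ∧ e * f i = f i) ∧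
      (∀ i j, i ≠ j → f i * f j = 0) ∧ ∑ i, f i = e := by
  intro k
  induction k with
  | zero =>
    intro e hk he
    refine ⟨0, fun i => i.elim0, fun i => i.elim0, fun i => i.elim0, ?_⟩
    rw [he.eq_zero (Nat.le_zero.1 hk)]
    exact Finset.sum_empty
  | succ k ih =>
    intro e hk he
    by_cases h0 : e = 0
    · refine ⟨0, fun i => i.elim0, fun i => i.elim0, fun i => i.elim0, ?_⟩
      rw [h0]
      exact Finset.sum_empty
    · obtain ⟨g, hg, heg⟩ := exists_minP (rk e) e le_rfl he h0
      have h1 := he.rk_sub hg.1 heg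
      have h2 : rk g ≠ 0 := fun h3 => hg.2.1 (hg.1.eq_zero h3)
      obtain ⟨r, f, hf, hfo, hfs⟩ := ih (e - g) (by omega) (he.sub hg.1 heg)
      have hge := he.mul_right hg.1 heg
      have h3 : ∀ i, g * f i = 0 := by
        intro i
        rw [← (hf i).2, ← mul_assoc, mul_sub, hge, hg.1.1, sub_self, zero_mul]
      have h4 : ∀ i, f i * g = 0 := by
        intro i
        have h5 := congrArg Matrix.conjTranspose (h3 i)
        rwa [Matrix.conjTranspose_mul, (hf i).1.1.2.1, hg.1.2.1,
          Matrix.conjTranspose_zero] at h5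
      refine ⟨r + 1, Fin.cons g f, ?_, ?_, ?_⟩
      · intro i
        refine Fin.cases ?_ (fun i => ?_) i
        · rw [Fin.cons_zero]
          exact ⟨hg, heg⟩
        · rw [Fin.cons_succ]
          refine ⟨(hf i).1, ?_⟩
          rw [← (hf i).2, ← mul_assoc, mul_sub, he.1, heg]
      · intro i
        refine Fin.cases ?_ (fun i => ?_) i
        · intro j
          refine Fin.cases ?_ (fun j => ?_) j
          · intro h5
            exact absurd rfl h5
          · intro _
            rw [Fin.cons_zero, Fin.cons_succ]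
            exact h3 j
        · intro j
          refine Fin.cases ?_ (fun j => ?_) j
          · intro _
            rw [Fin.cons_zero, Fin.cons_succ]
            exact h4 i
          · intro h5
            rw [Fin.cons_succ, Fin.cons_succ]
            exact hfo i j fun h6 => h5 (by rw [h6])
      · rw [Fin.sum_univ_succ]
        simp only [Fin.cons_zero, Fin.cons_succ]
        rw [hfs, add_sub_cancel]

variable {U : Ultrafilter ℕ} {l : ℕ} {e : Fin l → Fin l → MU U}

/-- matrix units with sum 1 -/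
structure MUnits (e : Fin l → Fin l → MU U) : Prop where
  st : ∀ i j, star (e i j) = e j i
  mul : ∀ i j k r, e i j * e k r = if j = k then e i r else 0
  sum : ∑ i, e i i = 1

/-- the homomorphism of the matrix algebra given by matrix units -/
def iota (h : MUnits e) : Matrix (Fin l) (Fin l) ℂ →⋆ₐ[ℂ] MU U where
  toFun b := ∑ i, ∑ j, b i j • e i j
  map_one' := by
    rw [← h.sum]
    refine Finset.sum_congr rfl fun i _ => ?_
    rw [Finset.sum_eq_single i]
    · rw [Matrix.one_apply_eq, one_smul]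
    · intro j _ hj
      rw [Matrix.one_apply_ne (Ne.symm hj), zero_smul]
    · simp
  map_mul' b b' := by
    rw [Finset.sum_mul]
    refine Finset.sum_congr rfl fun i _ => ?_
    rw [Finset.sum_mul]
    have h1 : ∀ j, (b i j • e i j) * (∑ k, ∑ r, b' k r • e k r)
        = ∑ r, (b i j * b' j r) • e i r := by
      intro j
      rw [Finset.mul_sum, Finset.sum_eq_single j]
      · rw [Finset.mul_sum]
        refine Finset.sum_congr rfl fun r _ => ?_
        rw [smul_mul_smul_comm, h.mul, if_pos rfl]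
      · intro k _ hk
        rw [Finset.mul_sum]
        refine Finset.sum_eq_zero fun r _ => ?_
        rw [smul_mul_smul_comm, h.mul, if_neg (Ne.symm hk), smul_zero]
      · simp
    rw [Finset.sum_congr rfl fun j _ => h1 j, Finset.sum_comm]
    refine Finset.sum_congr rfl fun r _ => ?_
    rw [Matrix.mul_apply, Finset.sum_smul]
  map_zero' := by simp
  map_add' b b' := by
    rw [← Finset.sum_add_distrib]
    refine Finset.sum_congr rfl fun i _ => ?_
    rw [← Finset.sum_add_distrib]
    refine Finset.sum_congr rfl fun j _ => ?_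
    rw [Matrix.add_apply, add_smul]
  commutes' r := by
    rw [Algebra.algebraMap_eq_smul_one (A := MU U) r, ← h.sum, Finset.smul_sum]
    refine Finset.sum_congr rfl fun i _ => ?_
    rw [Finset.sum_eq_single i]
    · rw [Matrix.algebraMap_matrix_apply, if_pos rfl]
      rfl
    · intro j _ hj
      rw [Matrix.algebraMap_matrix_apply, if_neg (Ne.symm hj), zero_smul]
    · simp
  map_star' b := by
    rw [star_sum, Finset.sum_comm]
    refine Finset.sum_congr rfl fun i _ => ?_
    rw [star_sum]
    refine Finset.sum_congr rfl fun j _ => ?_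
    rw [star_smul, h.st]
    rfl

theorem iota_apply (h : MUnits e) (b : Matrix (Fin l) (Fin l) ℂ) :
    iota h b = ∑ i, ∑ j, b i j • e i j := rfl

theorem iota_single (h : MUnits e) (i j : Fin l) : iota h (Matrix.single i j 1) = e i j := by
  rw [iota_apply, Finset.sum_eq_single i]
  · rw [Finset.sum_eq_single j]
    · rw [Matrix.single_apply_same, one_smul]
    · intro k _ hk
      rw [Matrix.single_apply, if_neg fun h1 => hk h1.2.symm, zero_smul]
    · simp
  · intro k _ hk
    refine Finset.sum_eq_zero fun r _ => ?_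
    rw [Matrix.single_apply, if_neg fun h1 => hk h1.1.symm, zero_smul]
  · simp

variable {A : ∀ n : ℕ, StarSubalgebra ℂ (Matrix (Fin n) (Fin n) ℂ)}
  {N Q : StarSubalgebra ℂ (MU U)}

theorem iota_comm (h : MUnits e) (hc : ∀ i j, ∀ y ∈ Q, y * e i j = e i j * y)
    (b : Matrix (Fin l) (Fin l) ℂ) : ∀ y ∈ Q, y * iota h b = iota h b * y := by
  intro y hy
  rw [iota_apply, Finset.mul_sum, Finset.sum_mul]
  refine Finset.sum_congr rfl fun i _ => ?_
  rw [Finset.mul_sum, Finset.sum_mul]
  refine Finset.sum_congr rfl fun j _ => ?_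
  rw [mul_smul_comm, hc i j y hy, smul_mul_assoc]

/-- the relative commutant of `Q` in `Q ⊗ M_l` -/
theorem mem_range_iota (h : MUnits e) (hc : ∀ i j, ∀ y ∈ Q, y * e i j = e i j * y)
    (hfac : ∀ z ∈ Q, (∀ y ∈ Q, z * y = y * z) → ∃ c : ℂ, z = algebraMap ℂ (MU U) c)
    {z : MU U} (hz : ∀ y ∈ Q, y * z = z * y)
    (hdec : ∃ y : Fin l → Fin l → MU U, (∀ i j, y i j ∈ Q) ∧ z = ∑ i, ∑ j, y i j * e i j) :
    ∃ b, iota h b = z := by
  obtain ⟨y, hy, hzy⟩ := hdec
  have h1 : ∀ i j, y i j = ∑ k, e k i * z * e j k := by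
    intro i j
    have h2 : ∀ k, e k i * z * e j k = y i j * e k k := by
      intro k
      rw [hzy, Finset.mul_sum, Finset.sum_eq_single i]
      · rw [Finset.mul_sum, Finset.sum_mul, Finset.sum_eq_single j]
        · rw [← mul_assoc, ← hc k i _ (hy i j), mul_assoc, mul_assoc, h.mul i j j k, if_pos rfl,
            h.mul k i i k, if_pos rfl]
        · intro r _ hr
          rw [mul_assoc, mul_assoc, h.mul i r j k, if_neg hr, mul_zero, mul_zero]
        · simp
      · intro r _ hr
        rw [Finset.mul_sum]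
        refine Finset.sum_eq_zero fun s _ => ?_
        rw [← mul_assoc, ← hc k i _ (hy r s), mul_assoc, h.mul k i r s, if_neg (Ne.symm hr),
          mul_zero]
      · simp
    rw [Finset.sum_congr rfl fun k _ => h2 k, ← Finset.mul_sum, h.sum, mul_one]
  have h3 : ∀ i j, ∃ c : ℂ, y i j = algebraMap ℂ (MU U) c := by
    intro i j
    refine hfac _ (hy i j) fun w hw => ?_
    rw [h1 i j, Finset.sum_mul, Finset.mul_sum]
    refine Finset.sum_congr rfl fun k _ => ?_
    rw [mul_assoc (e k i * z), ← hc j k w hw, ← mul_assoc, mul_assoc (e k i), ← hz w hw,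
      ← mul_assoc (e k i), ← hc k i w hw, mul_assoc, mul_assoc, mul_assoc]
  choose c hcy using h3
  refine ⟨Matrix.of c, ?_⟩
  rw [iota_apply, hzy]
  refine Finset.sum_congr rfl fun i _ => Finset.sum_congr rfl fun j _ => ?_
  rw [Matrix.of_apply, hcy, Algebra.algebraMap_eq_smul_one, smul_mul_assoc, one_mul]

/-- the tensor decomposition for subfactors which contain an ultraproduct of subalgebras -/
theorem inter_main (hU : (U : Filter ℕ) ≤ cofinite) (hQ : UP A Q) {ι' : Type} [Fintype ι']
    {E' : MU U →ₗ[ℂ] MU U} {m' : ι' → MU U} {d' : ℝ} (hQI : IsFinIndex (tau U) Q E' m' d')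
    (hQN : ∀ x ∈ Q, x ∈ N) {ι : Type} [Fintype ι] {E : MU U →ₗ[ℂ] MU U} {m : ι → MU U} {d : ℝ}
    (hI : IsFinIndex (tau U) N E m d) :
    ∃ (l : ℕ) (e : Fin l → Fin l → MU U), d = (l : ℝ) ^ 2 ∧
      (∃ g : MU U → MU (U.map fun n => n / l),
        IsIso (U := U) N (full (U.map fun n => n / l)) g) ∧
      ((U.map fun n => n / l : Ultrafilter ℕ) : Filter ℕ) ≤ cofinite ∧
      (∀ i j, ∀ y ∈ N, y * e i j = e i j * y) ∧
      (∀ i j, star (e i j) = e j i) ∧
      (∀ i j k r, e i j * e k r = if j = k then e i r else 0) ∧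
      (∀ i, e i i ≠ 0) ∧ ∑ i, e i i = 1 ∧
      ∀ x, ∃ y : Fin l → Fin l → MU U, (∀ i j, y i j ∈ N) ∧ x = ∑ i, ∑ j, y i j * e i j := by
  obtain ⟨l, e, -, -, -, hc, hst, hmul, h0, hsum, hdec⟩ := inner_main hU hQ hQI
  have h : MUnits e := ⟨hst, hmul, hsum⟩
  have h1 : (1 : MU U) ≠ 0 := by
    intro h2
    have h3 := tau_one hU
    rw [h2, map_zero] at h3
    exact zero_ne_one h3
  have : Nontrivial (MU U) := ⟨1, 0, h1⟩
  have hl : 0 < l := by
    rcases Nat.eq_zero_or_pos l with h2 | h2
    · subst h2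
      rw [Finset.univ_eq_empty, Finset.sum_empty] at hsum
      exact absurd hsum.symm h1
    · exact h2
  have : Nonempty (Fin l) := ⟨⟨0, hl⟩⟩
  have hinj : Function.Injective (iota h) := fun a b hab =>
    RingHom.injective (iota h).toAlgHom.toRingHom hab
  let B : StarSubalgebra ℂ (Matrix (Fin l) (Fin l) ℂ) := N.comap (iota h)
  have memB : ∀ b, b ∈ B ↔ iota h b ∈ N := fun b => Iff.rfl
  -- the expectation of a matrix unit
  have hE : ∀ i j, ∃ b ∈ B, iota h b = E (e i j) := by
    intro i j
    obtain ⟨b, hb⟩ := mem_range_iota h hc hQI.factor (z := E (e i j)) (fun y hy => by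
      rw [← hI.left y (hQN y hy), hc i j y hy, hI.right y (hQN y hy)]) (hdec _)
    refine ⟨b, ?_, hb⟩
    rw [memB, hb]
    exact hI.range _
  choose bE hbB hbE using hE
  have hNdec : ∀ x ∈ N, ∃ y : Fin l → Fin l → MU U, (∀ i j, y i j ∈ Q) ∧
      x = ∑ i, ∑ j, y i j * iota h (bE i j) := by
    intro x hx
    obtain ⟨y, hy, hxy⟩ := hdec x
    refine ⟨y, hy, ?_⟩
    rw [← hI.id_on x hx]
    nth_rw 1 [hxy]
    rw [map_sum]
    refine Finset.sum_congr rfl fun i _ => ?_
    rw [map_sum]
    refine Finset.sum_congr rfl fun j _ => ?_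
    rw [hI.left _ (hQN _ (hy i j)), hbE]
  have hcom : ∀ f, InC B f → ∀ x ∈ N, x * iota h f = iota h f * x := by
    intro f hf x hx
    obtain ⟨y, hy, rfl⟩ := hNdec x hx
    rw [Finset.sum_mul, Finset.mul_sum]
    refine Finset.sum_congr rfl fun i _ => ?_
    rw [Finset.sum_mul, Finset.mul_sum]
    refine Finset.sum_congr rfl fun j _ => ?_
    rw [mul_assoc, ← map_mul, hf _ (hbB i j), map_mul, ← mul_assoc,
      iota_comm h hc f _ (hy i j), mul_assoc]
  have hfull : ∀ f, MinP B f → ∀ x, iota h f * x = x → x * iota h f = x →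
      ∃ y ∈ N, y * iota h f = x := by
    intro f hf x hx1 hx2
    obtain ⟨y, hy, hxy⟩ := hdec x
    have hex : ∀ i j : Fin l, ∃ b ∈ B, b * f = f * Matrix.single i j 1 * f := by
      intro i j
      obtain ⟨b, hb, hbf, -⟩ := burnside (w := f * Matrix.single i j 1 * f) hf
        (by rw [← mul_assoc, ← mul_assoc, hf.1.1]) (by rw [mul_assoc, hf.1.1])
      exact ⟨b, hb, hbf⟩
    choose b hb hbf using hex
    refine ⟨∑ i, ∑ j, y i j * iota h (b i j), sum_mem fun i _ => sum_mem fun j _ =>
      mul_mem (hQN _ (hy i j)) (hb i j), ?_⟩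
    have h2 : x = iota h f * x * iota h f := by rw [hx1, hx2]
    rw [h2, hxy, Finset.sum_mul, Finset.mul_sum, Finset.sum_mul]
    refine Finset.sum_congr rfl fun i _ => ?_
    rw [Finset.sum_mul, Finset.mul_sum, Finset.sum_mul]
    refine Finset.sum_congr rfl fun j _ => ?_
    rw [mul_assoc, ← map_mul, hbf, map_mul, map_mul, iota_single, ← mul_assoc, ← mul_assoc,
      ← mul_assoc, iota_comm h hc f _ (hy i j)]
  obtain ⟨r, f, hf, hfo, hfs⟩ := exists_minparts (rk (1 : Matrix (Fin l) (Fin l) ℂ)) 1 le_rfl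
    (PC.one (B := B))
  have hpart : ∀ i, IsPart N (iota h (f i)) := by
    intro i
    refine ⟨fun h2 => (hf i).1.2.1 (hinj (by rw [h2, map_zero])), ?_, ?_,
      hcom _ (hf i).1.1.2.2⟩
    · rw [← map_mul, (hf i).1.1.1]
    · rw [← map_star]
      congr 1
      exact (hf i).1.1.2.1
  refine tensor_main hU hI (fun i => iota h (f i)) hpart (fun i j hij => ?_) ?_
    (fun i => hfull (f i) (hf i).1) fun i j => ?_
  · show iota h (f i) * iota h (f j) = 0
    rw [← map_mul, hfo i j hij, map_zero]
  · rw [← map_sum, hfs, map_one]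
  · by_cases hx : ∃ x, InC B x ∧ f j * x * f i ≠ 0
    · obtain ⟨x, hx1, hx2⟩ := hx
      obtain ⟨v, hv, hv1, hv2⟩ := exists_pi (hf i).1 (hf j).1 hx1 hx2
      refine ⟨iota h v, ?_, ?_, hcom v hv⟩
      · rw [← map_star, ← map_mul]
        congr 1
      · rw [← map_star, ← map_mul]
        congr 1
    · exfalso
      obtain ⟨a, ha, haf, hag⟩ := burnside (w := f i) (hf i).1 (hf i).1.1.1 (hf i).1.1.1
      have h2 := hag (f j) (hf j).1.1 fun x hx1 => by
        by_contra h3
        exact hx ⟨x, hx1, h3⟩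
      have h3 := congrArg (iota h) h2
      rw [map_mul, map_zero] at h3
      have hpos := (hpart j).pos
      have ha' : iota h a ∈ N := ha
      have h4 := hI.inj isState_tau (tau_one hU) (hpart j).2.2.2
        (fun h4 => by rw [h4, Complex.zero_re] at hpos; exact lt_irrefl _ hpos) ha' h3
      have h5 := congrArg (iota h) haf
      rw [map_mul, h4, zero_mul] at h5
      exact (hpart i).1 h5.symm

end Pool.Agent.MUF
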