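import Pool.Agent.MUF.Trace

/-!
# MUF: a projection of the matrix ultraproduct is given by coisometries of a prescribed size

MP_a83bb2_an (helper13).
-/

set_option autoImplicit false

open Filter Topology
open scoped Matrix Matrix.Norms.L2Operator

noncomputable section

namespace Pool.Agent.MUF

theorem exists_spec {n : ℕ} (s : Matrix (Fin n) (Fin n) ℂ) (hs : sᴴ = s) :
    ∃ (W : Matrix (Fin n) (Fin n) ℂ) (l : Fin n → ℝ), Wᴴ * W = 1 ∧ W * Wᴴ = 1 ∧
      s = W * (Matrix.diagonal fun i => (l i : ℂ)) * Wᴴ := by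
  have hA : s.IsHermitian := hs
  refine ⟨(hA.eigenvectorUnitary : Matrix (Fin n) (Fin n) ℂ), hA.eigenvalues, ?_, ?_, ?_⟩
  · exact Unitary.coe_star_mul_self hA.eigenvectorUnitary
  · exact Unitary.coe_mul_star_self hA.eigenvectorUnitary
  · conv_lhs => rw [hA.spectral_theorem, Unitary.conjStarAlgAut_apply]
    rfl

theorem nsq_conj_diag {n : ℕ} {W : Matrix (Fin n) (Fin n) ℂ} (h : Wᴴ * W = 1) (d : Fin n → ℝ) :
    nsq (W * (Matrix.diagonal fun i => (d i : ℂ)) * Wᴴ) = (∑ i, d i ^ 2) / n := by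
  unfold nsq
  congr 1
  have h1 : (W * (Matrix.diagonal fun i => (d i : ℂ)) * Wᴴ)ᴴ
      * (W * (Matrix.diagonal fun i => (d i : ℂ)) * Wᴴ)
      = W * (Matrix.diagonal fun i => ((d i ^ 2 : ℝ) : ℂ)) * Wᴴ := by
    rw [Matrix.conjTranspose_mul, Matrix.conjTranspose_mul, Matrix.conjTranspose_conjTranspose,
      Matrix.diagonal_conjTranspose]
    have h2 : (star fun i => (d i : ℂ)) = fun i => (d i : ℂ) := by
      funext i
      rw [Pi.star_apply, Complex.star_def, Complex.conj_ofReal]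
    rw [h2]
    calc W * ((Matrix.diagonal fun i => (d i : ℂ)) * Wᴴ)
          * (W * (Matrix.diagonal fun i => (d i : ℂ)) * Wᴴ)
        = W * (Matrix.diagonal fun i => (d i : ℂ)) * (Wᴴ * W)
          * (Matrix.diagonal fun i => (d i : ℂ)) * Wᴴ := by simp only [Matrix.mul_assoc]
      _ = W * ((Matrix.diagonal fun i => (d i : ℂ)) * (Matrix.diagonal fun i => (d i : ℂ)))
          * Wᴴ := by rw [h, Matrix.mul_one, Matrix.mul_assoc W]
      _ = _ := by
          rw [Matrix.diagonal_mul_diagonal]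
          congr 3
          funext i
          push_cast
          ring
  rw [h1, Matrix.trace_mul_comm, ← Matrix.mul_assoc, h, Matrix.one_mul, Matrix.trace_diagonal,
    Complex.re_sum]
  rfl

theorem ntr_conj_diag {n : ℕ} {W : Matrix (Fin n) (Fin n) ℂ} (h : Wᴴ * W = 1) (d : Fin n → ℝ) :
    ntr (W * (Matrix.diagonal fun i => (d i : ℂ)) * Wᴴ) = (((∑ i, d i) / n : ℝ) : ℂ) := by
  unfold ntr
  rw [Matrix.trace_mul_comm, ← Matrix.mul_assoc, h, Matrix.one_mul, Matrix.trace_diagonal]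
  push_cast
  rfl

theorem exists_J {n r : ℕ} (J0 : Finset (Fin n)) (hr : r ≤ n) :
    ∃ J : Finset (Fin n), J.card = r ∧
      ∑ i, ((if i ∈ J then (1 : ℝ) else 0) - (if i ∈ J0 then (1 : ℝ) else 0)) ^ 2
        ≤ |(r : ℝ) - J0.card| := by
  have hsum : ∀ J : Finset (Fin n), ∑ i, (if i ∈ J then (1 : ℝ) else 0) = J.card := by
    intro J
    rw [Finset.sum_boole]
    simp
  rcases le_total r J0.card with h | h
  · obtain ⟨J, hJ, hc⟩ := Finset.exists_subset_card_eq h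
    refine ⟨J, hc, ?_⟩
    have h1 : ∑ i, ((if i ∈ J then (1 : ℝ) else 0) - (if i ∈ J0 then (1 : ℝ) else 0)) ^ 2
        = ∑ i, ((if i ∈ J0 then (1 : ℝ) else 0) - (if i ∈ J then (1 : ℝ) else 0)) := by
      refine Finset.sum_congr rfl fun i _ => ?_
      by_cases h1 : i ∈ J
      · simp [h1, hJ h1]
      · by_cases h2 : i ∈ J0 <;> simp [h1, h2]
    rw [h1, Finset.sum_sub_distrib, hsum, hsum, hc, abs_sub_comm]
    exact le_abs_self _
  · obtain ⟨J, hJ, -, hc⟩ := Finset.exists_subsuperset_card_eq (Finset.subset_univ J0) h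
      (by rw [Finset.card_univ, Fintype.card_fin]; exact hr)
    refine ⟨J, hc, ?_⟩
    have h1 : ∑ i, ((if i ∈ J then (1 : ℝ) else 0) - (if i ∈ J0 then (1 : ℝ) else 0)) ^ 2
        = ∑ i, ((if i ∈ J then (1 : ℝ) else 0) - (if i ∈ J0 then (1 : ℝ) else 0)) := by
      refine Finset.sum_congr rfl fun i _ => ?_
      by_cases h1 : i ∈ J0
      · simp [h1, hJ h1]
      · by_cases h2 : i ∈ J <;> simp [h1, h2]
    rw [h1, Finset.sum_sub_distrib, hsum, hsum, hc]
    exact le_abs_self _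

theorem exists_iso {n r : ℕ} (s : Matrix (Fin n) (Fin n) ℂ) (hs : sᴴ = s) (hr : r ≤ n) :
    ∃ v : Matrix (Fin r) (Fin n) ℂ, v * vᴴ = 1 ∧
      nsq (vᴴ * v - s) ≤ 8 * nsq (s * s - s) + 4 * Real.sqrt (nsq (s * s - s))
        + 2 * |(r : ℝ) / n - (ntr s).re| := by
  obtain ⟨W, l, hW, hW', hsW⟩ := exists_spec s hs
  set J0 : Finset (Fin n) := Finset.univ.filter fun i => 1 / 2 ≤ l i with hJ0
  obtain ⟨J, hJ, hJs⟩ := exists_J J0 hr
  set σ : Fin r → Fin n := fun k => J.orderEmbOfFin hJ k with hσ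
  have σinj : Function.Injective σ := (J.orderEmbOfFin hJ).injective
  have σmem : ∀ i, i ∈ J ↔ ∃ k, σ k = i := by
    intro i
    have h1 := Finset.range_orderEmbOfFin J hJ
    have h2 : i ∈ Set.range σ ↔ i ∈ (J : Set (Fin n)) := by rw [hσ, h1]
    rw [Set.mem_range, Finset.mem_coe] at h2
    exact h2.symm
  set v : Matrix (Fin r) (Fin n) ℂ := Wᴴ.submatrix σ id with hv
  have hvv : v * vᴴ = 1 := by
    rw [hv, Matrix.conjTranspose_submatrix, Matrix.conjTranspose_conjTranspose,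
      ← Matrix.submatrix_mul _ _ _ _ _ Function.bijective_id, hW, Matrix.submatrix_one _ σinj]
  have hvW : v * W = (1 : Matrix (Fin n) (Fin n) ℂ).submatrix σ id := by
    have h1 : v * W = v * W.submatrix id id := by rw [Matrix.submatrix_id_id]
    rw [h1, hv, ← Matrix.submatrix_mul _ _ _ _ _ Function.bijective_id, hW]
  have hd : (v * W)ᴴ * (v * W)
      = Matrix.diagonal fun i => ((if i ∈ J then (1 : ℝ) else 0 : ℝ) : ℂ) := by
    rw [hvW]
    ext a b
    rw [Matrix.mul_apply, Matrix.diagonal_apply]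
    simp only [Matrix.conjTranspose_apply, Matrix.submatrix_apply, id, Matrix.one_apply]
    by_cases ha : a ∈ J
    · obtain ⟨k, hk⟩ := (σmem a).1 ha
      rw [Finset.sum_eq_single k]
      · rw [hk, if_pos rfl, star_one, one_mul, if_pos ha, Complex.ofReal_one]
      · intro k' _ hk'
        have h1 : σ k' ≠ a := by
          intro h2
          exact hk' (σinj (h2.trans hk.symm))
        rw [if_neg h1, star_zero, zero_mul]
      · intro h
        exact absurd (Finset.mem_univ k) h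
    · have h1 : ∀ k, σ k ≠ a := fun k h => ha ((σmem a).2 ⟨k, h⟩)
      simp [h1, ha]
  have hvs : vᴴ * v = W * (Matrix.diagonal fun i => ((if i ∈ J then (1 : ℝ) else 0 : ℝ) : ℂ))
      * Wᴴ := by
    rw [← hd, Matrix.conjTranspose_mul]
    calc vᴴ * v = (W * Wᴴ) * (vᴴ * v) * (W * Wᴴ) := by rw [hW', Matrix.one_mul, Matrix.mul_one]
      _ = W * (Wᴴ * vᴴ * (v * W)) * Wᴴ := by simp only [Matrix.mul_assoc]
  have hsub : ∀ d e : Fin n → ℝ, W * (Matrix.diagonal fun i => (d i : ℂ)) * Wᴴ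
      - W * (Matrix.diagonal fun i => (e i : ℂ)) * Wᴴ
      = W * (Matrix.diagonal fun i => ((d i - e i : ℝ) : ℂ)) * Wᴴ := by
    intro d e
    rw [← Matrix.sub_mul, ← Matrix.mul_sub, Matrix.diagonal_sub]
    congr 3
    funext i
    push_cast
    rfl
  have hss : s * s = W * (Matrix.diagonal fun i => ((l i ^ 2 : ℝ) : ℂ)) * Wᴴ := by
    rw [hsW]
    calc W * (Matrix.diagonal fun i => (l i : ℂ)) * Wᴴ
          * (W * (Matrix.diagonal fun i => (l i : ℂ)) * Wᴴ)
        = W * (Matrix.diagonal fun i => (l i : ℂ)) * (Wᴴ * W)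
          * (Matrix.diagonal fun i => (l i : ℂ)) * Wᴴ := by simp only [Matrix.mul_assoc]
      _ = W * ((Matrix.diagonal fun i => (l i : ℂ)) * (Matrix.diagonal fun i => (l i : ℂ)))
          * Wᴴ := by rw [hW, Matrix.mul_one, Matrix.mul_assoc W]
      _ = _ := by
          rw [Matrix.diagonal_mul_diagonal]
          congr 3
          funext i
          push_cast
          ring
  have e1 : nsq (vᴴ * v - s) = (∑ i, ((if i ∈ J then (1 : ℝ) else 0) - l i) ^ 2) / n := by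
    rw [hvs, hsW, hsub, nsq_conj_diag hW]
  have e2 : nsq (s * s - s) = (∑ i, (l i ^ 2 - l i) ^ 2) / n := by
    have h1 : s * s - s = W * (Matrix.diagonal fun i => ((l i ^ 2 - l i : ℝ) : ℂ)) * Wᴴ := by
      rw [hss, ← hsub]
      nth_rw 1 [hsW]
    rw [h1, nsq_conj_diag hW]
  have e3 : (ntr s).re = (∑ i, l i) / n := by
    rw [hsW, ntr_conj_diag hW, Complex.ofReal_re]
  -- comparison with `J0`
  have e4 : ∀ i, ((if i ∈ J0 then (1 : ℝ) else 0) - l i) ^ 2 ≤ 4 * (l i ^ 2 - l i) ^ 2 := by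
    intro i
    by_cases h1 : 1 / 2 ≤ l i
    · have h2 : i ∈ J0 := by
        rw [hJ0, Finset.mem_filter]
        exact ⟨Finset.mem_univ i, h1⟩
      rw [if_pos h2]
      have h3 : 1 ≤ 4 * l i ^ 2 := by nlinarith
      calc (1 - l i) ^ 2 = 1 * (1 - l i) ^ 2 := (one_mul _).symm
        _ ≤ (4 * l i ^ 2) * (1 - l i) ^ 2 := mul_le_mul_of_nonneg_right h3 (sq_nonneg _)
        _ = 4 * (l i ^ 2 - l i) ^ 2 := by ring
    · have h2 : i ∉ J0 := by
        rw [hJ0, Finset.mem_filter]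
        exact fun h => h1 h.2
      rw [if_neg h2]
      push Not at h1
      have h3 : 1 ≤ 4 * (1 - l i) ^ 2 := by nlinarith
      calc (0 - l i) ^ 2 = 1 * l i ^ 2 := by ring
        _ ≤ (4 * (1 - l i) ^ 2) * l i ^ 2 := mul_le_mul_of_nonneg_right h3 (sq_nonneg _)
        _ = 4 * (l i ^ 2 - l i) ^ 2 := by ring
  have e5 : (∑ i, ((if i ∈ J0 then (1 : ℝ) else 0) - l i) ^ 2) / n ≤ 4 * nsq (s * s - s) := by
    rw [e2, ← mul_div_assoc, Finset.mul_sum]
    exact div_le_div_of_nonneg_right (Finset.sum_le_sum fun i _ => e4 i) (Nat.cast_nonneg n)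
  have e6 : |(J0.card : ℝ) / n - (ntr s).re| ≤ 2 * Real.sqrt (nsq (s * s - s)) := by
    have h1 : (J0.card : ℝ) / n - (ntr s).re
        = (∑ i, ((if i ∈ J0 then (1 : ℝ) else 0) - l i)) / n := by
      rw [e3, Finset.sum_sub_distrib, sub_div, Finset.sum_boole]
      simp
    have h2 := norm_ntr_sq_le
      (W * (Matrix.diagonal fun i => (((if i ∈ J0 then (1 : ℝ) else 0) - l i : ℝ) : ℂ)) * Wᴴ)
    rw [ntr_conj_diag hW, nsq_conj_diag hW, ← h1, Complex.norm_real, Real.norm_eq_abs] at h2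
    have h3 := Real.le_sqrt_of_sq_le (h2.trans e5)
    rwa [Real.sqrt_mul (by norm_num), show Real.sqrt 4 = 2 by
      rw [show (4 : ℝ) = 2 ^ 2 by norm_num]; exact Real.sqrt_sq (by norm_num)] at h3
  have e7 : |(r : ℝ) / n - J0.card / n| ≤ |(r : ℝ) / n - (ntr s).re|
      + 2 * Real.sqrt (nsq (s * s - s)) := by
    have h1 : (r : ℝ) / n - J0.card / n
        = ((r : ℝ) / n - (ntr s).re) - ((J0.card : ℝ) / n - (ntr s).re) := by ring
    rw [h1]
    exact (abs_sub _ _).trans (add_le_add le_rfl e6)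
  have e8 : (∑ i, ((if i ∈ J then (1 : ℝ) else 0) - (if i ∈ J0 then (1 : ℝ) else 0)) ^ 2) / n
      ≤ |(r : ℝ) / n - J0.card / n| := by
    have h1 : |(r : ℝ) / n - J0.card / n| = |(r : ℝ) - J0.card| / n := by
      rw [← sub_div, abs_div, Nat.abs_cast]
    rw [h1]
    exact div_le_div_of_nonneg_right hJs (Nat.cast_nonneg n)
  have e9 : nsq (vᴴ * v - s)
      ≤ 2 * ((∑ i, ((if i ∈ J then (1 : ℝ) else 0) - (if i ∈ J0 then (1 : ℝ) else 0)) ^ 2) / n)
        + 2 * ((∑ i, ((if i ∈ J0 then (1 : ℝ) else 0) - l i) ^ 2) / n) := by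
    rw [e1, ← mul_div_assoc, ← mul_div_assoc, ← add_div, Finset.mul_sum, Finset.mul_sum,
      ← Finset.sum_add_distrib]
    refine div_le_div_of_nonneg_right (Finset.sum_le_sum fun i _ => ?_) (Nat.cast_nonneg n)
    have h1 : (if i ∈ J then (1 : ℝ) else 0) - l i
        = ((if i ∈ J then (1 : ℝ) else 0) - (if i ∈ J0 then (1 : ℝ) else 0))
          + ((if i ∈ J0 then (1 : ℝ) else 0) - l i) := by ring
    rw [h1]
    nlinarith [sq_nonneg (((if i ∈ J then (1 : ℝ) else 0) - (if i ∈ J0 then (1 : ℝ) else 0))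
      - ((if i ∈ J0 then (1 : ℝ) else 0) - l i))]
  exact ⟨v, hvv, by linarith⟩

theorem norm_one_le {r : ℕ} : ‖(1 : Matrix (Fin r) (Fin r) ℂ)‖ ≤ 1 := by
  rw [← Matrix.diagonal_one, Matrix.l2_opNorm_diagonal]
  refine (pi_norm_le_iff_of_nonneg zero_le_one).2 fun i => ?_
  simp

theorem norm_coiso {n r : ℕ} {v : Matrix (Fin r) (Fin n) ℂ} (h : v * vᴴ = 1) : ‖v‖ ≤ 1 := by
  have h1 := Matrix.l2_opNorm_conjTranspose_mul_self vᴴ
  rw [Matrix.conjTranspose_conjTranspose, h, Matrix.l2_opNorm_conjTranspose] at h1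
  have h2 := norm_one_le (r := r)
  rw [h1] at h2
  nlinarith [norm_nonneg v]

variable {U : Ultrafilter ℕ}

theorem exists_lift (p : MU U) (hp : p * p = p) (hs : star p = p) (t : ℝ) (ht : tau U p = t)
    (r : ℕ → ℕ) (hr : ∀ n, r n ≤ n) (hrt : Tendsto (fun n => (r n : ℝ) / n) U (𝓝 t)) :
    ∃ v : ∀ n, Matrix (Fin (r n)) (Fin n) ℂ, (∀ n, v n * (v n)ᴴ = 1) ∧
      ∀ e : Bdd, (∀ n, e.1 n = (v n)ᴴ * v n) → cl U e = p := by
  obtain ⟨a, rfl⟩ := cl_surj U p
  set s : Bdd := (1 / 2 : ℂ) • (a + star a) with hsdef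
  have hcs : cl U s = cl U a := by
    rw [hsdef, map_smul, map_add, ← star_cl, hs, ← two_smul ℂ (cl U a), smul_smul]
    norm_num
  have hsn : ∀ n, (s.1 n)ᴴ = s.1 n := by
    intro n
    show ((1 / 2 : ℂ) • (a.1 n + (a.1 n)ᴴ))ᴴ = (1 / 2 : ℂ) • (a.1 n + (a.1 n)ᴴ)
    rw [Matrix.conjTranspose_smul, Matrix.conjTranspose_add, Matrix.conjTranspose_conjTranspose,
      add_comm]
    congr 1
    simp
  choose v hv1 hv2 using fun n => exists_iso (s.1 n) (hsn n) (hr n)
  refine ⟨v, hv1, fun e he => ?_⟩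
  rw [← hcs, cl_eq]
  have h1 : Tendsto (fun n => nsq (s.1 n * s.1 n - s.1 n)) U (𝓝 0) := by
    have h2 : cl U (s * s) = cl U s := by rw [map_mul, hcs, hp]
    rw [cl_eq] at h2
    exact h2
  have h2 : Tendsto (fun n => |(r n : ℝ) / n - (ntr (s.1 n)).re|) U (𝓝 0) := by
    have h3 := (Complex.continuous_re.tendsto _).comp (tendsto_tau (U := U) s)
    rw [hcs, ht, Complex.ofReal_re] at h3
    have h4 := (hrt.sub h3).abs
    rw [sub_self, abs_zero] at h4
    exact h4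
  have h3 : Tendsto (fun n => Real.sqrt (nsq (s.1 n * s.1 n - s.1 n))) U (𝓝 0) := by
    have h4 := (Real.continuous_sqrt.tendsto 0).comp h1
    rw [Real.sqrt_zero] at h4
    exact h4
  have h4 := ((h1.const_mul 8).add (h3.const_mul 4)).add (h2.const_mul 2)
  simp only [mul_zero, add_zero] at h4
  refine squeeze_zero (fun n => nsq_nonneg _) (fun n => ?_) h4
  rw [he n]
  exact hv2 n

end Pool.Agent.MUF
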