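import Pool.Agent.MUF.Gap

/-!
# MUF: finite index subfactors with a small local index

MP_a83bb2_an (helper13).
-/

set_option autoImplicit false

noncomputable section

namespace Pool.Agent.MUF

variable {A : Type} [Ring A] [StarRing A] [Algebra ℂ A] [StarModule ℂ A]

/-- expectation `E` onto the subalgebra `N` with trivial centre, with a basis `m` and index `d` -/
structure IsFinIndex (τ : A →ₗ[ℂ] ℂ) (N : StarSubalgebra ℂ A) (E : A →ₗ[ℂ] A) {ι : Type}
    [Fintype ι] (m : ι → A) (d : ℝ) : Prop where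
  factor : ∀ z ∈ N, (∀ y ∈ N, z * y = y * z) → ∃ c : ℂ, z = algebraMap ℂ A c
  range : ∀ x, E x ∈ N
  id_on : ∀ y ∈ N, E y = y
  left : ∀ y ∈ N, ∀ x, E (y * x) = y * E x
  right : ∀ y ∈ N, ∀ x, E (x * y) = E x * y
  tr : ∀ x, τ (E x) = τ x
  basis : ∀ x, ∑ j, m j * E (star (m j) * x) = x
  index : ∑ j, m j * star (m j) = algebraMap ℂ A d

variable {τ : A →ₗ[ℂ] ℂ} {N : StarSubalgebra ℂ A} {E : A →ₗ[ℂ] A} {ι : Type} [Fintype ι]
  {m : ι → A} {d : ℝ}

/-- an element of `N` orthogonal to `N` vanishes -/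
theorem eq_zero_of_orth (h : IsState τ) {x : A} (hx : x ∈ N) (h0 : ∀ b ∈ N, τ (x * b) = 0) :
    x = 0 := by
  have h1 := h0 (star x) (star_mem hx)
  have h2 := h.faith (star x) (by rw [star_star]; exact h1)
  exact star_eq_zero.1 h2

theorem IsFinIndex.star_E (h : IsState τ) (hI : IsFinIndex τ N E m d) (x : A) :
    E (star x) = star (E x) := by
  rw [← sub_eq_zero]
  refine eq_zero_of_orth h (sub_mem (hI.range _) (star_mem (hI.range _))) fun b hb => ?_
  rw [sub_mul, map_sub, sub_eq_zero, ← hI.right b hb, hI.tr]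
  have h1 := h.st (star b * E x)
  rw [star_mul, star_star] at h1
  rw [h1, ← hI.left (star b) (star_mem hb), hI.tr, ← h.st, star_mul, star_star]

theorem IsFinIndex.E_comm (h : IsState τ) (hI : IsFinIndex τ N E m d) {p : A}
    (hp : ∀ y ∈ N, y * p = p * y) (x : A) : E (x * p) = E (p * x) := by
  rw [← sub_eq_zero]
  refine eq_zero_of_orth h (sub_mem (hI.range _) (hI.range _)) fun b hb => ?_
  rw [sub_mul, map_sub, sub_eq_zero, ← hI.right b hb, ← hI.right b hb, hI.tr, hI.tr, mul_assoc,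
    ← hp b hb, ← mul_assoc, h.tr, ← mul_assoc]

theorem IsFinIndex.E_scalar (h1 : τ 1 = 1) (hI : IsFinIndex τ N E m d)
    {p : A} (hp : ∀ y ∈ N, y * p = p * y) : E p = algebraMap ℂ A (τ p) := by
  obtain ⟨c, hc⟩ := hI.factor (E p) (hI.range p) (by
    intro y hy
    rw [← hI.right y hy, ← hI.left y hy, hp y hy])
  have h2 := congrArg τ hc
  rw [hI.tr, Algebra.algebraMap_eq_smul_one, map_smul, h1, smul_eq_mul, mul_one] at h2
  rw [hc, h2]

/-- `∑ m_j p m_j*` is central -/
theorem IsFinIndex.cp_comm (h : IsState τ) (hI : IsFinIndex τ N E m d) {p : A}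
    (hp : ∀ y ∈ N, y * p = p * y) (x : A) :
    (∑ j, m j * p * star (m j)) * x = x * ∑ j, m j * p * star (m j) := by
  have h1 : ∀ x : A, ∀ i, ∑ j, E (star (m i) * (x * m j)) * star (m j) = star (m i) * x := by
    intro x i
    have h2 := congrArg star (hI.basis (star (star (m i) * x)))
    rw [star_star, star_sum] at h2
    rw [← h2]
    refine Finset.sum_congr rfl fun j _ => ?_
    rw [star_mul, ← hI.star_E h, star_mul, star_star, star_star, mul_assoc]
  have h2 : x * ∑ j, m j * p * star (m j)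
      = ∑ j, ∑ i, m i * E (star (m i) * (x * m j)) * p * star (m j) := by
    rw [Finset.mul_sum]
    refine Finset.sum_congr rfl fun j _ => ?_
    rw [← mul_assoc, ← mul_assoc]
    nth_rw 1 [← hI.basis (x * m j)]
    rw [Finset.sum_mul, Finset.sum_mul]
  rw [h2, Finset.sum_comm, Finset.sum_mul]
  refine Finset.sum_congr rfl fun i _ => ?_
  rw [mul_assoc, mul_assoc, ← h1 x i, Finset.mul_sum, Finset.mul_sum]
  refine Finset.sum_congr rfl fun j _ => ?_
  rw [mul_assoc, mul_assoc, ← mul_assoc _ p (star (m j)), hp _ (hI.range _), mul_assoc]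

/-- the expectation of the corner: `x ↦ τ(p)⁻¹ E(p x p) p` -/
def Fc (E : A →ₗ[ℂ] A) (p : A) (t : ℝ) : A →ₗ[ℂ] A where
  toFun x := ((t : ℂ)⁻¹) • (E (p * x * p) * p)
  map_add' := by
    intro x y
    rw [mul_add, add_mul, map_add, add_mul, smul_add]
  map_smul' := by
    intro r x
    rw [mul_smul_comm, smul_mul_assoc, map_smul, smul_mul_assoc, smul_comm]
    rfl

theorem IsFinIndex.isCorner (h : IsState τ) (h1 : τ 1 = 1) (hI : IsFinIndex τ N E m d) {p : A}
    (hpp : p * p = p) (hps : star p = p) (hpN : ∀ y ∈ N, y * p = p * y) {t : ℝ}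
    (ht : τ p = (t : ℂ)) (t0 : 0 < t) {c : ℝ}
    (hc : ∑ j, m j * p * star (m j) = algebraMap ℂ A c) :
    IsCorner τ p (Fc E p t) (fun j => ((Real.sqrt t : ℝ) : ℂ) • (p * m j * p)) (t * c) := by
  have t0' : (t : ℂ) ≠ 0 := by exact_mod_cast t0.ne'
  set F := Fc E p t with hF
  have Fa : ∀ x, F x = ((t : ℂ)⁻¹) • (E (p * x * p) * p) := fun x => rfl
  have sq : (((Real.sqrt t : ℝ) : ℂ)) * ((Real.sqrt t : ℝ) : ℂ) = t := by
    rw [← Complex.ofReal_mul, Real.mul_self_sqrt t0.le]
  have hEp : E p = algebraMap ℂ A (t : ℂ) := by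
    rw [hI.E_scalar h1 hpN, ht]
  have comm : ∀ x, E x * p = p * E x := fun x => hpN _ (hI.range x)
  refine ⟨hpp, hps, ?_, ?_, ?_, ?_, ?_, ?_, ?_, ?_, ?_, ?_, ?_⟩
  · intro x
    rw [Fa, mul_smul_comm, ← mul_assoc, ← comm, mul_assoc, hpp]
  · intro x
    rw [Fa, smul_mul_assoc, mul_assoc, hpp]
  · rw [Fa, hpp, hpp, hEp, Algebra.algebraMap_eq_smul_one, smul_mul_assoc, one_mul, smul_smul,
      inv_mul_cancel₀ t0', one_smul]
  · intro x y
    have e1 : p * (F x * y) * p
        = ((t : ℂ)⁻¹) • (E (p * x * p) * (p * y * p)) := by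
      rw [Fa, smul_mul_assoc, mul_smul_comm, smul_mul_assoc]
      congr 1
      rw [← mul_assoc, ← mul_assoc, ← comm, mul_assoc (E (p * x * p)) (p) (p), hpp,
        mul_assoc, mul_assoc, ← mul_assoc (p) y (p)]
    rw [Fa (F x * y), e1, map_smul, hI.left _ (hI.range _), Fa, Fa, smul_mul_assoc,
      smul_mul_assoc, mul_smul_comm, mul_assoc (E (p * x * p)) (p), ← mul_assoc (p),
      ← comm (p * y * p), mul_assoc (E (p * y * p)) (p) (p), hpp, mul_assoc]
  · intro x y
    have e1 : p * (x * F y) * p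
        = ((t : ℂ)⁻¹) • ((p * x * p) * E (p * y * p)) := by
      rw [Fa, mul_smul_comm, mul_smul_comm, smul_mul_assoc]
      congr 1
      rw [← mul_assoc, ← mul_assoc, mul_assoc _ (p) (p), hpp, mul_assoc, comm,
        ← mul_assoc]
    rw [Fa (x * F y), e1, map_smul, hI.right _ (hI.range _), Fa, Fa, smul_mul_assoc,
      smul_mul_assoc, mul_smul_comm, mul_assoc (E (p * x * p)) (p), ← mul_assoc (p),
      ← comm (p * y * p), mul_assoc (E (p * y * p)) (p) (p), hpp, mul_assoc]
  · intro x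
    rw [Fa, Fa, star_smul, star_mul, hps, ← hI.star_E h, star_mul, star_mul, hps, ← mul_assoc,
      ← comm]
    congr 1
    rw [← Complex.ofReal_inv, Complex.star_def, Complex.conj_ofReal]
  · intro x
    rw [Fa, map_smul, ← hI.tr (E (p * x * p) * p), hI.left _ (hI.range _), hEp,
      Algebra.algebraMap_eq_smul_one, mul_smul_comm, mul_one, map_smul, smul_smul,
      inv_mul_cancel₀ t0', one_smul, hI.tr, h.tr, ← mul_assoc, hpp]
  · intro j
    rw [mul_smul_comm, ← mul_assoc, ← mul_assoc, hpp]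
  · intro j
    rw [smul_mul_assoc, mul_assoc, hpp]
  · intro x hx hx'
    have e1 : ∀ j, (((Real.sqrt t : ℝ) : ℂ) • (p * m j * p))
        * F (star (((Real.sqrt t : ℝ) : ℂ) • (p * m j * p)) * x)
        = p * (m j * E (star (m j) * x)) * p := by
      intro j
      have e2 : p * (star (p * m j * p) * x) * p = p * (star (m j) * x) := by
        rw [star_mul, star_mul, hps, mul_assoc, mul_assoc, mul_assoc, mul_assoc, hx', hx,
          ← mul_assoc (p) (p), hpp]
      have e3 : E (p * (star (m j) * x)) = E (star (m j) * x) := by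
        rw [← hI.E_comm h (hpN), mul_assoc, hx']
      have e4 : star (((Real.sqrt t : ℝ) : ℂ) • (p * m j * p)) * x
          = ((Real.sqrt t : ℝ) : ℂ) • (star (p * m j * p) * x) := by
        rw [star_smul, smul_mul_assoc, Complex.star_def, Complex.conj_ofReal]
      rw [e4, map_smul, Fa, e2, e3, mul_smul_comm, mul_smul_comm, smul_mul_assoc, smul_smul,
        smul_smul, mul_assoc _ _ ((Real.sqrt t : ℝ) : ℂ), mul_comm ((t : ℂ)⁻¹), ← mul_assoc, sq,
        mul_inv_cancel₀ t0', one_smul, mul_assoc (p * m j) (p), ← mul_assoc (p) _ (p),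
        ← comm, mul_assoc (E _) (p) (p), hpp, ← mul_assoc, mul_assoc (p)]
    rw [Finset.sum_congr rfl fun j _ => e1 j, ← Finset.sum_mul, ← Finset.mul_sum, hI.basis, hx,
      hx']
  · have e1 : ∀ j, (((Real.sqrt t : ℝ) : ℂ) • (p * m j * p))
        * star (((Real.sqrt t : ℝ) : ℂ) • (p * m j * p))
        = (t : ℂ) • (p * (m j * p * star (m j)) * p) := by
      intro j
      rw [star_smul, Complex.star_def, Complex.conj_ofReal, mul_smul_comm, smul_mul_assoc,
        smul_smul, sq, star_mul, star_mul, hps]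
      congr 1
      rw [← mul_assoc, ← mul_assoc, mul_assoc (p * m j) (p) (p), hpp, ← mul_assoc,
        ← mul_assoc]
    rw [Finset.sum_congr rfl fun j _ => e1 j, ← Finset.smul_sum, ← Finset.sum_mul,
      ← Finset.mul_sum, hc, Algebra.algebraMap_eq_smul_one, mul_smul_comm, mul_one,
      smul_mul_assoc, hpp, smul_smul]
    push_cast
    rfl

theorem IsFinIndex.exists_c (h : IsState τ) (h1 : τ 1 = 1)
    (hcen : ∀ z : A, (∀ y, z * y = y * z) → ∃ c : ℂ, z = algebraMap ℂ A c)
    (hI : IsFinIndex τ N E m d) {p : A} (hpp : p * p = p) (hps : star p = p)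
    (hpN : ∀ y ∈ N, y * p = p * y) :
    ∃ c : ℝ, ∑ j, m j * p * star (m j) = algebraMap ℂ A c := by
  obtain ⟨c, hc⟩ := hcen _ (hI.cp_comm h hpN)
  have h2 : c = τ (∑ j, m j * p * star (m j)) := by
    rw [hc, Algebra.algebraMap_eq_smul_one, map_smul, h1, smul_eq_mul, mul_one]
  have h3 : τ (∑ j, m j * p * star (m j))
      = ((∑ j, (τ (star (star (m j * p)) * star (m j * p))).re : ℝ) : ℂ) := by
    rw [map_sum]
    push_cast
    refine Finset.sum_congr rfl fun j _ => ?_
    rw [← h.real, star_star, star_mul, hps, ← mul_assoc (m j * p), mul_assoc (m j) p p, hpp]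
  exact ⟨_, by rw [hc, h2, h3]⟩

theorem IsFinIndex.sum_c (h1 : τ 1 = 1) (hI : IsFinIndex τ N E m d) {κ : Type} [Fintype κ]
    {p : κ → A} (hsum : ∑ i, p i = 1) {c : κ → ℝ}
    (hc : ∀ i, ∑ j, m j * p i * star (m j) = algebraMap ℂ A (c i)) : ∑ i, c i = d := by
  have h2 : ∑ i, ∑ j, m j * p i * star (m j) = algebraMap ℂ A d := by
    rw [Finset.sum_comm, ← hI.index]
    refine Finset.sum_congr rfl fun j _ => ?_
    rw [← Finset.sum_mul, ← Finset.mul_sum, hsum, mul_one]
  rw [Finset.sum_congr rfl fun i _ => hc i, ← map_sum] at h2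
  have h3 := congrArg τ h2
  rw [Algebra.algebraMap_eq_smul_one, Algebra.algebraMap_eq_smul_one, map_smul, map_smul, h1,
    smul_eq_mul, smul_eq_mul, mul_one, mul_one] at h3
  exact_mod_cast h3

/-- `y ↦ y p` is injective on `N` -/
theorem IsFinIndex.inj (h : IsState τ) (h1 : τ 1 = 1) (hI : IsFinIndex τ N E m d) {p : A}
    (hpN : ∀ y ∈ N, y * p = p * y) (hpt : τ p ≠ 0) {y : A} (hy : y ∈ N) (h2 : y * p = 0) :
    y = 0 := by
  have h3 : E (star y * y * p) = 0 := by
    rw [mul_assoc, h2, mul_zero, map_zero]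
  rw [hI.left _ (mul_mem (star_mem hy) hy), hI.E_scalar h1 hpN,
    Algebra.algebraMap_eq_smul_one, mul_smul_comm, mul_one] at h3
  have h5 := (smul_eq_zero.1 h3).resolve_left hpt
  exact h.faith y (by rw [h5, map_zero])

/-- the gap between the index values 1 and 2 -/
theorem IsFinIndex.gap (h : IsState τ) (h1 : τ 1 = 1) (hI : IsFinIndex τ N E m d) (hd : d < 2) :
    d = 1 ∧ N = ⊤ := by
  have key : IsCorner τ 1 E m d := by
    refine ⟨one_mul 1, star_one A, fun x => one_mul _, fun x => mul_one _, hI.id_on 1 (one_mem N),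
      fun x y => hI.left _ (hI.range x) y, fun x y => hI.right _ (hI.range y) x, hI.star_E h,
      fun x => by rw [hI.tr, one_mul], fun j => one_mul _, fun j => mul_one _,
      fun x _ _ => hI.basis x, ?_⟩
    rw [hI.index, Algebra.algebraMap_eq_smul_one]
  have hE : ∀ x, E x = x := fun x =>
    Pool.Agent.MUF.gap h key (by rw [h1]; exact zero_lt_one) hd x (one_mul x) (mul_one x)
  refine ⟨?_, ?_⟩
  · have h2 := hI.basis 1
    simp only [hE, mul_one] at h2
    rw [hI.index] at h2
    have h3 := congrArg τ h2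
    rw [Algebra.algebraMap_eq_smul_one, map_smul, h1, smul_eq_mul, mul_one] at h3
    exact_mod_cast h3
  · rw [eq_top_iff]
    intro x _
    have h2 := hI.range x
    rwa [hE] at h2

end Pool.Agent.MUF
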