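import Pool.Agent.MUF.Corner
import Pool.Agent.MUF.Centre
import Pool.Agent.MUF.Local

/-!
# MUF: the main step

MP_a83bb2_an (helper13).
-/

set_option autoImplicit false

open Filter Topology
open scoped Matrix Matrix.Norms.L2Operator

noncomputable section

namespace Pool.Agent.MUF

variable {U : Ultrafilter ℕ}

theorem exists_class {K : ℕ} (hK : 0 < K) (U : Ultrafilter ℕ) :
    ∃ i, {n : ℕ | n % K = i} ∈ U := by
  obtain ⟨i, -, hi⟩ := Ultrafilter.eq_pure_of_finite_mem (f := U.map fun n => n % K)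
    (Set.finite_Iio K) (by
      rw [Ultrafilter.mem_map]
      exact Filter.univ_mem' fun n => Nat.mod_lt n hK)
  refine ⟨i, ?_⟩
  have h1 : ({i} : Set ℕ) ∈ U.map fun n => n % K := by
    rw [hi]
    exact Ultrafilter.mem_pure.2 rfl
  exact Ultrafilter.mem_map.1 h1

/-- `n ↦ ⌊t n⌋` -/
def fl (t : ℝ) (n : ℕ) : ℕ := ⌊t * n⌋₊

theorem exists_injOn {t : ℝ} (t0 : 0 < t) (U : Ultrafilter ℕ) :
    ∃ S ∈ U, Set.InjOn (fl t) S := by
  obtain ⟨K, hK⟩ := exists_nat_ge (1 / t)
  have hK1 : 1 ≤ t * K := by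
    rw [div_le_iff₀ t0] at hK
    linarith
  have hK0 : 0 < K := by
    rcases Nat.eq_zero_or_pos K with h | h
    · rw [h, Nat.cast_zero, mul_zero] at hK1
      linarith
    · exact h
  obtain ⟨i, hi⟩ := exists_class hK0 U
  refine ⟨_, hi, ?_⟩
  have key : ∀ a b : ℕ, a % K = i → b % K = i → a < b → fl t a < fl t b := by
    intro a b ha hb hab
    have h1 : a + K ≤ b := by
      have h2 := Nat.div_add_mod a K
      have h3 := Nat.div_add_mod b K
      rw [ha] at h2
      rw [hb] at h3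
      have h4 : a / K < b / K := by
        by_contra hcon
        push Not at hcon
        have h5 := Nat.mul_le_mul_left K hcon
        omega
      have h5 : K * (a / K + 1) ≤ K * (b / K) := Nat.mul_le_mul_left K h4
      rw [Nat.mul_add, Nat.mul_one] at h5
      omega
    have h2 : t * a + 1 ≤ t * b := by
      have h3 : ((a + K : ℕ) : ℝ) ≤ b := by exact_mod_cast h1
      push_cast at h3
      have h4 := mul_le_mul_of_nonneg_left h3 t0.le
      rw [mul_add] at h4
      linarith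
    have h3 : ⌊t * a + 1⌋₊ ≤ ⌊t * b⌋₊ := Nat.floor_mono h2
    rw [Nat.floor_add_one (by positivity)] at h3
    exact h3
  intro a ha b hb hab
  rcases lt_trichotomy a b with h | h | h
  · exact absurd hab (key a b ha hb h).ne
  · exact h
  · exact absurd hab.symm (key b a hb ha h).ne

theorem tendsto_fl_div {t : ℝ} (t0 : 0 < t) (hU : (U : Filter ℕ) ≤ cofinite) :
    Tendsto (fun n => (fl t n : ℝ) / n) U (𝓝 t) := by
  rw [Nat.cofinite_eq_atTop] at hU
  exact ((tendsto_nat_floor_mul_div_atTop t0.le).comp tendsto_natCast_atTop_atTop).mono_left hU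

theorem tendsto_fl {t : ℝ} (t0 : 0 < t) (hU : (U : Filter ℕ) ≤ cofinite) :
    ((U.map (fl t) : Ultrafilter ℕ) : Filter ℕ) ≤ cofinite := by
  rw [Nat.cofinite_eq_atTop] at hU ⊢
  rw [Ultrafilter.coe_map]
  exact (tendsto_nat_floor_atTop.comp
    (tendsto_natCast_atTop_atTop.const_mul_atTop t0)).mono_left hU

theorem tau_proj_pos {p : MU U} (h0 : p ≠ 0) (hp : p * p = p) (hs : star p = p) :
    0 < (tau U p).re := by
  have h1 := isState_tau.pos p
  rw [hs, hp] at h1
  refine lt_of_le_of_ne h1 fun h2 => h0 ?_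
  have h3 := (isState_tau (U := U)).real p
  rw [hs, hp, ← h2, Complex.ofReal_zero] at h3
  exact isState_tau.faith p (by rw [hs, hp, h3])

theorem tau_proj_le (hU : (U : Filter ℕ) ≤ cofinite) {p : MU U} (hp : p * p = p)
    (hs : star p = p) : (tau U p).re ≤ 1 := by
  have h1 := isState_tau.pos (1 - p)
  rw [star_sub, star_one, hs, sub_mul, one_mul, mul_sub, mul_one, hp, sub_self, sub_zero,
    map_sub, tau_one hU, Complex.sub_re, Complex.one_re] at h1
  linarith

theorem tau_psi {r : ℕ → ℕ} {v : ∀ n, Matrix (Fin (r n)) (Fin n) ℂ}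
    (hv : ∀ n, v n * (v n)ᴴ = 1) {t : ℝ} (t0 : 0 < t)
    (hrt : Tendsto (fun n => (r n : ℝ) / n) U (𝓝 t)) (z : MU (U.map r)) :
    tau U (psi hv U z) = t * tau (U.map r) z := by
  obtain ⟨b, rfl⟩ := cl_surj _ z
  rw [psi_cl hv t0 hrt]
  refine tau_cl_eq ?_
  have h1 : Tendsto (fun n => ntr (b.1 (r n))) U (𝓝 (tau (U.map r) (cl (U.map r) b))) := by
    have h2 := tendsto_tau (U := U.map r) b
    rw [Ultrafilter.coe_map, tendsto_map'_iff] at h2
    exact h2
  have h2 : Tendsto (fun n => (((r n : ℝ) / n : ℝ) : ℂ)) U (𝓝 (t : ℂ)) :=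
    (Complex.continuous_ofReal.tendsto t).comp hrt
  refine (h2.mul h1).congr fun n => ?_
  rw [push_apply]
  unfold ntr
  rw [Matrix.trace_mul_comm, ← Matrix.mul_assoc, hv n, Matrix.one_mul]
  push_cast
  rcases Nat.eq_zero_or_pos (r n) with h0 | h0
  · have h3 : (b.1 (r n)).trace = 0 := by
      have : IsEmpty (Fin (r n)) := by
        rw [h0]
        infer_instance
      exact Matrix.trace_eq_zero_of_isEmpty _
    rw [h3]
    simp
  · have h3 : ((r n : ℕ) : ℂ) ≠ 0 := by exact_mod_cast h0.ne'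
    rw [div_mul_div_comm, mul_comm (n : ℂ), mul_div_mul_left _ _ h3]

theorem local_iso (hU : (U : Filter ℕ) ≤ cofinite) {N : StarSubalgebra ℂ (MU U)}
    {E : MU U →ₗ[ℂ] MU U} {ι : Type} [Fintype ι] {m : ι → MU U} {d : ℝ}
    (hI : IsFinIndex (tau U) N E m d) {p : MU U} (hp0 : p ≠ 0) (hpp : p * p = p)
    (hps : star p = p) (hpN : ∀ y ∈ N, y * p = p * y) {t : ℝ} (ht : (tau U p).re = t) {c : ℝ}
    (hc : ∑ j, m j * p * star (m j) = algebraMap ℂ (MU U) c) :
    ∃ (N₁ : StarSubalgebra ℂ (MU (U.map (fl t)))) (E₁ : MU (U.map (fl t)) →ₗ[ℂ] MU (U.map (fl t)))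
      (m₁ : ι → MU (U.map (fl t))), IsFinIndex (tau (U.map (fl t))) N₁ E₁ m₁ (t * c) ∧
      (∃ f : N ≃⋆ₐ[ℂ] N₁, ∀ y, tau (U.map (fl t)) (f y : MU (U.map (fl t)))
        = tau U (y : MU U)) ∧
      ∀ q : MU (U.map (fl t)), q * q = q → star q = q → q ≠ 0 → q ≠ 1 →
        (∀ y ∈ N₁, y * q = q * y) →
        ∃ q₁ q₂ : MU U, q₁ + q₂ = p ∧ (q₁ ≠ 0 ∧ q₁ * q₁ = q₁ ∧ star q₁ = q₁ ∧
          ∀ y ∈ N, y * q₁ = q₁ * y) ∧ (q₂ ≠ 0 ∧ q₂ * q₂ = q₂ ∧ star q₂ = q₂ ∧
          ∀ y ∈ N, y * q₂ = q₂ * y) := by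
  have t0 : 0 < t := by
    rw [← ht]
    exact tau_proj_pos hp0 hpp hps
  have t1 : t ≤ 1 := by
    rw [← ht]
    exact tau_proj_le hU hpp hps
  have htt : tau U p = (t : ℂ) := by
    have h1 := (isState_tau (U := U)).real p
    rw [hps, hpp, ht] at h1
    exact h1
  have t0c : (t : ℂ) ≠ 0 := by exact_mod_cast t0.ne'
  have hrt := tendsto_fl_div t0 hU
  have hr : ∀ n, fl t n ≤ n := by
    intro n
    refine Nat.floor_le_of_le ?_
    exact mul_le_of_le_one_left (Nat.cast_nonneg n) t1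
  obtain ⟨v, hv, hvp⟩ := exists_lift p hpp hps t htt (fl t) hr hrt
  obtain ⟨S, hS, hSinj⟩ := exists_injOn t0 U
  let Q : MU (U.map (fl t)) →ₗ[ℂ] MU U :=
    { toFun := psi hv U
      map_add' := psi_add hv t0 hrt
      map_smul' := psi_smul hv t0 hrt }
  have Qinj : Function.Injective Q := psi_inj hv t0 hrt
  have Qmul : ∀ z w, Q (z * w) = Q z * Q w := psi_mul hv t0 hrt
  have Qstar : ∀ z, Q (star z) = star (Q z) := psi_star hv t0 hrt
  have Qone : Q 1 = p := psi_one hv t0 hrt hvp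
  have Qtr : ∀ z, tau U (Q z) = t * tau (U.map (fl t)) z := tau_psi hv t0 hrt
  have Qsurj : ∀ x, p * x = x → x * p = x → ∃ z, Q z = x := fun x h1 h2 =>
    psi_surj hv t0 hrt hvp hS hSinj x h1 h2
  have pQ : ∀ z, p * Q z = Q z := by
    intro z
    rw [← Qone, ← Qmul, one_mul]
  have Qp : ∀ z, Q z * p = Q z := by
    intro z
    rw [← Qone, ← Qmul, mul_one]
  have hex : ∀ x : MU U, ∃ z, Q z = p * x * p := by
    intro x
    refine Qsurj _ ?_ ?_
    · rw [mul_assoc, ← mul_assoc p p, hpp]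
    · rw [mul_assoc (p * x), hpp]
  choose g hg using hex
  have hgN : ∀ y ∈ N, Q (g y) = y * p := by
    intro y hy
    rw [hg, ← hpN y hy, mul_assoc, hpp]
  have Qalg : ∀ a : ℂ, Q (algebraMap ℂ _ a) = a • p := by
    intro a
    rw [Algebra.algebraMap_eq_smul_one, map_smul, Qone]
  set F := Fc E p t with hF
  have Fa : ∀ x, F x = ((t : ℂ)⁻¹) • (E (p * x * p) * p) := fun x => rfl
  have key := hI.isCorner isState_tau (tau_one hU) hpp hps hpN htt t0 hc
  rw [← hF] at key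
  have gF : ∀ x, Q (g (F x)) = F x := by
    intro x
    rw [hg, key.pF, key.Fp]
  let N₁ : StarSubalgebra ℂ (MU (U.map (fl t))) :=
    { carrier := {z | ∃ y ∈ N, Q z = y * p}
      mul_mem' := by
        rintro z w ⟨y, hy, hz⟩ ⟨y', hy', hw⟩
        refine ⟨y * y', mul_mem hy hy', ?_⟩
        rw [Qmul, hz, hw, mul_assoc y p, ← mul_assoc p y' p, ← hpN y' hy', mul_assoc y' p p, hpp,
          mul_assoc]
      add_mem' := by
        rintro z w ⟨y, hy, hz⟩ ⟨y', hy', hw⟩
        exact ⟨y + y', add_mem hy hy', by rw [map_add, hz, hw, add_mul]⟩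
      algebraMap_mem' := by
        intro a
        refine ⟨algebraMap ℂ _ a, algebraMap_mem N a, ?_⟩
        rw [Qalg, Algebra.algebraMap_eq_smul_one, smul_mul_assoc, one_mul]
      star_mem' := by
        rintro z ⟨y, hy, hz⟩
        exact ⟨star y, star_mem hy, by rw [Qstar, hz, star_mul, hps, hpN _ (star_mem hy)]⟩ }
  have memN₁ : ∀ z, z ∈ N₁ ↔ ∃ y ∈ N, Q z = y * p := fun z => Iff.rfl
  have Fid : ∀ y ∈ N, F (y * p) = y * p := by
    intro y hy
    rw [Fa, ← mul_assoc, ← hpN y hy, mul_assoc y p p, hpp, mul_assoc y p p, hpp, hI.left y hy,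
      hI.E_scalar (tau_one hU) hpN, htt, Algebra.algebraMap_eq_smul_one, mul_smul_comm, mul_one,
      smul_mul_assoc, smul_smul, inv_mul_cancel₀ t0c, one_smul]
  let E₁ : MU (U.map (fl t)) →ₗ[ℂ] MU (U.map (fl t)) :=
    { toFun := fun z => g (F (Q z))
      map_add' := fun z w => Qinj (by rw [map_add Q (g _) (g _), gF, gF, gF, map_add, map_add])
      map_smul' := fun a z => Qinj (by
        show Q (g _) = Q (a • g _)
        rw [map_smul Q a (g _), gF, gF, map_smul, map_smul]) }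
  have QE : ∀ z, Q (E₁ z) = F (Q z) := fun z => gF _
  set u : ι → MU U := fun j => ((Real.sqrt t : ℝ) : ℂ) • (p * m j * p) with hu
  have Qu : ∀ j, Q (g (u j)) = u j := by
    intro j
    rw [hg, key.pu, key.up]
  have hN₁F : ∀ z ∈ N₁, F (Q z) = Q z := by
    rintro z ⟨y, hy, hz⟩
    rw [hz, Fid y hy]
  have tp0 : tau U p ≠ 0 := by
    rw [htt]
    exact t0c
  have hI₁ : IsFinIndex (tau (U.map (fl t))) N₁ E₁ (fun j => g (u j)) (t * c) := by
    refine ⟨?_, ?_, ?_, ?_, ?_, ?_, ?_, ?_⟩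
    · rintro z ⟨y, hy, hz⟩ hcom
      obtain ⟨a, ha⟩ := hI.factor y hy (by
        intro y' hy'
        have h1 := congrArg Q (hcom (g y') ⟨y', hy', hgN y' hy'⟩)
        rw [Qmul, Qmul, hz, hgN y' hy'] at h1
        rw [← sub_eq_zero]
        refine hI.inj isState_tau (tau_one hU) hpN tp0
          (sub_mem (mul_mem hy hy') (mul_mem hy' hy)) ?_
        rw [sub_mul, sub_eq_zero]
        rw [mul_assoc y p, ← mul_assoc p y' p, ← hpN y' hy', mul_assoc y' p p, hpp,
          mul_assoc y' p (y * p), ← mul_assoc p y p, ← hpN y hy, mul_assoc y p p, hpp] at h1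
        rw [mul_assoc, mul_assoc, h1])
      refine ⟨a, Qinj ?_⟩
      rw [hz, ha, Qalg, Algebra.algebraMap_eq_smul_one, smul_mul_assoc, one_mul]
    · intro z
      rw [memN₁, QE, Fa]
      exact ⟨((t : ℂ)⁻¹) • E (p * Q z * p), N.smul_mem (hI.range _) _, by rw [smul_mul_assoc]⟩
    · intro z hz
      exact Qinj (by rw [QE, hN₁F z hz])
    · intro w hw z
      refine Qinj ?_
      rw [QE, Qmul, Qmul, QE]
      nth_rw 1 [← hN₁F w hw]
      rw [key.l, hN₁F w hw]
    · intro w hw z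
      refine Qinj ?_
      rw [QE, Qmul, Qmul, QE]
      nth_rw 1 [← hN₁F w hw]
      rw [key.r, hN₁F w hw]
    · intro z
      refine mul_left_cancel₀ t0c ?_
      rw [← Qtr, ← Qtr, QE, key.tr, pQ]
    · intro z
      refine Qinj ?_
      rw [map_sum]
      refine Eq.trans ?_ (key.basis (Q z) (pQ z) (Qp z))
      refine Finset.sum_congr rfl fun j _ => ?_
      rw [Qmul, QE, Qmul, Qstar, Qu]
    · refine Qinj ?_
      rw [map_sum, Qalg]
      refine Eq.trans ?_ key.ind
      refine Finset.sum_congr rfl fun j _ => ?_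
      rw [Qmul, Qstar, Qu]
  have gmem : ∀ y : N, g (y : MU U) ∈ N₁ := fun y => ⟨y, y.2, hgN y y.2⟩
  let F₁ : N →⋆ₐ[ℂ] N₁ :=
    { toFun := fun y => ⟨g (y : MU U), gmem y⟩
      map_one' := Subtype.ext (Qinj (by
        show Q (g 1) = Q 1
        rw [hgN 1 (one_mem N), one_mul, Qone]))
      map_mul' := fun x y => Subtype.ext (Qinj (by
        show Q (g ((x : MU U) * y)) = Q (g x * g y)
        rw [Qmul, hgN _ (mul_mem x.2 y.2), hgN _ x.2, hgN _ y.2, mul_assoc (x : MU U) p _,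
          ← mul_assoc p (y : MU U) p, ← hpN _ y.2, mul_assoc (y : MU U) p p, hpp, mul_assoc]))
      map_zero' := Subtype.ext (Qinj (by
        show Q (g 0) = Q 0
        rw [hgN 0 (zero_mem N), zero_mul, map_zero]))
      map_add' := fun x y => Subtype.ext (Qinj (by
        show Q (g ((x : MU U) + y)) = Q (g x + g y)
        rw [map_add, hgN _ (add_mem x.2 y.2), hgN _ x.2, hgN _ y.2, add_mul]))
      commutes' := fun a => Subtype.ext (Qinj (by
        show Q (g (algebraMap ℂ (MU U) a)) = Q (algebraMap ℂ _ a)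
        rw [hgN _ (algebraMap_mem N a), Qalg, Algebra.algebraMap_eq_smul_one, smul_mul_assoc,
          one_mul]))
      map_star' := fun x => Subtype.ext (Qinj (by
        show Q (g (star (x : MU U))) = Q (star (g x))
        rw [Qstar, hgN _ (star_mem x.2), hgN _ x.2, star_mul, hps, hpN _ (star_mem x.2)])) }
  have hF₁ : ∀ y : N, Q (F₁ y : MU (U.map (fl t))) = (y : MU U) * p := fun y => hgN y y.2
  have hbij : Function.Bijective F₁ := by
    constructor
    · intro x y hxy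
      have h2 := congrArg (fun w : N₁ => Q (w : MU (U.map (fl t)))) hxy
      simp only [hF₁] at h2
      rw [← sub_eq_zero, ← sub_mul] at h2
      have h3 := hI.inj isState_tau (tau_one hU) hpN tp0 (sub_mem x.2 y.2) h2
      exact Subtype.ext (sub_eq_zero.1 h3)
    · rintro ⟨z, y, hy, hz⟩
      refine ⟨⟨y, hy⟩, Subtype.ext (Qinj ?_)⟩
      rw [hF₁]
      exact hz.symm
  refine ⟨N₁, E₁, _, hI₁, ⟨StarAlgEquiv.ofBijective F₁ hbij, ?_⟩, ?_⟩
  · intro y
    refine mul_left_cancel₀ t0c ?_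
    rw [← Qtr]
    show tau U (Q (F₁ y : MU (U.map (fl t)))) = _
    rw [hF₁, ← hI.tr, hI.left _ y.2, hI.E_scalar (tau_one hU) hpN, htt,
      Algebra.algebraMap_eq_smul_one, mul_smul_comm, mul_one, map_smul, smul_eq_mul]
  · intro q hqq hqs hq0 hq1 hqN
    have comm : ∀ w : MU (U.map (fl t)), (∀ y ∈ N₁, y * w = w * y) →
        ∀ y ∈ N, y * Q w = Q w * y := by
      intro w hw y hy
      have h1 := congrArg Q (hw (g y) ⟨y, hy, hgN y hy⟩)
      rw [Qmul, Qmul, hgN y hy, mul_assoc, pQ, hpN y hy, ← mul_assoc, Qp] at h1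
      exact h1
    have hq0' : (1 - q) ≠ 0 := sub_ne_zero.2 hq1.symm
    have hqq' : (1 - q) * (1 - q) = 1 - q := by
      rw [sub_mul, one_mul, mul_sub, mul_one, hqq, sub_self, sub_zero]
    have hqs' : star (1 - q) = 1 - q := by rw [star_sub, star_one, hqs]
    have hqN' : ∀ y ∈ N₁, y * (1 - q) = (1 - q) * y := by
      intro y hy
      rw [mul_sub, sub_mul, mul_one, one_mul, hqN y hy]
    have Q0 : ∀ w, w ≠ 0 → Q w ≠ 0 := by
      intro w hw h1
      exact hw (Qinj (by rw [h1, map_zero]))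
    refine ⟨Q q, Q (1 - q), ?_, ⟨Q0 q hq0, ?_, ?_, comm q hqN⟩,
      ⟨Q0 _ hq0', ?_, ?_, comm _ hqN'⟩⟩
    · rw [← map_add, add_sub_cancel, Qone]
    · rw [← Qmul, hqq]
    · rw [← Qstar, hqs]
    · rw [← Qmul, hqq']
    · rw [← Qstar, hqs']

end Pool.Agent.MUF
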