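import Pool.Agent.MUF.Defs

/-!
# MUF: the notions of the statement

MP_a83bb2_an (helper13).
-/

set_option autoImplicit false

open Filter Topology

noncomputable section

namespace Pool.Agent.MUF

/-- the unital *-subalgebras of `M^U` -/
def Sub (U : Ultrafilter ℕ) : Type := StarSubalgebra ℂ (MU U)

variable {U V : Ultrafilter ℕ}

/-- `x ∈ N` -/
def Mem (N : Sub U) (x : MU U) : Prop := x ∈ (show StarSubalgebra ℂ (MU U) from N)

/-- `M^U` as a subalgebra of itself -/
def full (U : Ultrafilter ℕ) : Sub U := (⊤ : StarSubalgebra ℂ (MU U))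

/-- `x` is a scalar -/
def IsScalar (x : MU U) : Prop := ∃ c : ℂ, x = algebraMap ℂ (MU U) c

/-- `x` commutes with all elements of `N` -/
def Comm (N : Sub U) (x : MU U) : Prop := ∀ y, Mem N y → y * x = x * y

/-- `E` restricts to a trace preserving conditional expectation of `P` onto `N` -/
structure CondExp (N P : Sub U) (E : MU U → MU U) : Prop where
  mem : ∀ x, Mem P x → Mem N (E x)
  id_on : ∀ y, Mem N y → E y = y
  left : ∀ x y, Mem P x → Mem N y → E (y * x) = y * E x
  right : ∀ x y, Mem P x → Mem N y → E (x * y) = E x * y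
  tr : ∀ x t, Mem P x → IsTrace x t → IsTrace (E x) t

/-- `m` is a basis of `P` with respect to the expectation `E`, of index `d` -/
structure IsBasis (P : Sub U) (E : MU U → MU U) (k : ℕ) (m : Fin k → MU U) (d : ℝ) : Prop where
  mem : ∀ j, Mem P (m j)
  basis : ∀ x, Mem P x → ∑ j, m j * E (star (m j) * x) = x
  index : ∑ j, m j * star (m j) = algebraMap ℂ (MU U) d

/-- `N ⊆ P`, the centre of `N` is trivial, and `N ⊆ P` has the finite index `d` -/
structure IsIndex (N P : Sub U) (d : ℝ) : Prop where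
  le : ∀ x, Mem N x → Mem P x
  factor : ∀ x, Mem N x → Comm N x → IsScalar x
  basis : ∃ (E : MU U → MU U) (k : ℕ) (m : Fin k → MU U), CondExp N P E ∧ IsBasis P E k m d

/-- `p` is a non-zero projection in `N' ∩ P` -/
def IsProj (N P : Sub U) (p : MU U) : Prop :=
  Mem P p ∧ Comm N p ∧ p ≠ 0 ∧ p * p = p ∧ star p = p

/-- either `S ≤ 4` and `N' ∩ P` does not consist of scalars, or `1` is a sum of non-zero
projections `p_i` in `N' ∩ P` and `S ≤ ∑ 1 / τ(p_i)` -/
def Parts (N P : Sub U) (S : ℝ) : Prop :=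
  (S ≤ 4 ∧ ∃ z, Mem P z ∧ Comm N z ∧ ¬ IsScalar z) ∨
  ∃ (l : ℕ) (p : Fin l → MU U) (t : Fin l → ℝ),
    (∀ i, IsProj N P (p i) ∧ IsTrace (p i) (t i)) ∧ ∑ i, p i = 1 ∧ S ≤ ∑ i, 1 / t i

/-- `N` is the first member of a chain `N = N_0 ⊆ N_1 ⊆ ⋯ ⊆ N_r = M^U` (`r ≥ 0`) of inclusions of
finite index `d` with `Parts` for some `S > d / 2` -/
inductive Chain (U : Ultrafilter ℕ) : Sub U → Prop
  | top : Chain U (full U)
  | step (N P : Sub U) (d S : ℝ) : Chain U P → IsIndex N P d → Parts N P S →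
      d < 2 * S → Chain U N

/-- `f` restricts to a trace preserving *-isomorphism of `N` onto `N₁` -/
structure IsIso (N : Sub U) (N₁ : Sub V) (f : MU U → MU V) : Prop where
  bij : Set.BijOn f {x | Mem N x} {y | Mem N₁ y}
  add : ∀ x y, Mem N x → Mem N y → f (x + y) = f x + f y
  mul : ∀ x y, Mem N x → Mem N y → f (x * y) = f x * f y
  smul : ∀ (c : ℂ) (x), Mem N x → f (c • x) = c • f x
  star : ∀ x, Mem N x → f (star x) = star (f x)
  tr : ∀ x t, Mem N x → IsTrace x t → IsTrace (f x) t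

end Pool.Agent.MUF
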