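import Pool.Agent.MUF.Inner

/-!
# MUF: finite index subfactors which are ultraproducts of subalgebras; tensor decomposition

MP_a83bb2_an (helper13).
-/

set_option autoImplicit false

open Filter Topology
open scoped Matrix Matrix.Norms.L2Operator

noncomputable section

namespace Pool.Agent.MUF

variable {U : Ultrafilter ℕ} {A : ∀ n : ℕ, StarSubalgebra ℂ (Matrix (Fin n) (Fin n) ℂ)}
  {N : StarSubalgebra ℂ (MU U)} {E : MU U →ₗ[ℂ] MU U} {ι : Type} [Fintype ι] {m : ι → MU U}
  {d : ℝ}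

theorem parted_one (hU : (U : Filter ℕ) ≤ cofinite) (hN : UP A N)
    (hI : IsFinIndex (tau U) N E m d) : Parted U A 1 := by
  obtain ⟨K, hK⟩ := exists_nat_gt d
  rcases parted_or_many hU hN K 1 (fun n => PC.one) with h | ⟨p, hp, hpo⟩
  · exact h
  · exfalso
    have hre : ∀ i, tau U (p i) = ((tau U (p i)).re : ℂ) := by
      intro i
      have h1 := (isState_tau (U := U)).real (p i)
      rwa [(hp i).1.2.2.1, (hp i).1.2.1] at h1
    have h1 := hI.card_le isState_tau (tau_one hU)
      (fun i => (((Real.sqrt (tau U (p i)).re)⁻¹ : ℝ) : ℂ) • p i)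
      (fun i y hy => by rw [mul_smul_comm, smul_mul_assoc, (hp i).1.2.2.2 y hy])
      (fun i j => by
        rw [star_smul, Complex.star_def, Complex.conj_ofReal, smul_mul_assoc, mul_smul_comm,
          smul_smul, map_smul, smul_eq_mul, (hp i).1.2.2.1]
        split_ifs with hij
        · subst hij
          rw [(hp i).1.2.1, hre i]
          have h2 := (hp i).1.pos
          have h3 : (Real.sqrt (tau U (p i)).re)⁻¹ * (Real.sqrt (tau U (p i)).re)⁻¹
              * (tau U (p i)).re = 1 := by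
            rw [← mul_inv, Real.mul_self_sqrt h2.le, inv_mul_cancel₀ h2.ne']
          rw [Complex.ofReal_re]
          exact_mod_cast h3
        · rw [hpo i j hij, map_zero, mul_zero])
    linarith

/-- all of the corner at an atom comes from `N` -/
theorem corner_full (hN : UP A N) {f : Bdd} (hf : Atom A f) {x : MU U}
    (h1 : cl U f * x = x) (h2 : x * cl U f = x) : ∃ y ∈ N, y * cl U f = x := by
  obtain ⟨b, rfl⟩ := cl_surj U x
  obtain ⟨C, hC⟩ := b.2
  have hC0 : 0 ≤ C := (norm_nonneg _).trans (hC 0)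
  have hex : ∀ n, ∃ a ∈ A n, a * f.1 n = f.1 n * b.1 n * f.1 n ∧ ‖a‖ ≤ C := by
    intro n
    rcases hf n with hfn | hfn
    · have h3 := hfn.1.norm_le
      obtain ⟨a, ha, haf, hn, -⟩ := exists_bdd_lift (w := f.1 n * b.1 n * f.1 n) (C := C) hfn
        (by rw [← mul_assoc, ← mul_assoc, hfn.1.1]) (by rw [mul_assoc, hfn.1.1]) hC0 (by
          calc ‖f.1 n * b.1 n * f.1 n‖ ≤ ‖f.1 n * b.1 n‖ * ‖f.1 n‖ := Matrix.l2_opNorm_mul _ _
            _ ≤ ‖f.1 n * b.1 n‖ * 1 := mul_le_mul_of_nonneg_left h3 (norm_nonneg _)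
            _ = ‖f.1 n * b.1 n‖ := mul_one _
            _ ≤ ‖f.1 n‖ * ‖b.1 n‖ := Matrix.l2_opNorm_mul _ _
            _ ≤ 1 * ‖b.1 n‖ := mul_le_mul_of_nonneg_right h3 (norm_nonneg _)
            _ = ‖b.1 n‖ := one_mul _
            _ ≤ C := hC n)
      exact ⟨a, ha, haf, hn⟩
    · exact ⟨0, zero_mem _, by rw [hfn, mul_zero, mul_zero], by rw [norm_zero]; exact hC0⟩
  choose a ha haf hn using hex
  refine ⟨cl U ⟨a, C, hn⟩, (hN _).2 ⟨_, ha, rfl⟩, ?_⟩
  rw [← map_mul]
  have h3 : (⟨a, C, hn⟩ : Bdd) * f = f * b * f := Subtype.ext (funext haf)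
  rw [h3, map_mul, map_mul, h1, h2]

theorem Atom.eventually {f : Bdd} (hf : Atom A f) (h0 : cl U f ≠ 0) :
    ∀ᶠ n in (U : Filter ℕ), MinP (A n) (f.1 n) := by
  by_contra h
  rw [← Ultrafilter.eventually_not] at h
  refine h0 ?_
  rw [← map_zero (cl U)]
  refine cl_congr ?_
  filter_upwards [h] with n hn
  exact (hf n).resolve_left hn

/-- two atoms are equivalent in the relative commutant -/
theorem exists_v (hU : (U : Filter ℕ) ≤ cofinite) (hN : UP A N)
    (hI : IsFinIndex (tau U) N E m d) {f g : Bdd} (hf : Atom A f) (hg : Atom A g)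
    (hf0 : cl U f ≠ 0) (hg0 : cl U g ≠ 0) :
    ∃ v : MU U, star v * v = cl U f ∧ v * star v = cl U g ∧ ∀ y ∈ N, y * v = v * y := by
  classical
  have hff := hf.eventually hf0
  have hgg := hg.eventually hg0
  have hD : ∀ᶠ n in (U : Filter ℕ), ∃ x, InC (A n) x ∧ g.1 n * x * f.1 n ≠ 0 := by
    by_contra h
    rw [← Ultrafilter.eventually_not] at h
    have hex : ∀ n, ∃ a ∈ A n, ‖a‖ ≤ 1 ∧ (MinP (A n) (f.1 n) →
        (¬ ∃ x, InC (A n) x ∧ g.1 n * x * f.1 n ≠ 0) →
        a * f.1 n = f.1 n ∧ a * g.1 n = 0) := by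
      intro n
      by_cases hc : MinP (A n) (f.1 n) ∧ ¬ ∃ x, InC (A n) x ∧ g.1 n * x * f.1 n ≠ 0
      · obtain ⟨h1, h2⟩ := hc
        obtain ⟨a, ha, haf, hn, hag⟩ := exists_bdd_lift (w := f.1 n) (C := 1) h1 h1.1.1 h1.1.1
          zero_le_one h1.1.norm_le
        refine ⟨a, ha, hn, fun _ _ => ⟨haf, hag _ (hg.ipc n) fun x hx => ?_⟩⟩
        by_contra h3
        exact h2 ⟨x, hx, h3⟩
      · exact ⟨0, zero_mem _, by rw [norm_zero]; exact zero_le_one, fun h1 h2 =>
          absurd ⟨h1, h2⟩ hc⟩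
    choose a ha hn hafg using hex
    have hy : cl U ⟨a, 1, hn⟩ ∈ N := (hN _).2 ⟨_, ha, rfl⟩
    have h1 : cl U ⟨a, 1, hn⟩ * cl U f = cl U f := by
      rw [← map_mul]
      refine cl_congr ?_
      filter_upwards [hff, h] with n hn1 hn2
      exact (hafg n hn1 hn2).1
    have h2 : cl U ⟨a, 1, hn⟩ * cl U g = 0 := by
      rw [← map_mul, ← map_zero (cl U)]
      refine cl_congr ?_
      filter_upwards [hff, h] with n hn1 hn2
      exact (hafg n hn1 hn2).2
    have hgp := hg.ipc.pos (U := U) hg0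
    have h3 := hI.inj isState_tau (tau_one hU) (hg.ipc.isPart hN hg0).2.2.2
      (fun h4 => by rw [h4, Complex.zero_re] at hgp; exact lt_irrefl _ hgp) hy h2
    rw [h3, zero_mul] at h1
    exact hf0 h1.symm
  have hex : ∀ n, ∃ v, InC (A n) v ∧ ‖v‖ ≤ 1 ∧ (MinP (A n) (f.1 n) → MinP (A n) (g.1 n) →
      (∃ x, InC (A n) x ∧ g.1 n * x * f.1 n ≠ 0) → vᴴ * v = f.1 n ∧ v * vᴴ = g.1 n) := by
    intro n
    by_cases hc : MinP (A n) (f.1 n) ∧ MinP (A n) (g.1 n) ∧
        ∃ x, InC (A n) x ∧ g.1 n * x * f.1 n ≠ 0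
    · obtain ⟨h1, h2, x, hx, h3⟩ := hc
      obtain ⟨v, hv, hv1, hv2⟩ := exists_pi h1 h2 hx h3
      exact ⟨v, hv, norm_pi_le h1.1.1 h1.1.2.1 hv1, fun _ _ _ => ⟨hv1, hv2⟩⟩
    · exact ⟨0, InC.zero, by rw [norm_zero]; exact zero_le_one, fun h1 h2 h3 =>
        absurd ⟨h1, h2, h3⟩ hc⟩
  choose v hv hn hvv using hex
  refine ⟨cl U ⟨v, 1, hn⟩, ?_, ?_, hN.comm hv⟩
  · rw [star_cl, ← map_mul]
    refine cl_congr ?_
    filter_upwards [hff, hgg, hD] with n h1 h2 h3
    exact (hvv n h1 h2 h3).1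
  · rw [star_cl, ← map_mul]
    refine cl_congr ?_
    filter_upwards [hff, hgg, hD] with n h1 h2 h3
    exact (hvv n h1 h2 h3).2

/-- linearity of the expectation -/
theorem finIndex_of_isIndex (h : IsIndex (U := U) N (full U) d) :
    ∃ (k : ℕ) (E : MU U →ₗ[ℂ] MU U) (m : Fin k → MU U), IsFinIndex (tau U) N E m d := by
  obtain ⟨-, hfac, e, k, m, ⟨hmem, hid, hl, hr, htr⟩, ⟨-, hbas, hind⟩⟩ := h
  have et : ∀ z, tau U (e z) = tau U z := fun z => (htr z _ trivial (isTrace_tau z)).eq
  have eN : ∀ z, e z ∈ N := fun z => hmem z trivial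
  have er : ∀ z, ∀ y ∈ N, e (z * y) = e z * y := fun z y hy => hr z y trivial hy
  have eadd : ∀ z w, e (z + w) = e z + e w := by
    intro z w
    rw [← sub_eq_zero]
    refine eq_zero_of_orth isState_tau (sub_mem (eN _) (add_mem (eN _) (eN _))) fun b hb => ?_
    rw [sub_mul, add_mul, ← er _ b hb, ← er _ b hb, ← er _ b hb, map_sub, map_add, et, et, et,
      add_mul, map_add, sub_self]
  have esmul : ∀ (c : ℂ) z, e (c • z) = c • e z := by
    intro c z
    rw [← sub_eq_zero]
    refine eq_zero_of_orth isState_tau (sub_mem (eN _) (N.smul_mem (eN _) c)) fun b hb => ?_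
    rw [sub_mul, smul_mul_assoc, ← er _ b hb, ← er _ b hb, map_sub, map_smul, et, et,
      smul_mul_assoc, map_smul, sub_self]
  refine ⟨k, { toFun := e, map_add' := eadd, map_smul' := esmul }, m,
    fun z hz hc => hfac z hz fun y hy => (hc y hy).symm, eN, hid, fun y hy z => hl z y trivial hy,
    fun y hy z => er z y hy, et, fun z => hbas z trivial, hind⟩

/-- the local index of a full corner is 1 -/
theorem local_one (hU : (U : Filter ℕ) ≤ cofinite) (hI : IsFinIndex (tau U) N E m d) {p : MU U}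
    (hp : IsPart N p) (hfull : ∀ x, p * x = x → x * p = x → ∃ y ∈ N, y * p = x) {c : ℝ}
    (hc : ∑ j, m j * p * star (m j) = algebraMap ℂ (MU U) c) : (tau U p).re * c = 1 := by
  obtain ⟨hp0, hpp, hps, hpN⟩ := hp
  have t0 := tau_proj_pos hp0 hpp hps
  have htt : tau U p = ((tau U p).re : ℂ) := by
    have h1 := (isState_tau (U := U)).real p
    rwa [hps, hpp] at h1
  have t0c : ((tau U p).re : ℂ) ≠ 0 := by exact_mod_cast t0.ne'
  have key := hI.isCorner isState_tau (tau_one hU) hpp hps hpN htt t0 hc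
  set t := (tau U p).re with ht
  set F := Fc E p t with hF
  have Fa : ∀ x, F x = ((t : ℂ)⁻¹) • (E (p * x * p) * p) := fun x => rfl
  have Fid : ∀ x, p * x = x → x * p = x → F x = x := by
    intro x h1 h2
    obtain ⟨y, hy, rfl⟩ := hfull x h1 h2
    rw [Fa, ← mul_assoc, ← hpN y hy, mul_assoc y p p, hpp, mul_assoc y p p, hpp, hI.left y hy,
      hI.E_scalar (tau_one hU) hpN, htt, Algebra.algebraMap_eq_smul_one, mul_smul_comm, mul_one,
      smul_mul_assoc, smul_smul, inv_mul_cancel₀ t0c, one_smul]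
  have h1 := key.basis p hpp hpp
  have h2 : ∑ j, (((Real.sqrt t : ℝ) : ℂ) • (p * m j * p)) *
      F (star (((Real.sqrt t : ℝ) : ℂ) • (p * m j * p)) * p)
      = ∑ j, (((Real.sqrt t : ℝ) : ℂ) • (p * m j * p)) *
      star (((Real.sqrt t : ℝ) : ℂ) • (p * m j * p)) := by
    refine Finset.sum_congr rfl fun j _ => ?_
    have h3 := congrArg star (key.pu j)
    rw [star_mul, hps] at h3
    have h4 := congrArg star (key.up j)
    rw [star_mul, hps] at h4
    rw [h3, Fid _ h4 h3]
  rw [h2, key.ind] at h1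
  have h3 : (((t * c : ℝ) : ℂ) - 1) • p = 0 := by rw [sub_smul, one_smul, h1, sub_self]
  rcases smul_eq_zero.1 h3 with h4 | h4
  · exact_mod_cast sub_eq_zero.1 h4
  · exact absurd h4 hp0

/-- a subfactor with a full corner is isomorphic to this corner -/
theorem iso_of_corner (hU : (U : Filter ℕ) ≤ cofinite) (hI : IsFinIndex (tau U) N E m d)
    {p : MU U} (hp : IsPart N p)
    (hfull : ∀ x, p * x = x → x * p = x → ∃ y ∈ N, y * p = x) {t : ℝ}
    (ht : (tau U p).re = t) :
    ∃ g : MU U → MU (U.map (fl t)), IsIso (U := U) N (full (U.map (fl t))) g := by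
  obtain ⟨hp0, hpp, hps, hpN⟩ := hp
  have t0 : 0 < t := by
    rw [← ht]
    exact tau_proj_pos hp0 hpp hps
  have t1 : t ≤ 1 := by
    rw [← ht]
    exact tau_proj_le hU hpp hps
  have htt : tau U p = (t : ℂ) := by
    have h1 := (isState_tau (U := U)).real p
    rw [hps, hpp, ht] at h1
    exact h1
  have t0c : (t : ℂ) ≠ 0 := by exact_mod_cast t0.ne'
  have hrt := tendsto_fl_div t0 hU
  have hr : ∀ n, fl t n ≤ n := by
    intro n
    refine Nat.floor_le_of_le ?_
    exact mul_le_of_le_one_left (Nat.cast_nonneg n) t1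
  obtain ⟨v, hv, hvp⟩ := exists_lift p hpp hps t htt (fl t) hr hrt
  obtain ⟨S, hS, hSinj⟩ := exists_injOn t0 U
  let Q : MU (U.map (fl t)) →ₗ[ℂ] MU U :=
    { toFun := psi hv U
      map_add' := psi_add hv t0 hrt
      map_smul' := psi_smul hv t0 hrt }
  have Qinj : Function.Injective Q := psi_inj hv t0 hrt
  have Qmul : ∀ z w, Q (z * w) = Q z * Q w := psi_mul hv t0 hrt
  have Qstar : ∀ z, Q (star z) = star (Q z) := psi_star hv t0 hrt
  have Qone : Q 1 = p := psi_one hv t0 hrt hvp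
  have Qtr : ∀ z, tau U (Q z) = t * tau (U.map (fl t)) z := tau_psi hv t0 hrt
  have Qsurj : ∀ x, p * x = x → x * p = x → ∃ z, Q z = x := fun x h1 h2 =>
    psi_surj hv t0 hrt hvp hS hSinj x h1 h2
  have pQ : ∀ z, p * Q z = Q z := by
    intro z
    rw [← Qone, ← Qmul, one_mul]
  have Qp : ∀ z, Q z * p = Q z := by
    intro z
    rw [← Qone, ← Qmul, mul_one]
  have hex : ∀ x : MU U, ∃ z, Q z = p * x * p := by
    intro x
    refine Qsurj _ ?_ ?_
    · rw [mul_assoc, ← mul_assoc p p, hpp]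
    · rw [mul_assoc (p * x), hpp]
  choose g hg using hex
  have hgN : ∀ y ∈ N, Q (g y) = y * p := by
    intro y hy
    rw [hg, ← hpN y hy, mul_assoc, hpp]
  have tp0 : tau U p ≠ 0 := by
    rw [htt]
    exact t0c
  refine ⟨g, ⟨⟨fun _ _ => trivial, ?_, ?_⟩, ?_, ?_, ?_, ?_, ?_⟩⟩
  · intro x hx y hy hxy
    have h2 := congrArg Q hxy
    rw [hgN x hx, hgN y hy, ← sub_eq_zero, ← sub_mul] at h2
    exact sub_eq_zero.1 (hI.inj isState_tau (tau_one hU) hpN tp0 (sub_mem hx hy) h2)
  · intro z _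
    obtain ⟨y, hy, hyz⟩ := hfull (Q z) (pQ z) (Qp z)
    exact ⟨y, hy, Qinj (by rw [hgN y hy, hyz])⟩
  · intro x y hx hy
    refine Qinj ?_
    rw [map_add, hgN x hx, hgN y hy, hgN _ (add_mem hx hy), add_mul]
  · intro x y hx hy
    refine Qinj ?_
    rw [Qmul, hgN x hx, hgN y hy, hgN _ (mul_mem hx hy), mul_assoc x p, ← mul_assoc p y p,
      ← hpN y hy, mul_assoc y p p, hpp, mul_assoc]
  · intro a x hx
    refine Qinj ?_
    rw [map_smul, hgN x hx, hgN _ (N.smul_mem hx a), smul_mul_assoc]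
  · intro x hx
    refine Qinj ?_
    rw [Qstar, hgN x hx, hgN _ (star_mem hx), star_mul, hps, hpN _ (star_mem hx)]
  · intro x s hx hs
    have h1 : tau (U.map (fl t)) (g x) = s := by
      refine mul_left_cancel₀ t0c ?_
      rw [← Qtr, hgN x hx, ← hI.tr, hI.left x hx, hI.E_scalar (tau_one hU) hpN, htt,
        Algebra.algebraMap_eq_smul_one, mul_smul_comm, mul_one, map_smul, smul_eq_mul, hs.eq]
    have h2 := isTrace_tau (g x)
    rwa [h1] at h2

theorem fl_div {l : ℕ} (n : ℕ) : fl (1 / (l : ℝ)) n = n / l := by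
  unfold fl
  rw [one_div, inv_mul_eq_div]
  exact Nat.floor_div_eq_div n l

/-- tensor decomposition of `M^U` from a family of equivalent projections with full corners -/
theorem tensor_main (hU : (U : Filter ℕ) ≤ cofinite) (hI : IsFinIndex (tau U) N E m d) {l : ℕ}
    (p : Fin l → MU U) (hpart : ∀ i, IsPart N (p i)) (hfo : ∀ i j, i ≠ j → p i * p j = 0)
    (hfs : ∑ i, p i = 1)
    (hfull : ∀ i x, p i * x = x → x * p i = x → ∃ y ∈ N, y * p i = x)
    (hv : ∀ i j, ∃ v : MU U, star v * v = p i ∧ v * star v = p j ∧ ∀ y ∈ N, y * v = v * y) :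
    ∃ (l : ℕ) (e : Fin l → Fin l → MU U), d = (l : ℝ) ^ 2 ∧
      (∃ g : MU U → MU (U.map fun n => n / l),
        IsIso (U := U) N (full (U.map fun n => n / l)) g) ∧
      ((U.map fun n => n / l : Ultrafilter ℕ) : Filter ℕ) ≤ cofinite ∧
      (∀ i j, ∀ y ∈ N, y * e i j = e i j * y) ∧
      (∀ i j, star (e i j) = e j i) ∧
      (∀ i j k r, e i j * e k r = if j = k then e i r else 0) ∧
      (∀ i, e i i ≠ 0) ∧ ∑ i, e i i = 1 ∧
      ∀ x, ∃ y : Fin l → Fin l → MU U, (∀ i j, y i j ∈ N) ∧ x = ∑ i, ∑ j, y i j * e i j := by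
  have h1 : (1 : MU U) ≠ 0 := by
    intro h2
    have h3 := tau_one hU
    rw [h2, map_zero] at h3
    exact zero_ne_one h3
  have hl : 0 < l := by
    rcases Nat.eq_zero_or_pos l with h2 | h2
    · subst h2
      rw [Finset.univ_eq_empty, Finset.sum_empty] at hfs
      exact absurd hfs.symm h1
    · exact h2
  set o : Fin l := ⟨0, hl⟩ with ho
  choose v hv1' hv2' hvN using fun i => hv o i
  have hvp : ∀ i, v i * p o = v i := by
    intro i
    have h2 : star (v i - v i * p o) * (v i - v i * p o) = 0 := by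
      have e1 : star (v i - v i * p o) * (v i - v i * p o)
          = star (v i) * v i - star (v i) * v i * p o
            - p o * (star (v i) * v i) + p o * (star (v i) * v i) * p o := by
        rw [star_sub, star_mul, (hpart o).2.2.1]
        noncomm_ring
      rw [e1, hv1', (hpart o).2.1, (hpart o).2.1]
      abel
    have h3 := isState_tau.faith _ (by rw [h2, map_zero])
    exact (sub_eq_zero.1 h3).symm
  have hpv : ∀ i, p i * v i = v i := by
    intro i
    rw [← hv2', mul_assoc, hv1', hvp]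
  have hvN' : ∀ i, ∀ y ∈ N, y * star (v i) = star (v i) * y := by
    intro i y hy
    have h2 := congrArg star (hvN i (star y) (star_mem hy))
    rw [star_mul, star_mul, star_star] at h2
    exact h2.symm
  have hvv : ∀ i j, i ≠ j → star (v i) * v j = 0 := by
    intro i j hij
    have h2 : star (v i) = star (v i) * p i := by
      have h3 := congrArg star (hpv i)
      rw [star_mul, (hpart i).2.2.1] at h3
      exact h3.symm
    rw [h2, ← hpv j, mul_assoc, ← mul_assoc (p i), hfo i j hij, zero_mul, mul_zero]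
  have hmul : ∀ i j k r, (v i * star (v j)) * (v k * star (v r))
      = if j = k then v i * star (v r) else 0 := by
    intro i j k r
    rw [mul_assoc, ← mul_assoc (star (v j))]
    split_ifs with h2
    · subst h2
      rw [hv1', ← mul_assoc, hvp]
    · rw [hvv j k h2, zero_mul, mul_zero]
  -- traces
  have htr : ∀ i, tau U (p i) = tau U (p o) := by
    intro i
    rw [← hv2' i, isState_tau.tr, hv1']
  have htl : (l : ℝ) * (tau U (p o)).re = 1 := by
    have h2 := congrArg (tau U) hfs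
    rw [map_sum, tau_one hU] at h2
    have h3 : ∑ i, tau U (p i) = ∑ _i : Fin l, tau U (p o) :=
      Finset.sum_congr rfl fun i _ => htr i
    rw [h3, Finset.sum_const, Finset.card_univ, Fintype.card_fin, nsmul_eq_mul] at h2
    have h4 := congrArg Complex.re h2
    rw [Complex.one_re, Complex.mul_re, Complex.natCast_im, zero_mul, sub_zero,
      Complex.natCast_re] at h4
    exact h4
  have hl0 : (l : ℝ) ≠ 0 := by exact_mod_cast hl.ne'
  have hto : (tau U (p o)).re = 1 / (l : ℝ) := by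
    rw [eq_div_iff hl0, mul_comm]
    exact htl
  -- index
  have hd : d = (l : ℝ) ^ 2 := by
    choose c hc using fun i => hI.exists_c isState_tau (tau_one hU) centre (hpart i).2.1
      (hpart i).2.2.1 (hpart i).2.2.2
    have h2 := hI.sum_c (tau_one hU) (p := p) hfs hc
    have h3 : ∀ i, c i = l := by
      intro i
      have h4 := local_one hU hI (hpart i) (hfull i) (hc i)
      rw [htr i, hto, one_div, inv_mul_eq_div, div_eq_iff hl0, one_mul] at h4
      exact h4
    rw [← h2, Finset.sum_congr rfl fun i _ => h3 i, Finset.sum_const, Finset.card_univ,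
      Fintype.card_fin, nsmul_eq_mul, pow_two]
  have hfl : fl (1 / (l : ℝ)) = fun n => n / l := funext fun n => fl_div n
  have hiso := iso_of_corner hU hI (hpart o) (hfull o) hto
  have hcof := tendsto_fl (U := U) (t := 1 / (l : ℝ)) (by positivity) hU
  rw [hfl] at hiso hcof
  refine ⟨l, fun i j => v i * star (v j), hd, hiso, hcof, ?_, ?_, hmul, ?_, ?_, ?_⟩
  · intro i j y hy
    rw [← mul_assoc, hvN i y hy, mul_assoc, hvN' j y hy, mul_assoc]
  · intro i j
    rw [star_mul, star_star]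
  · intro i
    show v i * star (v i) ≠ 0
    rw [hv2']
    exact (hpart i).1
  · show ∑ i, v i * star (v i) = 1
    rw [← hfs]
    exact Finset.sum_congr rfl fun i _ => hv2' i
  · intro x
    have hex : ∀ i j, ∃ y ∈ N, y * p i = p i * x * (v j * star (v i)) := by
      intro i j
      refine hfull i _ ?_ ?_
      · rw [mul_assoc (p i) x, ← mul_assoc (p i) (p i), (hpart i).2.1]
      · rw [mul_assoc _ _ (p i), ← hv2' i, hmul, if_pos rfl]
    choose y hy hyp using hex
    refine ⟨y, hy, ?_⟩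
    have h2 : ∀ i j, y i j * (v i * star (v j)) = p i * x * p j := by
      intro i j
      calc y i j * (v i * star (v j)) = y i j * (p i * v i * star (v j)) := by rw [hpv]
        _ = y i j * p i * (v i * star (v j)) := by simp only [mul_assoc]
        _ = p i * x * ((v j * star (v i)) * (v i * star (v j))) := by
            rw [hyp]
            simp only [mul_assoc]
        _ = p i * x * p j := by rw [hmul, if_pos rfl, hv2']
    have h3 : ∑ i, ∑ j, y i j * (v i * star (v j)) = ∑ i, ∑ j, p i * x * p j :=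
      Finset.sum_congr rfl fun i _ => Finset.sum_congr rfl fun j _ => h2 i j
    show x = ∑ i, ∑ j, y i j * (v i * star (v j))
    rw [h3]
    have h4 : ∀ i, ∑ j, p i * x * p j = p i * x := by
      intro i
      rw [← Finset.mul_sum, hfs, mul_one]
    rw [Finset.sum_congr rfl fun i _ => h4 i, ← Finset.sum_mul, hfs, one_mul]

theorem inner_main (hU : (U : Filter ℕ) ≤ cofinite) (hN : UP A N)
    (hI : IsFinIndex (tau U) N E m d) :
    ∃ (l : ℕ) (e : Fin l → Fin l → MU U), d = (l : ℝ) ^ 2 ∧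
      (∃ g : MU U → MU (U.map fun n => n / l),
        IsIso (U := U) N (full (U.map fun n => n / l)) g) ∧
      ((U.map fun n => n / l : Ultrafilter ℕ) : Filter ℕ) ≤ cofinite ∧
      (∀ i j, ∀ y ∈ N, y * e i j = e i j * y) ∧
      (∀ i j, star (e i j) = e j i) ∧
      (∀ i j k r, e i j * e k r = if j = k then e i r else 0) ∧
      (∀ i, e i i ≠ 0) ∧ ∑ i, e i i = 1 ∧
      ∀ x, ∃ y : Fin l → Fin l → MU U, (∀ i j, y i j ∈ N) ∧ x = ∑ i, ∑ j, y i j * e i j := by
  obtain ⟨l, f, hf, hfo, hfs⟩ := parted_one hU hN hI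
  rw [map_one] at hfs
  exact tensor_main hU hI (fun i => cl U (f i)) (fun i => (hf i).1.ipc.isPart hN (hf i).2.2) hfo hfs
    (fun i x h2 h3 => corner_full hN (hf i).1 h2 h3)
    fun i j => exists_v hU hN hI (hf i).1 (hf j).1 (hf i).2.2 (hf j).2.2

end Pool.Agent.MUF
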