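import Pool.Agent.MUF.Defs
import Pool.Agent.MUF.Gap

/-!
# MUF: the trace of the matrix ultraproduct

MP_a83bb2_an (helper13).
-/

set_option autoImplicit false

open Filter Topology
open scoped Matrix Matrix.Norms.L2Operator

noncomputable section

namespace Pool.Agent.MUF

theorem norm_ntr_sq_le {n : ℕ} (x : Matrix (Fin n) (Fin n) ℂ) : ‖ntr x‖ ^ 2 ≤ nsq x := by
  rcases Nat.eq_zero_or_pos n with h0 | h0
  · subst h0
    simp [ntr, nsq]
  · have hn : (0 : ℝ) < n := by exact_mod_cast h0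
    unfold ntr
    rw [norm_div, Complex.norm_natCast, div_pow, nsq_eq, div_le_div_iff₀ (by positivity) hn]
    have h1 : ‖x.trace‖ ^ 2 ≤ n * ∑ i, ‖x i i‖ ^ 2 := by
      have h2 : ‖x.trace‖ ≤ ∑ i, ‖x i i‖ := norm_sum_le _ _
      have h3 := pow_le_pow_left₀ (norm_nonneg _) h2 2
      have h4 : (∑ i, ‖x i i‖) ^ 2 ≤ (Finset.univ : Finset (Fin n)).card * ∑ i, ‖x i i‖ ^ 2 :=
        sq_sum_le_card_mul_sum_sq
      rw [Finset.card_univ, Fintype.card_fin] at h4
      exact h3.trans h4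
    have h5 : ∑ i, ‖x i i‖ ^ 2 ≤ ∑ i, ∑ j, ‖x i j‖ ^ 2 := by
      refine Finset.sum_le_sum fun i _ => ?_
      exact Finset.single_le_sum (f := fun j => ‖x i j‖ ^ 2) (fun j _ => by positivity)
        (Finset.mem_univ i)
    have h6 : ‖x.trace‖ ^ 2 ≤ n * ∑ i, ∑ j, ‖x i j‖ ^ 2 :=
      h1.trans (mul_le_mul_of_nonneg_left h5 hn.le)
    calc ‖x.trace‖ ^ 2 * n ≤ (n * ∑ i, ∑ j, ‖x i j‖ ^ 2) * n :=
          mul_le_mul_of_nonneg_right h6 hn.le
      _ = (∑ i, ∑ j, ‖x i j‖ ^ 2) * (n : ℝ) ^ 2 := by ring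

theorem nsq_smul {n : ℕ} (c : ℂ) (x : Matrix (Fin n) (Fin n) ℂ) :
    nsq (c • x) = ‖c‖ ^ 2 * nsq x := by
  rw [nsq_eq, nsq_eq, ← mul_div_assoc, Finset.mul_sum]
  congr 1
  refine Finset.sum_congr rfl fun i _ => ?_
  rw [Finset.mul_sum]
  refine Finset.sum_congr rfl fun j _ => ?_
  rw [Matrix.smul_apply, smul_eq_mul, norm_mul, mul_pow]

theorem nsq_one_le {n : ℕ} : nsq (1 : Matrix (Fin n) (Fin n) ℂ) ≤ 1 := by
  unfold nsq
  rw [Matrix.conjTranspose_one, mul_one, Matrix.trace_one, Fintype.card_fin, Complex.natCast_re]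
  exact div_self_le_one _

theorem nsq_le_norm {n : ℕ} (x : Matrix (Fin n) (Fin n) ℂ) : nsq x ≤ ‖x‖ ^ 2 := by
  have h := nsq_mul_le x 1
  rw [mul_one] at h
  exact h.trans (mul_le_of_le_one_right (by positivity) nsq_one_le)

theorem norm_ntr_le {n : ℕ} (x : Matrix (Fin n) (Fin n) ℂ) : ‖ntr x‖ ≤ ‖x‖ :=
  le_of_sq_le_sq ((norm_ntr_sq_le x).trans (nsq_le_norm x)) (norm_nonneg _)

theorem ntr_add {n : ℕ} (x y : Matrix (Fin n) (Fin n) ℂ) : ntr (x + y) = ntr x + ntr y := by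
  unfold ntr
  rw [Matrix.trace_add, add_div]

theorem ntr_sub {n : ℕ} (x y : Matrix (Fin n) (Fin n) ℂ) : ntr (x - y) = ntr x - ntr y := by
  unfold ntr
  rw [Matrix.trace_sub, sub_div]

theorem ntr_smul {n : ℕ} (c : ℂ) (x : Matrix (Fin n) (Fin n) ℂ) : ntr (c • x) = c * ntr x := by
  unfold ntr
  rw [Matrix.trace_smul, smul_eq_mul, mul_div_assoc]

variable {U : Ultrafilter ℕ}

theorem tendsto_ntr_sub {a b : Bdd} (h : cl U a = cl U b) :
    Tendsto (fun n => ntr (a.1 n) - ntr (b.1 n)) U (𝓝 0) := by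
  rw [cl_eq] at h
  rw [tendsto_zero_iff_norm_tendsto_zero]
  have h1 : Tendsto (fun n => Real.sqrt (nsq (a.1 n - b.1 n))) U (𝓝 (Real.sqrt 0)) :=
    (Real.continuous_sqrt.tendsto 0).comp h
  rw [Real.sqrt_zero] at h1
  refine squeeze_zero (fun n => norm_nonneg _) (fun n => ?_) h1
  rw [← ntr_sub]
  exact Real.le_sqrt_of_sq_le (norm_ntr_sq_le _)

theorem exists_lim (a : Bdd) : ∃ t : ℂ, Tendsto (fun n => ntr (a.1 n)) U (𝓝 t) := by
  obtain ⟨C, hC⟩ := a.2
  obtain ⟨t, -, ht⟩ := (isCompact_closedBall (0 : ℂ) C).ultrafilter_le_nhds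
    (U.map fun n => ntr (a.1 n)) (by
      rw [le_principal_iff, Ultrafilter.mem_coe, Ultrafilter.mem_map]
      refine Filter.univ_mem' fun n => ?_
      rw [Set.mem_preimage, mem_closedBall_zero_iff]
      exact (norm_ntr_le _).trans (hC n))
  exact ⟨t, ht⟩

theorem exists_trace (x : MU U) : ∃ t : ℂ, IsTrace x t := by
  obtain ⟨a, rfl⟩ := cl_surj U x
  obtain ⟨t, ht⟩ := exists_lim (U := U) a
  exact ⟨t, toB a, rfl, ht⟩

theorem IsTrace.tendsto {a : Bdd} {t : ℂ} (h : IsTrace (cl U a) t) :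
    Tendsto (fun n => ntr (a.1 n)) U (𝓝 t) := by
  obtain ⟨b, hb, h1⟩ := h
  have h2 := (tendsto_ntr_sub (a := a) (b := ⟨b.val, b.bdd⟩) hb.symm).add h1
  rw [zero_add] at h2
  exact h2.congr fun n => by ring

theorem IsTrace.unique {x : MU U} {s t : ℂ} (h : IsTrace x s) (h' : IsTrace x t) : s = t := by
  obtain ⟨a, rfl⟩ := cl_surj U x
  exact tendsto_nhds_unique h.tendsto h'.tendsto

/-- the trace of `M^U` -/
def tau (U : Ultrafilter ℕ) : MU U →ₗ[ℂ] ℂ where
  toFun x := (exists_trace x).choose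
  map_add' := by
    intro x y
    refine IsTrace.unique (exists_trace (x + y)).choose_spec ?_
    obtain ⟨a, ha, h1⟩ := (exists_trace x).choose_spec
    obtain ⟨b, hb, h2⟩ := (exists_trace y).choose_spec
    refine ⟨a + b, by rw [← mk_add, ha, hb], (h1.add h2).congr fun n => ?_⟩
    exact (ntr_add _ _).symm
  map_smul' := by
    intro r x
    refine IsTrace.unique (exists_trace (r • x)).choose_spec ?_
    obtain ⟨a, ha, h1⟩ := (exists_trace x).choose_spec
    refine ⟨BSeq.scalar r * a, by rw [← mk_smul, ha], (h1.const_mul r).congr fun n => ?_⟩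
    rw [BSeq.mul_val, BSeq.scalar_val, smul_mul_assoc, one_mul]
    exact (ntr_smul _ _).symm

theorem isTrace_tau (x : MU U) : IsTrace x (tau U x) := (exists_trace x).choose_spec

theorem IsTrace.eq {x : MU U} {t : ℂ} (h : IsTrace x t) : tau U x = t :=
  (isTrace_tau x).unique h

theorem tendsto_tau (a : Bdd) : Tendsto (fun n => ntr (a.1 n)) U (𝓝 (tau U (cl U a))) :=
  (isTrace_tau _).tendsto

theorem tau_cl_eq {a : Bdd} {t : ℂ} (h : Tendsto (fun n => ntr (a.1 n)) U (𝓝 t)) :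
    tau U (cl U a) = t := IsTrace.eq ⟨toB a, rfl, h⟩

theorem tendsto_nsq (a : Bdd) :
    Tendsto (fun n => nsq (a.1 n)) U (𝓝 (tau U (star (cl U a) * cl U a)).re) := by
  rw [star_cl, ← map_mul]
  have h1 := (Complex.continuous_re.tendsto _).comp (tendsto_tau (U := U) (star a * a))
  refine h1.congr fun n => ?_
  show (ntr ((a.1 n)ᴴ * a.1 n)).re = _
  unfold ntr nsq
  rw [← Complex.ofReal_natCast, Complex.div_ofReal_re]

theorem isState_tau : IsState (tau U) where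
  tr := by
    intro x y
    obtain ⟨a, rfl⟩ := cl_surj U x
    obtain ⟨b, rfl⟩ := cl_surj U y
    rw [← map_mul, ← map_mul]
    refine tau_cl_eq ((tendsto_tau (U := U) (b * a)).congr fun n => ?_)
    show ntr (b.1 n * a.1 n) = ntr (a.1 n * b.1 n)
    unfold ntr
    rw [Matrix.trace_mul_comm]
  st := by
    intro x
    obtain ⟨a, rfl⟩ := cl_surj U x
    rw [star_cl]
    refine tau_cl_eq (((continuous_star.tendsto _).comp (tendsto_tau (U := U) a)).congr
      fun n => ?_)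
    show star (ntr (a.1 n)) = ntr ((a.1 n)ᴴ)
    unfold ntr
    rw [Matrix.trace_conjTranspose, star_div₀, star_natCast]
  pos := by
    intro x
    obtain ⟨a, rfl⟩ := cl_surj U x
    exact ge_of_tendsto' (tendsto_nsq a) fun n => nsq_nonneg _
  faith := by
    intro x hx
    obtain ⟨a, rfl⟩ := cl_surj U x
    have h1 := tendsto_nsq (U := U) a
    rw [hx, Complex.zero_re] at h1
    exact cl_eq_zero.2 h1

theorem ntr_one {n : ℕ} (hn : n ≠ 0) : ntr (1 : Matrix (Fin n) (Fin n) ℂ) = 1 := by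
  unfold ntr
  rw [Matrix.trace_one, Fintype.card_fin, div_self]
  exact_mod_cast hn

theorem tau_one (hU : (U : Filter ℕ) ≤ cofinite) : tau U 1 = 1 := by
  rw [← map_one (cl U)]
  refine tau_cl_eq (Tendsto.congr' ?_ (tendsto_const_nhds (x := (1 : ℂ))))
  have h1 : ∀ᶠ n : ℕ in U, n ≠ 0 := hU (by
    rw [mem_cofinite]
    refine (Set.finite_singleton 0).subset fun n hn => ?_
    by_contra hcon
    exact hn hcon)
  filter_upwards [h1] with n hn
  exact (ntr_one hn).symm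

end Pool.Agent.MUF
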